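import Pool.Agent.Lib.MP_fb430f_co.Ham
import Pool.Agent.Lib.MP_e11f15_gt.Cx

open Set

namespace Pool.Agent.Lib.Z78

open Pool.Agent.Lib.MP_fb430f_co Pool.Agent.Lib.MP_e11f15_gt

open Classical in
theorem tucker_lin {W : Type} [AddCommGroup W] [Module ℝ W] [FiniteDimensional ℝ W]
    (Φ : List (W →ₗ[ℝ] ℝ)) {κ : Type} [Fintype κ] (c0 : {f : W // f ≠ 0} → κ)
    (sgn : {f : W // f ≠ 0} → Bool) (a : {f : W // f ≠ 0} → {f : W // f ≠ 0})
    (ha : ∀ f, (a f).1 = -f.1) (hc0 : ∀ v, c0 (a v) = c0 v) (hsgn : ∀ v, sgn (a v) = !sgn v)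
    (hr : Fintype.card κ < Module.finrank ℝ W) :
    ∃ v w, (∀ h ∈ Φ, (0 ≤ h v.1 ∧ 0 ≤ h w.1) ∨ (h v.1 ≤ 0 ∧ h w.1 ≤ 0)) ∧ c0 v = c0 w ∧
      sgn v ≠ sgn w := by
  have hac := conf_sub Φ (⊤ : Submodule ℝ W)
  rw [finrank_top] at hac
  obtain ⟨s, hs, v, hv, w, hw, e1, e2⟩ := tucker (κ := κ) (Conf Φ (⊤ : Submodule ℝ W)) _
    c0 sgn a (fun f => Subtype.ext (by rw [ha, ha, neg_neg])) hc0 hsgn
    (fun s hs => ⟨fun _ _ => trivial, fun h hh => by
      rcases hs.2 h hh with h1 | h1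
      · refine Or.inr fun f hf => ?_
        obtain ⟨g, hg, rfl⟩ := Finset.mem_image.1 hf
        simpa [ha] using h1 g hg
      · refine Or.inl fun f hf => ?_
        obtain ⟨g, hg, rfl⟩ := Finset.mem_image.1 hf
        simpa [ha] using h1 g hg⟩)
    ⟨fun _ h => by simp at h, fun _ _ => Or.inl fun _ h => by simp at h⟩ hac hr
  exact ⟨v, w, fun h hh => (hs.2 h hh).imp (fun k => ⟨k v hv, k w hw⟩) (fun k => ⟨k v hv, k w hw⟩),
    e1, e2⟩

theorem close_of_sides {m : ℕ} (hm : 0 < m) {p q : ℝ} (hp : |p| ≤ 1) (hq : |q| ≤ 1)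
    (h : ∀ k : ℤ, -(m : ℤ) ≤ k → k ≤ m → ((k : ℝ) ≤ m * p ∧ (k : ℝ) ≤ m * q) ∨
      (m * p ≤ (k : ℝ) ∧ m * q ≤ (k : ℝ))) : p - q ≤ 1 / m := by
  have hm' : (0 : ℝ) < m := by exact_mod_cast hm
  by_contra hc
  push Not at hc
  rw [div_lt_iff₀ hm'] at hc
  rw [abs_le] at hp hq
  have h1 := Int.floor_le (m * q)
  have h2 := Int.lt_floor_add_one (m * q)
  have h3 : -(m : ℝ) < ((⌊m * q⌋ + 1 : ℤ) : ℝ) := by push_cast; nlinarith
  have h4 : ((⌊m * q⌋ + 1 : ℤ) : ℝ) < m := by push_cast; nlinarith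
  rcases h (⌊m * q⌋ + 1) (by exact_mod_cast h3.le) (by exact_mod_cast h4.le) with h5 | h5
  · push_cast at h5; linarith
  · push_cast at h5; nlinarith

/-- Borsuk-Ulam on the unit sphere of the sum norm. -/
theorem bu {n : ℕ} (g : (Fin (n + 2) → ℝ) → Fin (n + 1) → ℝ)
    (hg : ContinuousOn g {x | ∑ i, |x i| = 1}) (ho : ∀ x, g (-x) = -g x) :
    ∃ x, ∑ i, |x i| = 1 ∧ g x = 0 := by
  classical
  by_contra hn
  push Not at hn
  set S : Set (Fin (n + 2) → ℝ) := {x | ∑ i, |x i| = 1} with hS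
  have hle : ∀ x ∈ S, ∀ i, |x i| ≤ 1 := fun x hx i =>
    (Finset.single_le_sum (f := fun i => |x i|) (fun _ _ => abs_nonneg _)
      (Finset.mem_univ i)).trans hx.le
  have hSc : IsCompact S := Metric.isCompact_of_isClosed_isBounded
    (isClosed_eq (by fun_prop) continuous_const)
    ((Metric.isBounded_closedBall (x := 0) (r := 1)).subset fun x hx => by
      rw [mem_closedBall_zero_iff, pi_norm_le_iff_of_nonneg zero_le_one]
      exact hle x hx)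
  obtain ⟨x0, hx0, hmin⟩ := hSc.exists_isMinOn ⟨Pi.single 0 1, by
    simp [hS, Fin.sum_univ_succ]⟩ hg.norm
  have hδ : 0 < ‖g x0‖ := norm_pos_iff.2 (hn x0 hx0)
  obtain ⟨η, hη, hu⟩ := Metric.uniformContinuousOn_iff.1
    (hSc.uniformContinuousOn_of_continuous hg) _ hδ
  obtain ⟨m, hm⟩ := exists_nat_one_div_lt hη
  let N : (Fin (n + 2) → ℝ) → ℝ := fun x => ∑ i, |x i|
  have hN : ∀ x, x ≠ 0 → 0 < N x := fun x hx => by
    obtain ⟨i, hi⟩ := Function.ne_iff.1 hx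
    exact Finset.sum_pos' (fun _ _ => abs_nonneg _) ⟨i, Finset.mem_univ _, abs_pos.2 hi⟩
  let ν : (Fin (n + 2) → ℝ) → Fin (n + 2) → ℝ := fun x => (N x)⁻¹ • x
  have hν : ∀ x, x ≠ 0 → ν x ∈ S := fun x hx => by
    simp only [hS, ν, mem_ofPred_eq, Pi.smul_apply, smul_eq_mul, abs_mul, ← Finset.mul_sum,
      abs_of_pos (inv_pos.2 (hN x hx))]
    exact inv_mul_cancel₀ (hN x hx).ne'
  have hνn : ∀ x, ν (-x) = -ν x := fun x => by simp [ν, N]
  let c : (Fin (n + 2) → ℝ) → Fin (n + 1) := fun x =>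
    Classical.epsilon fun i => ‖g x0‖ ≤ |g (ν x) i|
  have hc : ∀ x, x ≠ 0 → ‖g x0‖ ≤ |g (ν x) (c x)| := fun x hx => by
    refine Classical.epsilon_spec (p := fun i => ‖g x0‖ ≤ |g (ν x) i|) ?_
    by_contra h
    push Not at h
    exact absurd ((pi_norm_lt_iff hδ).2 h) (not_lt.2 (hmin (hν x hx)))
  have hcn : ∀ x, c (-x) = c x := fun x => by simp [c, hνn, ho]
  let φ : Fin (n + 2) × Fin (2 * (m + 1) + 1) × (Fin (n + 2) → Bool) →
      (Fin (n + 2) → ℝ) →ₗ[ℝ] ℝ := fun p => ((m + 1 : ℕ) : ℝ) • LinearMap.proj p.1 -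
        (((p.2.1 : ℕ) : ℝ) - (m + 1 : ℕ)) •
          ∑ j, (if p.2.2 j then (1 : ℝ) else -1) • LinearMap.proj j
  obtain ⟨v, w, h1, h2, h3⟩ := tucker_lin
    ((Finset.univ.toList.map φ) ++ Finset.univ.toList.map fun i => LinearMap.proj i)
    (fun x => c x.1) (fun x => decide (0 < g (ν x.1) (c x.1))) (fun f => ⟨-f.1, neg_ne_zero.2 f.2⟩)
    (fun _ => rfl) (fun v => hcn _) (fun v => by
      have := hc _ v.2
      have h4 : g (ν v.1) (c v.1) ≠ 0 := fun h => by rw [h, abs_zero] at this; linarith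
      simp only [hcn, hνn, ho, Pi.neg_apply, Left.neg_pos_iff]
      rcases lt_or_gt_of_ne h4 with h | h <;> simp [h, h.le, not_lt.2 h.le]) (by simp)
  let ε : Fin (n + 2) → Bool := fun j => decide (0 ≤ v.1 j ∧ 0 ≤ w.1 j)
  have hε : ∀ j, (if ε j then (1 : ℝ) else -1) * v.1 j = |v.1 j| ∧
      (if ε j then (1 : ℝ) else -1) * w.1 j = |w.1 j| := fun j => by
    by_cases h : 0 ≤ v.1 j ∧ 0 ≤ w.1 j
    · simp [ε, h, abs_of_nonneg]
    · have := (h1 (LinearMap.proj j) (by simp)).resolve_left h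
      simp only [LinearMap.proj_apply] at this
      simp only [ε, h, decide_false]
      simp [abs_of_nonpos this.1, abs_of_nonpos this.2]
  have hs : ∀ i (k : ℤ), -((m + 1 : ℕ) : ℤ) ≤ k → k ≤ (m + 1 : ℕ) →
      ((k : ℝ) ≤ (m + 1 : ℕ) * ν v.1 i ∧ (k : ℝ) ≤ (m + 1 : ℕ) * ν w.1 i) ∨
      ((m + 1 : ℕ) * ν v.1 i ≤ (k : ℝ) ∧ (m + 1 : ℕ) * ν w.1 i ≤ (k : ℝ)) := fun i k k1 k2 => by
    obtain ⟨j, hj⟩ := Int.eq_ofNat_of_zero_le (a := k + (m + 1 : ℕ)) (by omega)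
    have hk : (j : ℝ) - (m + 1 : ℕ) = k := by
      have : ((k + (m + 1 : ℕ) : ℤ) : ℝ) = (j : ℤ) := by rw [hj]
      push_cast at this ⊢; linarith
    have := h1 (φ (i, ⟨j, by omega⟩, ε)) (List.mem_append_left _ (List.mem_map_of_mem (by simp)))
    simp only [φ, LinearMap.sub_apply, LinearMap.smul_apply, LinearMap.sum_apply,
      LinearMap.proj_apply, smul_eq_mul, hk, (hε _).1, (hε _).2] at this
    have a := hN _ v.2
    have b := hN _ w.2
    simp only [ν, Pi.smul_apply, smul_eq_mul, ← mul_assoc, ← div_eq_mul_inv, div_mul_eq_mul_div,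
      le_div_iff₀ a, le_div_iff₀ b, div_le_iff₀ a, div_le_iff₀ b]
    exact this.imp (fun h => ⟨by linarith [h.1], by linarith [h.2]⟩)
      fun h => ⟨by linarith [h.1], by linarith [h.2]⟩
  have hd : dist (ν v.1) (ν w.1) < η := by
    rw [dist_pi_lt_iff hη]
    intro i
    have a := close_of_sides (Nat.succ_pos m) (hle _ (hν _ v.2) i) (hle _ (hν _ w.2) i) (hs i)
    have b := close_of_sides (Nat.succ_pos m) (hle _ (hν _ w.2) i) (hle _ (hν _ v.2) i)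
      fun k k1 k2 => (hs i k k1 k2).imp And.symm And.symm
    push_cast at a b
    rw [Real.dist_eq, abs_lt]
    constructor <;> linarith
  have h4 := (dist_pi_lt_iff hδ).1 (hu _ (hν _ v.2) _ (hν _ w.2) hd) (c v.1)
  have h5 := hc _ v.2
  have h6 := hc _ w.2
  rw [← h2] at h3 h6
  rw [Real.dist_eq, abs_lt] at h4
  by_cases a : 0 < g (ν v.1) (c v.1) <;> by_cases b : 0 < g (ν w.1) (c v.1)
  · simp [a, b] at h3
  · rw [abs_of_pos a] at h5; linarith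
  · rw [abs_of_pos b] at h6; linarith
  · simp [a, b] at h3

end Pool.Agent.Lib.Z78
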