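import Pool.Agent.Lib.MP_e11f15_gt.Lift

open Set Real Complex

namespace Pool.Agent.Lib.Z78

open Pool.Agent.Lib.MP_e11f15_gt

theorem inc_arg {E : Type*} [NormedAddCommGroup E] [NormedSpace ℝ E] {v : E → ℂ} {a b : E}
    (hv : ContinuousOn v (segment ℝ a b)) {u : ℂ}
    (h : ∀ x ∈ segment ℝ a b, u * v x ∈ slitPlane) :
    inc (fun x => (arg (v x) : Angle)) a b = arg (u * v b) - arg (u * v a) := by
  have hl : Lifts (fun x => arg (u * v x) - arg u) (fun x => (arg (v x) : Angle))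
      (segment ℝ a b) := by
    refine ⟨ContinuousOn.sub (fun x hx => ?_) continuousOn_const, fun x hx => ?_⟩
    · exact (continuousAt_arg (h x hx)).comp_continuousWithinAt (f := fun x => u * v x)
        (continuousOn_const.mul hv x hx)
    · have := mul_ne_zero_iff.1 (slitPlane_ne_zero (h x hx))
      rw [Angle.coe_sub, arg_mul_coe_angle this.1 this.2]
      abel
  rw [inc_eq hl]
  ring

noncomputable def poly (P : ℕ → ℂ) (x : ℝ) : ℂ :=
  ((1 - Int.fract x : ℝ) : ℂ) * P ⌊x⌋₊ + (Int.fract x : ℝ) * P (⌊x⌋₊ + 1)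

theorem poly_nat (P : ℕ → ℂ) (j : ℕ) : poly P j = P j := by simp [poly]

theorem poly_cont (P : ℕ → ℂ) (M : ℕ) : ContinuousOn (poly P) (Icc 0 M) := by
  induction M with
  | zero => simp
  | succ M ih =>
    rw [← Icc_union_Icc_eq_Icc (b := (M : ℝ)) (by positivity) (by simp)]
    refine ih.union_of_isClosed (ContinuousOn.congr (f := fun x : ℝ =>
      ((1 - (x - M) : ℝ) : ℂ) * P M + (x - M : ℝ) * P (M + 1)) (by fun_prop) fun x hx => ?_)
      isClosed_Icc isClosed_Icc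
    rcases hx.2.eq_or_lt with h | h
    · rw [h, poly_nat]; simp
    · have h1 : ⌊x⌋₊ = M := (Nat.floor_eq_iff (le_trans (by positivity) hx.1)).2
        ⟨hx.1, by simpa using h⟩
      have h2 : Int.fract x = x - M := by
        rw [Int.fract, ← natCast_floor_eq_intCast_floor (le_trans (by positivity) hx.1), h1]
      rw [poly, h1, h2]

theorem chord_pos (P : ℕ → ℂ) {n : ℕ} (hn : 0 < n) {W : ℝ} (hW : 0 < W)
    (hP : ∀ j, P (j + n) = P j + W) (δ : ℝ) :
    ∃ j j' : ℕ, ∃ s ∈ Ico (0 : ℝ) 1, ∃ s' ∈ Ico (0 : ℝ) 1,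
      ((1 - s' : ℝ) : ℂ) * P j' + s' * P (j' + 1) = ((1 - s : ℝ) : ℂ) * P j + s * P (j + 1) + δ := by
  by_contra hcon
  push Not at hcon
  have hm : ∀ m j, P (j + m * n) = P j + m * W := fun m j => by
    induction m with
    | zero => simp
    | succ m ih => rw [Nat.succ_mul, ← add_assoc, hP, ih]; push_cast; ring
  have him : ∀ j, (P j).im = (P (j % n)).im := fun j => by
    conv_lhs => rw [← Nat.mod_add_div' j n, hm]
    simp
  obtain ⟨a, ha, ha'⟩ := (Finset.range n).exists_max_image (fun j => (P j).im) ⟨0, by simpa⟩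
  obtain ⟨b, hb, hb'⟩ := (Finset.range n).exists_min_image (fun j => (P j).im) ⟨0, by simpa⟩
  have hab : ∀ j, (P b).im ≤ (P j).im ∧ (P j).im ≤ (P a).im := fun j => by
    rw [him j]
    exact ⟨hb' _ (by simpa using Nat.mod_lt _ hn), ha' _ (by simpa using Nat.mod_lt _ hn)⟩
  have hpi : ∀ x, (P b).im ≤ (poly P x).im ∧ (poly P x).im ≤ (P a).im := fun x => by
    have h1 := Int.fract_nonneg x
    have h2 := Int.fract_lt_one x
    simp only [poly, add_im, im_ofReal_mul]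
    constructor <;> nlinarith [hab ⌊x⌋₊, hab (⌊x⌋₊ + 1)]
  obtain ⟨B, hB⟩ := isCompact_Icc.exists_bound_of_continuousOn (poly_cont P n)
  obtain ⟨m, hmB⟩ := exists_nat_gt ((2 * B + |δ|) / W)
  rw [div_lt_iff₀ hW] at hmB
  let M := (2 * m + 1) * n
  let v : ℝ × ℝ → ℂ := fun p => poly P p.2 - poly P p.1 - (δ + m * W)
  have hv : ContinuousOn v (Icc (0 : ℝ) n ×ˢ Icc (0 : ℝ) M) :=
    (((poly_cont P M).comp continuousOn_snd fun p hp => hp.2).sub
      ((poly_cont P n).comp continuousOn_fst fun p hp => hp.1)).sub continuousOn_const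
  have hv0 : ∀ p, v p ≠ 0 := fun p h => by
    refine hcon (⌊p.1⌋₊ + m * n) ⌊p.2⌋₊ _ ⟨Int.fract_nonneg p.1, Int.fract_lt_one _⟩ _
      ⟨Int.fract_nonneg p.2, Int.fract_lt_one _⟩ ?_
    rw [Nat.add_right_comm, hm, hm]
    simp only [v, poly] at h
    push_cast at h ⊢
    linear_combination h
  have hS : Convex ℝ (Icc (0 : ℝ) n ×ˢ Icc (0 : ℝ) M) := (convex_Icc _ _).prod (convex_Icc _ _)
  have hF : ContinuousOn (fun p => (arg (v p) : Angle)) (Icc (0 : ℝ) n ×ˢ Icc (0 : ℝ) M) :=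
    fun p hp => (continuousAt_arg_coe_angle (hv0 p)).comp_continuousWithinAt (hv p hp)
  obtain ⟨G, hG⟩ := exists_lift' hS hF
  have ia : (a : ℝ) ∈ Icc (0 : ℝ) n := ⟨by positivity, by exact_mod_cast (Finset.mem_range.1 ha).le⟩
  have ib : (b : ℝ) ∈ Icc (0 : ℝ) n := ⟨by positivity, by exact_mod_cast (Finset.mem_range.1 hb).le⟩
  have i0 : (0 : ℝ) ∈ Icc (0 : ℝ) M := ⟨le_rfl, by positivity⟩
  have iM : (M : ℝ) ∈ Icc (0 : ℝ) M := ⟨by positivity, le_rfl⟩
  have key : ∀ (p q : ℝ × ℝ) (u : ℂ), p ∈ Icc (0 : ℝ) n ×ˢ Icc (0 : ℝ) M →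
      q ∈ Icc (0 : ℝ) n ×ˢ Icc (0 : ℝ) M → u ≠ 0 → (∀ x ∈ segment ℝ p q, 0 ≤ (u * v x).re) →
      G q - G p = arg (u * v q) - arg (u * v p) := fun p q u hp hq hu h => by
    rw [← inc_eq (hG.mono (hS.segment_subset hp hq)),
      inc_arg (hv.mono (hS.segment_subset hp hq)) fun x hx => ?_]
    rcases (h x hx).eq_or_lt with h1 | h1
    · exact Or.inr fun h2 => mul_ne_zero hu (hv0 x) (Complex.ext h1.symm h2)
    · exact Or.inl h1
  have h00 := (abs_re_le_norm _).trans (hB 0 ⟨le_rfl, by positivity⟩)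
  have hre : ∀ x ∈ Icc (0 : ℝ) n, 0 < (v (x, M)).re ∧ (v (x, 0)).re < 0 := fun x hx => by
    have h1 := (abs_re_le_norm _).trans (hB x hx)
    have h2 := hm (2 * m + 1) 0
    have h3 := poly_nat P 0
    rw [zero_add] at h2
    rw [Nat.cast_zero] at h3
    rw [h3] at h00
    simp only [v, poly_nat, M, h2, h3, sub_re, add_re, ofReal_re, mul_re, natCast_re, natCast_im,
      ofReal_im, mul_zero, sub_zero]
    rw [abs_le] at h1 h00
    push_cast
    constructor <;> nlinarith [le_abs_self δ, neg_abs_le δ]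
  have hva : ∀ y, (v (a, y)).im ≤ 0 := fun y => by simpa [v, poly_nat] using (hpi y).2
  have hvb : ∀ y, 0 ≤ (v (b, y)).im := fun y => by simpa [v, poly_nat] using (hpi y).1
  have s1 : ∀ {x y z : ℝ} {p : ℝ × ℝ}, p ∈ segment ℝ (x, y) (x, z) → p = (x, p.2) := by
    rintro x y z _ ⟨s, t, -, -, h, rfl⟩
    simp [← add_mul, h]
  have s2 : ∀ {x y z : ℝ} {p : ℝ × ℝ}, p ∈ segment ℝ (y, x) (z, x) → p = (p.1, x) := by
    rintro x y z _ ⟨s, t, -, -, h, rfl⟩
    simp [← add_mul, h]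
  have e1 := key (a, 0) (a, M) I ⟨ia, i0⟩ ⟨ia, iM⟩ I_ne_zero fun x hx => by
    rw [s1 hx]; simpa using hva _
  have e2 := key (a, M) (b, M) 1 ⟨ia, iM⟩ ⟨ib, iM⟩ one_ne_zero fun x hx => by
    rw [s2 hx]; simpa using (hre _ (hS.segment_subset ⟨ia, iM⟩ ⟨ib, iM⟩ hx).1).1.le
  have e3 := key (b, M) (b, 0) (-I) ⟨ib, iM⟩ ⟨ib, i0⟩ (by simp) fun x hx => by
    rw [s1 hx]; simpa using hvb _
  have e4 := key (b, 0) (a, 0) (-1) ⟨ib, i0⟩ ⟨ia, i0⟩ (by simp) fun x hx => by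
    rw [s2 hx]; simpa using (hre _ (hS.segment_subset ⟨ib, i0⟩ ⟨ia, i0⟩ hx).1).2.le
  have f1 : 0 ≤ arg (I * v (a, M)) := arg_nonneg_iff.2 (by simpa using (hre _ ia).1.le)
  have f2 : arg (I * v (a, 0)) < 0 := arg_neg_iff.2 (by simpa using (hre _ ia).2)
  have f3 : 0 ≤ arg (1 * v (b, M)) := arg_nonneg_iff.2 (by simpa using hvb _)
  have f5 : 0 ≤ arg (-I * v (b, 0)) := arg_nonneg_iff.2 (by simpa using (hre _ ib).2.le)
  have f6 : arg (-I * v (b, M)) < 0 := arg_neg_iff.2 (by simpa using (hre _ ib).1)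
  have f7 : 0 ≤ arg (-1 * v (a, 0)) := arg_nonneg_iff.2 (by simpa using hva _)
  have np : ∀ z : ℂ, 0 < z.re → z.im ≤ 0 → arg z ≤ 0 := fun z h1 h2 => by
    rcases h2.eq_or_lt with h | h
    · exact (arg_eq_zero_iff.2 ⟨h1.le, h⟩).le
    · exact (arg_neg_iff.2 h).le
  have f4 := np (1 * v (a, M)) (by simpa using (hre _ ia).1) (by simpa using hva _)
  have f8 := np (-1 * v (b, 0)) (by simpa using (hre _ ib).2) (by simpa using hvb _)
  linarith

/-- A periodic polygon with nonzero horizontal drift has horizontal chords of every length. -/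
theorem chord (P : ℕ → ℂ) {n : ℕ} (hn : 0 < n) {W : ℝ} (hW : W ≠ 0)
    (hP : ∀ j, P (j + n) = P j + W) (δ : ℝ) :
    ∃ j j' : ℕ, ∃ s ∈ Ico (0 : ℝ) 1, ∃ s' ∈ Ico (0 : ℝ) 1,
      ((1 - s' : ℝ) : ℂ) * P j' + s' * P (j' + 1) = ((1 - s : ℝ) : ℂ) * P j + s * P (j + 1) + δ := by
  rcases lt_or_gt_of_ne hW with h | h
  · obtain ⟨j, j', s, hs, s', hs', e⟩ := chord_pos (fun j => -P j) hn (W := -W) (by linarith)
      (fun j => by rw [hP]; push_cast; ring) (-δ)
    refine ⟨j, j', s, hs, s', hs', ?_⟩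
    push_cast at e ⊢
    linear_combination -e
  · exact chord_pos P hn h hP δ

end Pool.Agent.Lib.Z78
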