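import Mathlib

open Finset Function

namespace Pool.Agent.Lib.Z78

variable {D : Type} [Fintype D] {ψ : D → D}

def Orb (ψ : D → D) (d e : D) : Prop := ∃ j, ψ^[j] d = e

open Classical in
noncomputable def Z (ψ : D → D) (k : D → ℤ) (d : D) : ℤ := ∑ e with Orb ψ d e, k e

def walk (ψ : D → D) (k : D → ℤ) (d : D) (j : ℕ) : ℤ := ∑ i ∈ range j, k (ψ^[i] d)

omit [Fintype D] in
theorem Orb.refl (d : D) : Orb ψ d d := ⟨0, rfl⟩

omit [Fintype D] in
theorem Orb.trans {d e f : D} (h : Orb ψ d e) (h' : Orb ψ e f) : Orb ψ d f := by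
  obtain ⟨i, rfl⟩ := h
  obtain ⟨j, rfl⟩ := h'
  exact ⟨j + i, iterate_add_apply _ _ _ _⟩

theorem Orb.symm (hi : Injective ψ) {d e : D} (h : Orb ψ d e) : Orb ψ e d := by
  obtain ⟨i, rfl⟩ := h
  obtain ⟨n, hn, hd⟩ := hi.mem_periodicPts d
  refine ⟨(n - 1) * i, ?_⟩
  rw [← iterate_add_apply, show (n - 1) * i + i = n * i by
    obtain ⟨m, rfl⟩ := Nat.exists_eq_succ_of_ne_zero hn.ne'; simp [Nat.succ_mul]]
  exact hd.mul_const i

omit [Fintype D] in
theorem walk_add (k : D → ℤ) (d : D) (i j : ℕ) :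
    walk ψ k d (i + j) = walk ψ k d i + walk ψ k (ψ^[i] d) j := by
  simp only [walk, sum_range_add, ← iterate_add_apply, add_comm]

theorem Z_congr (hi : Injective ψ) (k : D → ℤ) {d e : D} (h : Orb ψ d e) : Z ψ k d = Z ψ k e := by
  classical
  refine sum_congr ?_ fun _ _ => rfl
  ext f
  simp only [mem_filter, mem_univ, true_and]
  exact ⟨(h.symm hi).trans, h.trans⟩

theorem walk_period (hi : Injective ψ) (k : D → ℤ) (d : D) :
    walk ψ k d (minimalPeriod ψ d) = Z ψ k d := by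
  classical
  refine sum_bij (fun i _ => ψ^[i] d) (fun i _ => by simpa using ⟨i, rfl⟩)
    (fun i h j h' e => iterate_injOn_Iio_minimalPeriod (mem_range.1 h) (mem_range.1 h') e)
    (fun e he => ?_) fun _ _ => rfl
  obtain ⟨j, rfl⟩ := (mem_filter.1 he).2
  exact ⟨j % minimalPeriod ψ d, mem_range.2 (Nat.mod_lt _
    (minimalPeriod_pos_of_mem_periodicPts (hi.mem_periodicPts d))),
    iterate_mod_minimalPeriod_eq⟩

theorem Z_dvd (hi : Injective ψ) (k : D → ℤ) {d : D} {j : ℕ} (h : ψ^[j] d = d) :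
    Z ψ k d ∣ walk ψ k d j := by
  obtain ⟨m, rfl⟩ := (show IsPeriodicPt ψ j d from h).minimalPeriod_dvd
  clear h
  induction m with
  | zero => simp [walk]
  | succ m ih =>
    rw [Nat.mul_succ, walk_add, ((isPeriodicPt_minimalPeriod ψ d).mul_const m).eq, walk_period hi]
    exact ih.add dvd_rfl

theorem Z_dvd' (hi : Injective ψ) (k : D → ℤ) {d : D} {i j : ℕ} (h : ψ^[i] d = ψ^[j] d) :
    Z ψ k d ∣ walk ψ k d j - walk ψ k d i := by
  wlog hij : i ≤ j generalizing i j
  · rw [← dvd_neg, neg_sub]; exact this h.symm (le_of_not_ge hij)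
  obtain ⟨m, rfl⟩ := Nat.exists_eq_add_of_le hij
  rw [walk_add, add_sub_cancel_left, Z_congr hi k ⟨i, rfl⟩]
  exact Z_dvd hi k (by rw [← iterate_add_apply, add_comm, ← h])

theorem Z_cob (hi : Injective ψ) {k k' h : D → ℤ} (e : ∀ d, k' d = k d + h (ψ d) - h d) (d : D) :
    Z ψ k' d = Z ψ k d := by
  have : ∀ j, walk ψ k' d j = walk ψ k d j + h (ψ^[j] d) - h d := fun j => by
    induction j with
    | zero => simp [walk]
    | succ j ih =>
      simp only [walk, sum_range_succ] at ih ⊢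
      rw [ih, e, iterate_succ_apply']; ring
  rw [← walk_period hi, ← walk_period hi, this, (isPeriodicPt_minimalPeriod ψ d).eq]
  ring

open Classical in
theorem sum_inv (hi : Injective ψ) (k : D → ℤ) (B : D → Prop) (d : D)
    (h1 : ∀ e f, B e → Orb ψ e f → B f) (hd : B d)
    (h2 : ∀ e, B e → ¬Orb ψ d e → Z ψ k e = 0) : ∑ e, (if B e then k e else 0) = Z ψ k d := by
  let o : D → Finset D := fun e => univ.filter (Orb ψ e)
  have ho : ∀ e f, o f = o e ↔ Orb ψ e f := fun e f =>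
    ⟨fun h => (mem_filter.1 (h ▸ (mem_filter.2 ⟨mem_univ f, Orb.refl f⟩ : f ∈ o f) : f ∈ o e)).2,
      fun h => filter_congr fun _ _ => ⟨h.trans, (h.symm hi).trans⟩⟩
  have key : ∀ e, B e → ∑ f with o f = o e, (if B f then k f else 0) = Z ψ k e := fun e he =>
    sum_congr (filter_congr fun f _ => ho e f) fun f hf => if_pos (h1 e f he (mem_filter.1 hf).2)
  rw [← sum_fiberwise univ o, sum_eq_single (o d) (fun s _ hs => ?_) (by simp), key d hd]
  by_cases h : ∃ e, B e ∧ o e = s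
  · obtain ⟨e, he, rfl⟩ := h
    rw [key e he, h2 e he fun h => hs ((ho _ _).2 h)]
  · exact sum_eq_zero fun f hf => if_neg fun hB => h ⟨f, hB, (mem_filter.1 hf).2⟩

theorem exists_pot (hi : Injective ψ) {k I : D → ℤ} (hZ : ∀ d, Z ψ k d = 0)
    (hI : ∀ d, 3 ∣ I d + k d - I (ψ d)) :
    ∃ S : D → ℤ, (∀ d, S (ψ d) = S d + k d) ∧ ∀ d, 3 ∣ S d - I d := by
  rcases isEmpty_or_nonempty D with h | h
  · exact ⟨I, fun d => h.elim d, fun d => h.elim d⟩
  let r : D → D := fun d => Classical.epsilon (Orb ψ d)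
  have hr : ∀ d, Orb ψ (r d) d := fun d => (Classical.epsilon_spec ⟨d, Orb.refl d⟩).symm hi
  have hr' : ∀ d, r (ψ d) = r d := fun d => congrArg Classical.epsilon (funext fun e => propext
    ⟨Orb.trans ⟨1, rfl⟩, (Orb.symm hi ⟨1, rfl⟩).trans⟩)
  choose j hj using hr
  refine ⟨fun d => I (r d) + walk ψ k (r d) (j d), fun d => ?_, fun d => ?_⟩
  · have := Z_dvd' hi k (d := r d) (i := j (ψ d)) (j := j d + 1)
      (by rw [iterate_succ_apply', hj, ← hr', hj])
    rw [hZ, zero_dvd_iff, walk_add, hj] at this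
    simp only [walk, range_one, sum_singleton, iterate_zero, id] at this
    simp only [hr', walk]
    linarith
  · have : ∀ e m, 3 ∣ I e + walk ψ k e m - I (ψ^[m] e) := fun e m => by
      induction m with
      | zero => simp [walk]
      | succ m ih =>
        have := hI (ψ^[m] e)
        simp only [walk, sum_range_succ, iterate_succ_apply'] at ih ⊢
        omega
    simpa [hj] using this (r d) (j d)

end Pool.Agent.Lib.Z78
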