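import Pool.Agent.Lib.Z78.Surf
import Pool.Agent.Lib.Z78.Orb

open Finset Function

namespace Pool.Agent.Lib.Z78

variable {E : Type} [NormedAddCommGroup E] [NormedSpace ℝ E] {K : Set E} {R : E → E → E → Prop}

theorem Surf.rot_sum (S : Surf K R) (h : E × E × E → ℤ) :
    ∑ t ∈ S.fin.toFinset, h t = ∑ t ∈ S.fin.toFinset, h (t.2.1, t.2.2, t.1) :=
  sum_nbij' (fun t => (t.2.2, t.1, t.2.1)) (fun t => (t.2.1, t.2.2, t.1))
    (fun t ht => by simpa using S.rot (S.rot (by simpa using ht)))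
    (fun t ht => by simpa using S.rot (by simpa using ht)) (fun _ _ => rfl) (fun _ _ => rfl)
    fun _ _ => rfl

open Classical in
theorem Surf.stokes (S : Surf K R) {κ : E → E → ℤ} (ha : ∀ a b, κ b a = -κ a b) (P : E → Prop)
    {q : ℤ} (hq : ∀ a b c, R a b c → P a → P b → P c → q ∣ κ a b + κ b c + κ c a) :
    q ∣ ∑ t ∈ S.fin.toFinset, if P t.1 ∧ P t.2.1 ∧ ¬P t.2.2 then κ t.1 t.2.1 else 0 := by
  have hm : ∀ t, t ∈ S.fin.toFinset ↔ R t.1 t.2.1 t.2.2 := fun t => by simp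
  have h1 : ∑ t ∈ S.fin.toFinset, (if P t.1 ∧ P t.2.1 then κ t.1 t.2.1 else 0) = 0 := by
    refine sum_involution (fun t ht => (t.2.1, t.1, (S.opp ((hm t).1 ht)).choose))
      (fun t ht => ?_) (fun t ht _ e => S.nd ((hm t).1 ht) (congrArg Prod.fst e).symm)
      (fun t ht => (hm _).2 (S.opp ((hm t).1 ht)).choose_spec) fun t ht => ?_
    · simp only [and_comm (a := P t.2.1), ha t.1 t.2.1]
      split_ifs <;> simp
    · exact Prod.ext rfl (Prod.ext rfl (S.uniq (Exists.choose_spec _) ((hm t).1 ht)))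
  let _ : LinearOrder E := linearOrderOfSTO WellOrderingRel
  let φ : E × E × E → ℤ := fun t => if P t.1 ∧ P t.2.1 ∧ P t.2.2 then κ t.1 t.2.1 else 0
  let m : E × E × E → ℤ := fun t => if t.1 < t.2.1 ∧ t.1 < t.2.2 then 1 else 0
  have h2 : ∑ t ∈ S.fin.toFinset, φ t = ∑ t ∈ S.fin.toFinset,
      m t * (φ t + φ (t.2.1, t.2.2, t.1) + φ (t.2.2, t.1, t.2.1)) := by
    simp only [mul_add, sum_add_distrib]
    rw [S.rot_sum fun t => m t * φ (t.2.2, t.1, t.2.1),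
      S.rot_sum fun t => m t * φ (t.2.1, t.2.2, t.1),
      S.rot_sum fun t => m (t.2.1, t.2.2, t.1) * φ (t.2.2, t.1, t.2.1), ← sum_add_distrib,
      ← sum_add_distrib]
    refine sum_congr rfl fun t ht => ?_
    have r := (hm t).1 ht
    have n1 := S.nd r
    have n2 := S.nd (S.rot r)
    have n3 := S.nd (S.rot (S.rot r))
    have : m t + m (t.2.2, t.1, t.2.1) + m (t.2.1, t.2.2, t.1) = 1 := by
      simp only [m]
      split_ifs <;> grind
    linear_combination (-φ t) * this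
  have h3 : q ∣ ∑ t ∈ S.fin.toFinset, φ t := by
    rw [h2]
    refine dvd_sum fun t ht => Dvd.dvd.mul_left ?_ _
    by_cases h : P t.1 ∧ P t.2.1 ∧ P t.2.2
    · simpa [φ, h] using hq _ _ _ ((hm t).1 ht) h.1 h.2.1 h.2.2
    · simp only [φ]
      rw [if_neg h, if_neg (by tauto), if_neg (by tauto)]
      simp
  rw [← dvd_add_right h3, ← sum_add_distrib, ← sum_congr rfl, h1]
  · simp
  · intro t _
    simp only [φ]
    grind

abbrev Dt (R : E → E → E → Prop) (n : E → Prop) :=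
  {t : E × E × E // R t.1 t.2.1 t.2.2 ∧ n t.1 ∧ ¬n t.2.1}

variable {n : E → Prop}

def Nx (d e : Dt R n) : Prop := (n d.1.2.2 ∧ e.1.1 = d.1.2.2 ∧ e.1.2.1 = d.1.2.1) ∨
  (¬n d.1.2.2 ∧ e.1.1 = d.1.1 ∧ e.1.2.1 = d.1.2.2)

theorem Surf.dext (S : Surf K R) {d e : Dt R n} (h1 : d.1.1 = e.1.1) (h2 : d.1.2.1 = e.1.2.1) :
    d = e := Subtype.ext (Prod.ext h1 (Prod.ext h2 (S.uniq d.2.1 (h1 ▸ h2 ▸ e.2.1))))

theorem Surf.next (S : Surf K R) (n : E → Prop) :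
    ∃ ψ : Dt R n → Dt R n, Injective ψ ∧ ∀ d, Nx d (ψ d) := by
  have : ∀ d : Dt R n, ∃ e, Nx d e := fun d => by
    by_cases h : n d.1.2.2
    · obtain ⟨z, hz⟩ := S.opp (S.rot d.2.1)
      exact ⟨⟨(_, _, z), hz, h, d.2.2.2⟩, Or.inl ⟨h, rfl, rfl⟩⟩
    · obtain ⟨z, hz⟩ := S.opp (S.rot (S.rot d.2.1))
      exact ⟨⟨(_, _, z), hz, d.2.2.1, h⟩, Or.inr ⟨h, rfl, rfl⟩⟩
  choose ψ hψ using this
  refine ⟨ψ, fun d e h => ?_, hψ⟩
  have h1 := hψ d
  have h2 := h ▸ hψ e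
  obtain ⟨⟨u, v, w⟩, r, a, b⟩ := d
  obtain ⟨⟨u', v', w'⟩, r', a', b'⟩ := e
  have := @S.uniq
  have := S.rot r
  have := S.rot this
  have := S.rot r'
  have := S.rot this
  refine S.dext ?_ ?_ <;> grind [Nx]

variable {ψ : Dt R n → Dt R n}

def On (ψ : Dt R n → Dt R n) (d : Dt R n) (a b : E) : Prop :=
  ∃ e, Orb ψ d e ∧ e.1.1 = a ∧ e.1.2.1 = b

def Side (ψ : Dt R n → Dt R n) (d : Dt R n) (A : Set E) : Prop :=
  (∀ a b c, R a b c → ¬On ψ d a b → ¬On ψ d b a → (a ∈ A ↔ b ∈ A)) ∧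
    ((∀ a b, On ψ d a b → a ∈ A ∧ b ∉ A) ∨ ∀ a b, On ψ d a b → a ∉ A ∧ b ∈ A)

omit [NormedAddCommGroup E] [NormedSpace ℝ E] in
theorem On.sgn {d : Dt R n} {a b : E} (h : On ψ d a b) : n a ∧ ¬n b := by
  obtain ⟨e, -, rfl, rfl⟩ := h
  exact e.2.2

omit [NormedAddCommGroup E] [NormedSpace ℝ E] in
theorem Side.compl {d : Dt R n} {A : Set E} (h : Side ψ d A) : Side ψ d Aᶜ :=
  ⟨fun a b c r i j => not_congr (h.1 a b c r i j), h.2.symm.imp
    (fun h a b o => by simpa using h a b o) fun h a b o => by simpa using h a b o⟩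

theorem Surf.on_iff (S : Surf K R) {d e : Dt R n} : On ψ d e.1.1 e.1.2.1 ↔ Orb ψ d e :=
  ⟨fun ⟨_, h, i, j⟩ => S.dext i j ▸ h, fun h => ⟨e, h, rfl, rfl⟩⟩

variable [Fintype (Dt R n)]

theorem Surf.side (S : Surf K R) (hi : Injective ψ) (hψ : ∀ d, Nx d (ψ d)) (d : Dt R n) :
    ∃ A, Side ψ d A := by
  classical
  let k : E → E → ℤ := fun a b => (if On ψ d a b then 1 else 0) - if On ψ d b a then 1 else 0
  have key : ∀ a b c, R a b c → n a → ¬n b → k a b + k b c + k c a = 0 := fun a b c r i j => by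
    have h1 := S.on_iff (ψ := ψ) (d := d) (e := ⟨(a, b, c), r, i, j⟩)
    have h2 := S.on_iff (ψ := ψ) (d := d) (e := ψ ⟨(a, b, c), r, i, j⟩)
    have h3 : Orb ψ d (ψ ⟨(a, b, c), r, i, j⟩) ↔ Orb ψ d ⟨(a, b, c), r, i, j⟩ :=
      ⟨fun h => h.trans (Orb.symm hi ⟨1, rfl⟩), fun h => h.trans ⟨1, rfl⟩⟩
    have h4 := hψ ⟨(a, b, c), r, i, j⟩
    have := fun a b => On.sgn (ψ := ψ) (d := d) (a := a) (b := b)
    rcases h4 with ⟨l, e1, e2⟩ | ⟨l, e1, e2⟩ <;> rw [e1, e2, h3, ← h1] at h2 <;> grind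
  obtain ⟨g, hg⟩ := S.h1 k (fun a b => by simp [k]) fun a b c r => by
    have := key _ _ _ r
    have := key _ _ _ (S.rot r)
    have := key _ _ _ (S.rot (S.rot r))
    have := fun a b => On.sgn (ψ := ψ) (d := d) (a := a) (b := b)
    by_cases n a <;> by_cases n b <;> by_cases n c <;> grind
  have h1 : ∀ e, Orb ψ d e → g e.1.2.1 = g e.1.1 + 1 := fun e he => by
    have := hg _ _ _ e.2.1
    have h2 : ¬On ψ d e.1.2.1 e.1.1 := fun h => e.2.2.2 h.sgn.1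
    simp only [k, S.on_iff.2 he, h2] at this
    simp at this
    omega
  have h2 : ∀ j, g (ψ^[j] d).1.1 = g d.1.1 := fun j => by
    induction j with
    | zero => rfl
    | succ j ih =>
      have a := h1 _ ⟨j, rfl⟩
      have b := h1 _ ⟨j + 1, rfl⟩
      rw [iterate_succ_apply'] at b ⊢
      rcases hψ (ψ^[j] d) with ⟨-, -, e⟩ | ⟨-, e, -⟩ <;> grind
  refine ⟨{y | g y ≤ g d.1.1}, fun a b c r i j => ?_, Or.inl ?_⟩
  · have := hg _ _ _ r
    simp only [k, i, j] at this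
    simp only [Set.mem_ofPred_eq]
    simp at this
    omega
  · rintro _ _ ⟨_, ⟨j, rfl⟩, rfl, rfl⟩
    have := h1 _ ⟨j, rfl⟩
    have := h2 j
    simp only [Set.mem_ofPred_eq]
    omega

theorem Surf.const (S : Surf K R) (hi : Injective ψ) (hψ : ∀ d, Nx d (ψ d)) {d e : Dt R n}
    {A : Set E} (hA : Side ψ d A) (he : ¬Orb ψ d e) {a b : E} (h : On ψ e a b) :
    (a ∈ A ↔ e.1.1 ∈ A) ∧ (b ∈ A ↔ e.1.1 ∈ A) := by
  have h1 : ∀ f, Orb ψ e f → (f.1.1 ∈ A ↔ f.1.2.1 ∈ A) := fun f hf =>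
    hA.1 _ _ _ f.2.1 (fun h => he ((S.on_iff.1 h).trans (hf.symm hi))) fun h => f.2.2.2 h.sgn.1
  obtain ⟨_, ⟨j, rfl⟩, rfl, rfl⟩ := h
  rw [← h1 _ ⟨j, rfl⟩, and_self]
  induction j with
  | zero => rfl
  | succ j ih =>
    have a := h1 _ ⟨j, rfl⟩
    have b := h1 _ ⟨j + 1, rfl⟩
    rw [iterate_succ_apply'] at b ⊢
    rcases hψ (ψ^[j] e) with ⟨-, -, e⟩ | ⟨-, e, -⟩ <;> grind

open Classical in
theorem Surf.sum_dt (S : Surf K R) (h : E × E × E → ℤ) : ∑ d : Dt R n, h d.1 =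
    ∑ t ∈ S.fin.toFinset, if n t.1 ∧ ¬n t.2.1 then h t else 0 := by
  rw [← sum_filter]
  exact (sum_subtype _ (fun t => by simp) h).symm

/-- All level curves have winding zero. -/
theorem Surf.zero (S : Surf K R) (hi : Injective ψ) (hψ : ∀ d, Nx d (ψ d)) {κ : E → E → ℤ}
    (ha : ∀ a b, κ b a = -κ a b)
    (hn : ∀ a b c, R a b c → n a → n b → n c → 2 ∣ κ a b + κ b c + κ c a)
    (hp : ∀ a b c, R a b c → ¬n a → ¬n b → ¬n c → 9 ∣ κ a b + κ b c + κ c a)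
    (hm : ∀ a b c, R a b c → n a → ¬n b → κ a b + κ b c + κ c a = 0)
    (h3 : ∀ d, Z ψ (fun d => κ d.1.1 (ψ d).1.1) d ≠ 0 → Z ψ (fun d => κ d.1.1 (ψ d).1.1) d ∣ 3)
    (d : Dt R n) : Z ψ (fun d => κ d.1.1 (ψ d).1.1) d = 0 := by
  classical
  set k : Dt R n → ℤ := fun d => κ d.1.1 (ψ d).1.1 with hk
  let k' : Dt R n → ℤ := fun d => κ d.1.2.1 (ψ d).1.2.1
  have h0 : ∀ a, κ a a = 0 := fun a => by have := ha a a; omega
  have hkk : ∀ d, Z ψ k' d = Z ψ k d := Z_cob hi (h := fun d => κ d.1.1 d.1.2.1) fun d => by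
    have := hm _ _ _ d.2.1 d.2.2.1 d.2.2.2
    have := ha d.1.2.1 d.1.2.2
    have := ha d.1.1 d.1.2.2
    rcases hψ d with ⟨-, e1, e2⟩ | ⟨-, e1, e2⟩ <;> simp only [k, k', e1, e2, h0] <;> omega
  let Vt : Set E := {a | ∃ b c, R a b c}
  have hV : Vt.Finite := (S.fin.image Prod.fst).subset fun a ⟨b, c, r⟩ => ⟨(a, b, c), r, rfl⟩
  suffices H : ∀ m d A, (A ∩ Vt).ncard = m → Side ψ d A → Z ψ k d = 0 from
    (S.side hi hψ d).elim fun A hA => H _ d A rfl hA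
  intro m
  induction m using Nat.strong_induction_on with
  | _ m ih =>
  intro d A hm' hA
  have inner : ∀ e : Dt R n, e.1.1 ∈ A → ¬Orb ψ d e → Z ψ k e = 0 := fun e heA he => by
    obtain ⟨A', hA', hd⟩ : ∃ A', Side ψ e A' ∧ d.1.1 ∉ A' := by
      obtain ⟨A', hA'⟩ := S.side hi hψ e
      by_cases h : d.1.1 ∈ A'
      · exact ⟨_, hA'.compl, fun h' => h' h⟩
      · exact ⟨_, hA', h⟩
    have c1 : ∀ a b, On ψ d a b → a ∉ A' ∧ b ∉ A' := fun a b h => by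
      have := S.const hi hψ hA' (fun h => he (h.symm hi)) h
      tauto
    have c2 : ∀ a b, On ψ e a b → a ∈ A ∧ b ∈ A := fun a b h => by
      have := S.const hi hψ hA he h
      tauto
    obtain ⟨μ, hμ⟩ := S.h0 (fun y => if y ∈ A' ∧ y ∉ A then 1 else 0) fun a b c r => by
      have := hA.1 a b c r
      have := hA'.1 a b c r
      have := c1 a b
      have := c1 b a
      have := c2 a b
      have := c2 b a
      grind
    have h1 := hμ _ _ _ d.2.1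
    have o := S.on_iff.2 (Orb.refl (ψ := ψ) d)
    refine ih _ (hm' ▸ Set.ncard_lt_ncard ⟨fun a ⟨h, b, c, r⟩ => ⟨?_, b, c, r⟩, fun h => ?_⟩
      (hV.inter_of_right A)) e A' rfl hA'
    · have := hμ _ _ _ r
      grind
    · rcases hA.2 with h2 | h2
      · exact hd (h ⟨(h2 _ _ o).1, _, _, d.2.1⟩).1
      · exact (c1 _ _ o).2 (h ⟨(h2 _ _ o).2, _, _, S.rot d.2.1⟩).1
  have same : ∀ a b c, R a b c → (n a ↔ n b) → (a ∈ A ↔ b ∈ A) := fun a b c r h =>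
    hA.1 a b c r (fun o => by have := o.sgn; tauto) fun o => by have := o.sgn; tauto
  have o := S.on_iff.2 (Orb.refl (ψ := ψ) d)
  by_contra hne
  have h4 := h3 d hne
  rcases hA.2 with h2 | h2
  · have e1 := sum_inv hi k (fun e => e.1.1 ∈ A) d (fun e f he hf => by
      by_cases h : Orb ψ d e
      · exact (h2 _ _ (S.on_iff.2 (h.trans hf))).1
      · exact (S.const hi hψ hA h (S.on_iff.2 hf)).1.2 he) (h2 _ _ o).1 inner
    have e2 := S.stokes ha (fun y => y ∈ A ∧ n y) fun a b c r i j l => hn a b c r i.2 j.2 l.2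
    rw [S.rot_sum, S.rot_sum, ← dvd_neg, ← sum_neg_distrib] at e2
    refine absurd (e2.trans (Eq.dvd ?_ |>.trans h4)) (by decide)
    rw [← e1]
    refine Eq.trans (sum_congr rfl fun t ht => ?_) ((S.sum_dt fun t => if t.1 ∈ A ∧ n t.2.2 then
      κ t.1 t.2.2 else 0).symm.trans (sum_congr rfl fun e _ => by
        rcases hψ e with ⟨l, e1, -⟩ | ⟨l, e1, -⟩ <;> simp [k, e1, l, h0]))
    · have r : R t.1 t.2.1 t.2.2 := by simpa using ht
      have := same _ _ _ r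
      have := same _ _ _ (S.rot (S.rot r))
      have := ha t.1 t.2.2
      grind
  · have e1 := sum_inv hi k' (fun e => e.1.2.1 ∈ A) d (fun e f he hf => by
      by_cases h : Orb ψ d e
      · exact (h2 _ _ (S.on_iff.2 (h.trans hf))).2
      · exact (S.const hi hψ hA h (S.on_iff.2 hf)).2.2
          ((S.const hi hψ hA h (S.on_iff.2 (Orb.refl e))).2.1 he)) (h2 _ _ o).2 fun e he h => by
      rw [hkk, inner e ((S.const hi hψ hA h (S.on_iff.2 (Orb.refl e))).2.1 he) h]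
    have e2 := S.stokes ha (fun y => y ∈ A ∧ ¬n y) fun a b c r i j l => hp a b c r i.2 j.2 l.2
    rw [S.rot_sum] at e2
    refine absurd (e2.trans (Eq.dvd ?_ |>.trans h4)) (by decide)
    rw [← hkk, ← e1]
    refine Eq.trans (sum_congr rfl fun t ht => ?_) ((S.sum_dt fun t => if t.2.1 ∈ A ∧ ¬n t.2.2 then
      κ t.2.1 t.2.2 else 0).symm.trans (sum_congr rfl fun e _ => by
        rcases hψ e with ⟨l, -, e1⟩ | ⟨l, -, e1⟩ <;> simp [k', e1, l, h0]))
    · have r : R t.1 t.2.1 t.2.2 := by simpa using ht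
      have := same _ _ _ r
      have := same _ _ _ (S.rot r)
      grind

end Pool.Agent.Lib.Z78
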