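import Pool.Agent.Lib.Z78.Surf

open Set

namespace Pool.Agent.Lib.Z78

open Pool.Agent.Lib.MP_e11f15_gt

variable {E F : Type} [NormedAddCommGroup E] [NormedSpace ℝ E] [NormedAddCommGroup F]
  [NormedSpace ℝ F] {K : Set E} {R : E → E → E → Prop}

theorem aff3 (g : E →ᵃ[ℝ] F) (a b c : E) {α β γ : ℝ} (h : α + β + γ = 1) :
    g (α • a + β • b + γ • c) = α • g a + β • g b + γ • g c := by
  have e : ∀ x, g x = g.linear x + g 0 := fun x => congr_fun g.decomp x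
  obtain rfl : γ = 1 - α - β := by linarith
  rw [e, e a, e b, e c]
  simp only [map_add, map_smul]
  module

def Good (R : E → E → E → Prop) (φ : E →ᵃ[ℝ] ℝ) : Prop := ∀ a b c, R a b c → 0 ≤ φ a * φ b

theorem Surf.good (S : Surf K R) {u v w z p : E} {s : ℝ} (h : R u v w) (h' : R v u z) (h0 : 0 < s)
    (h1 : s < 1) (hp : p = (1 - s) • u + s • v) {ψ : E →ᵃ[ℝ] ℝ} (hψ : Good R ψ) :
    Good (Sub R u v w z p) ψ := by
  have e : ψ p = (1 - s) * ψ u + s * ψ v := by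
    simpa [hp] using aff3 ψ u v u (α := 1 - s) (β := s) (γ := 0) (by ring)
  have a1 := hψ _ _ _ h
  have a2 := hψ _ _ _ (S.rot h)
  have a3 := hψ _ _ _ (S.rot (S.rot h))
  have a4 := hψ _ _ _ (S.rot h')
  have a5 := hψ _ _ _ (S.rot (S.rot h'))
  have h2 : 0 < 1 - s := by linarith
  have b1 : 0 ≤ ψ p * ψ u := by rw [e]; nlinarith [mul_self_nonneg (ψ u)]
  have b2 : 0 ≤ ψ p * ψ v := by rw [e]; nlinarith [mul_self_nonneg (ψ v)]
  have b3 : 0 ≤ ψ p * ψ w := by rw [e]; nlinarith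
  have b4 : 0 ≤ ψ p * ψ z := by rw [e]; nlinarith
  refine fun a b c r => (Sub.ind (Q := fun a b c => 0 ≤ ψ a * ψ b ∧ 0 ≤ ψ b * ψ c ∧ 0 ≤ ψ c * ψ a)
    (fun a b c e => ⟨e.2.1, e.2.2, e.1⟩) (fun a b c e => ⟨hψ _ _ _ e.1, hψ _ _ _ (S.rot e.1),
      hψ _ _ _ (S.rot (S.rot e.1))⟩) ?_ ?_ ?_ ?_ a b c r).1 <;>
    exact ⟨by assumption, by assumption, by rwa [mul_comm]⟩

theorem Surf.cut (φ : E →ᵃ[ℝ] ℝ) : ∀ (n : ℕ) (R : E → E → E → Prop), Surf K R →
    {q : E × E | (∃ c, R q.1 q.2 c) ∧ φ q.1 * φ q.2 < 0}.ncard = n →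
    ∃ R', Surf K R' ∧ Good R' φ ∧ ∀ ψ, Good R ψ → Good R' ψ := by
  intro n
  induction n using Nat.strong_induction_on with
  | _ n ih =>
  intro R S hn
  by_cases hg : Good R φ
  · exact ⟨R, S, hg, fun _ h => h⟩
  simp only [Good, not_forall, not_le] at hg
  obtain ⟨u, v, w, h, huv⟩ := hg
  obtain ⟨z, h'⟩ := S.opp h
  have hne : φ u - φ v ≠ 0 := fun e => by
    rw [sub_eq_zero.1 e] at huv
    nlinarith [mul_self_nonneg (φ v)]
  obtain ⟨s, hs⟩ : ∃ s, s * (φ u - φ v) = φ u := ⟨φ u / (φ u - φ v), by field_simp⟩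
  have hsq := mul_self_pos.2 hne
  have h0 : 0 < s := by
    by_contra e
    nlinarith [mul_self_nonneg (φ u), congrArg (· * (φ u - φ v)) hs]
  have h1 : s < 1 := by
    by_contra e
    nlinarith [mul_self_nonneg (φ v), congrArg (· * (φ u - φ v)) hs]
  set p := (1 - s) • u + s • v with hp
  have e : φ p = 0 := by
    have := aff3 φ u v u (α := 1 - s) (β := s) (γ := 0) (by ring)
    simp only [zero_smul, add_zero, smul_eq_mul, zero_mul] at this
    rw [hp, this]; linarith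
  have hfin : {q : E × E | (∃ c, R q.1 q.2 c) ∧ φ q.1 * φ q.2 < 0}.Finite :=
    (S.fin.image fun t => (t.1, t.2.1)).subset fun q hq => by
      obtain ⟨c, hc⟩ := hq.1
      exact ⟨(q.1, q.2, c), hc, rfl⟩
  have key : ∀ a b c, Sub R u v w z p a b c → φ a * φ b < 0 → (∃ c, R a b c) ∧ (a, b) ≠ (u, v) := by
    have r1 := S.rot h
    have r2 := S.rot r1
    have r3 := S.rot h'
    have r4 := S.rot r3
    have := S.nd h
    have := S.nd r2
    have := S.nd r4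
    have := S.nd r1
    have := S.nd r3
    rintro a b c (r | r | r | r) hab
    · exact ⟨⟨c, r.1⟩, fun e => r.2 (by simp_all)⟩
    · simp [r.1, e] at hab
    · simp [r.1, e] at hab
    · rcases r.2 with ⟨rfl, rfl⟩ | ⟨rfl, rfl⟩ | ⟨rfl, rfl⟩ | ⟨rfl, rfl⟩ <;>
        exact ⟨⟨_, by assumption⟩, by grind⟩
  obtain ⟨R', S', g1, g2⟩ := ih _ (hn ▸ Set.ncard_lt_ncard (s := {q : E × E |
    (∃ c, Sub R u v w z p q.1 q.2 c) ∧ φ q.1 * φ q.2 < 0}) ⟨fun q ⟨⟨c, hc⟩, hq⟩ =>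
      ⟨(key _ _ _ hc hq).1, hq⟩, fun hs => by
        obtain ⟨⟨c, hc⟩, hq⟩ := hs (a := (u, v)) ⟨⟨w, h⟩, huv⟩
        exact (key _ _ _ hc hq).2 rfl⟩ hfin) _ (S.sub h h' h0 h1 hp) rfl
  exact ⟨R', S', g1, fun ψ hψ => g2 ψ (S.good h h' h0 h1 hp hψ)⟩

theorem Surf.cuts (S : Surf K R) (Φ : List (E →ᵃ[ℝ] ℝ)) :
    ∃ R', Surf K R' ∧ ∀ φ ∈ Φ, Good R' φ := by
  induction Φ with
  | nil => exact ⟨R, S, by simp⟩
  | cons φ Φ ih =>
    obtain ⟨R1, S1, h1⟩ := ih
    obtain ⟨R2, S2, h2, h3⟩ := Surf.cut φ _ R1 S1 rfl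
    exact ⟨R2, S2, List.forall_mem_cons.2 ⟨h2, fun ψ hψ => h3 ψ (h1 ψ hψ)⟩⟩

/-- A piecewise linear map is affine on the triangles of a suitable subdivision. -/
theorem Surf.affine [FiniteDimensional ℝ E] [FiniteDimensional ℝ F] (S : Surf K R) {f : E → F}
    (hf : IsPLOn f K) : ∃ R', Surf K R' ∧ ∀ a b c, R' a b c → ∀ α β γ, Cv α β γ →
      f (α • a + β • b + γ • c) = α • f a + β • f b + γ • f c := by
  classical
  have hc := hf.continuousOn
  obtain ⟨T, hT, hg⟩ := hf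
  have hK : IsClosed K := (IsPolyhedron.isCompact ⟨T, hT⟩).isClosed
  choose! g hg using hg
  let b := Module.finBasis ℝ F
  obtain ⟨R', S', hG⟩ := S.cuts ((T ×ˢ T ×ˢ (Finset.univ : Finset (Fin _))).toList.map fun q =>
    (b.coord q.2.2).toAffineMap.comp (g q.1 - g q.2.1))
  refine ⟨R', S', fun u v w r => ?_⟩
  let O : Set E := {x | ∃ α β γ : ℝ, 0 < α ∧ 0 < β ∧ 0 < γ ∧ α + β + γ = 1 ∧
    x = α • u + β • v + γ • w}
  have hOK : O ⊆ K := by
    rintro x ⟨α, β, γ, i, j, l, m, hx⟩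
    exact (S'.cov x).2 ⟨u, v, w, r, α, β, γ, ⟨i.le, j.le, l.le, m⟩, hx⟩
  have hO : Convex ℝ O := by
    refine convex_iff_forall_pos.2 ?_
    rintro _ ⟨α, β, γ, i, j, l, m, rfl⟩ _ ⟨α', β', γ', i', j', l', m', rfl⟩ s t hs ht hst
    exact ⟨s * α + t * α', s * β + t * β', s * γ + t * γ', by positivity, by positivity,
      by positivity, by linear_combination s * m + t * m' + hst, by module⟩
  have hag : ∀ s ∈ T, ∀ t ∈ T, ∀ x ∈ O, g s x = g t x → ∀ y ∈ O, g s y = g t y := by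
    rintro s hs t ht _ ⟨α, β, γ, i, j, l, m, rfl⟩ e _ ⟨α', β', γ', -, -, -, m', rfl⟩
    rw [← sub_eq_zero]
    refine b.forall_coord_eq_zero_iff.1 fun k => ?_
    have hφ := hG ((b.coord k).toAffineMap.comp (g s - g t))
      (List.mem_map.2 ⟨(s, t, k), by simp [hs, ht], rfl⟩)
    set φ := (b.coord k).toAffineMap.comp (g s - g t) with hφd
    have e0 : ∀ x, φ x = b.coord k (g s x - g t x) := fun x => rfl
    have e1 := aff3 φ u v w m
    rw [e0, e, sub_self, map_zero] at e1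
    have a1 := mul_nonneg j.le (hφ _ _ _ r)
    have a1' := mul_nonneg i.le (hφ _ _ _ r)
    have a2 := mul_nonneg l.le (hφ _ _ _ (S'.rot r))
    have a3 := mul_nonneg l.le (hφ _ _ _ (S'.rot (S'.rot r)))
    simp only [smul_eq_mul] at e1
    have z1 : φ u = 0 := by
      by_contra h
      nlinarith [mul_pos i (mul_self_pos.2 h), congrArg (· * φ u) e1]
    have z2 : φ v = 0 := by
      by_contra h
      nlinarith [mul_pos j (mul_self_pos.2 h), congrArg (· * φ v) e1]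
    have z3 : φ w = 0 := by
      rw [z1, z2] at e1
      simpa [l.ne'] using e1
    rw [← e0, aff3 φ u v w m', z1, z2, z3]
    simp
  have hcl : ∀ s, IsClosed {x | x ∈ K ∧ f x = g s x} := fun s =>
    (hc.sub (g s).continuous_of_finiteDimensional.continuousOn).preimage_isClosed_of_isClosed hK
      (isClosed_singleton (x := 0)) |> fun h => by
        convert h using 1
        ext x; simp [sub_eq_zero]
  have hx : ∀ x ∈ K, ∃ s ∈ T, f x = g s x := fun x hx => by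
    rw [hT] at hx
    obtain ⟨s, hs, hx⟩ := mem_iUnion₂.1 hx
    exact ⟨s, hs, hg s hs hx⟩
  let x0 := (1 / 3 : ℝ) • u + (1 / 3 : ℝ) • v + (1 / 3 : ℝ) • w
  have h0 : x0 ∈ O := ⟨_, _, _, by norm_num, by norm_num, by norm_num, by norm_num, rfl⟩
  obtain ⟨s, hs, hs0⟩ := hx x0 (hOK h0)
  have hsub : O ⊆ {x | x ∈ K ∧ f x = g s x} := by
    intro y hy
    by_contra hn
    obtain ⟨x, hxO, h1, h2⟩ := isPreconnected_closed_iff.1 hO.isPreconnected _
      (⋃ t ∈ T.filter fun t => g t x0 ≠ g s x0, {x | x ∈ K ∧ f x = g t x}) (hcl s)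
      (isClosed_biUnion_finset fun t _ => hcl t) (fun x hxO => by
        obtain ⟨t, ht, e⟩ := hx x (hOK hxO)
        by_cases h : g t x0 = g s x0
        · exact Or.inl ⟨hOK hxO, e.trans (hag t ht s hs x0 h0 h x hxO)⟩
        · exact Or.inr (mem_iUnion₂.2 ⟨t, Finset.mem_filter.2 ⟨ht, h⟩, hOK hxO, e⟩))
      ⟨x0, h0, hOK h0, hs0⟩ (by
        obtain ⟨t, ht, e⟩ := hx y (hOK hy)
        exact ⟨y, hy, mem_iUnion₂.2 ⟨t, Finset.mem_filter.2 ⟨ht, fun h =>
          hn ⟨hOK hy, e.trans (hag t ht s hs x0 h0 h y hy)⟩⟩, hOK hy, e⟩⟩)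
    obtain ⟨t, ht, h3⟩ := mem_iUnion₂.1 h2
    obtain ⟨ht, h4⟩ := Finset.mem_filter.1 ht
    exact h4 (hag t ht s hs x hxO (h3.2.symm.trans h1.2) x0 h0)
  have hall : ∀ α β γ, Cv α β γ → f (α • u + β • v + γ • w) = g s (α • u + β • v + γ • w) := by
    rintro α β γ ⟨i, j, l, m⟩
    have : openSegment ℝ (α • u + β • v + γ • w) x0 ⊆ {x | x ∈ K ∧ f x = g s x} := by
      rintro _ ⟨p, q, hp, hq, hpq, rfl⟩
      exact hsub ⟨p * α + q / 3, p * β + q / 3, p * γ + q / 3, by positivity, by positivity,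
        by positivity, by linear_combination p * m + hpq, by simp only [x0]; module⟩
    exact ((hcl s).closure_subset_iff.2 this
      (segment_subset_closure_openSegment (left_mem_segment _ _ _))).2
  intro α β γ h
  have e1 := hall 1 0 0 (by simp [Cv])
  have e2 := hall 0 1 0 (by simp [Cv])
  have e3 := hall 0 0 1 (by simp [Cv])
  simp only [one_smul, zero_smul, add_zero, zero_add] at e1 e2 e3
  rw [hall α β γ h, aff3 _ _ _ _ h.2.2.2, e1, e2, e3]

end Pool.Agent.Lib.Z78
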