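import Pool.Agent.Lib.Z78.RP
import Pool.Agent.Lib.MP_e11f15_gt.Rank

namespace Pool.Agent.Lib.Z78

open Pool.Agent.Lib.MP_e11f15_gt

def NT : List (V × V × V) := [(0, 1, 6), (6, 1, 7), (7, 1, 2), (7, 2, 8), (8, 2, 0), (0, 6, 8)]

def M1 : List (V × V × V) := [(6, 7, 9), (7, 10, 9), (7, 8, 10), (8, 6, 10)]

def M2 : List (V × V × V) :=
  [(6, 9, 8), (8, 9, 11), (8, 11, 7), (7, 11, 12), (7, 12, 13), (11, 9, 10), (11, 10, 6),
    (7, 13, 6), (12, 11, 6), (13, 12, 10), (12, 6, 9), (10, 12, 9), (6, 13, 10)]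

def LT : List (V × V × V) := RP ++ NT ++ (M1 ++ M2)

def KT : List (V × V × V) := [(2, 8, 9), (2, 9, 10), (2, 10, 8), (8, 10, 9)]

def kap : V → V → ℤ := fun a b => (([
  [0, 1, -1, 0, 0, 0, 0, 0, -1, 0, 0, 0, 0, 0],
  [-1, 0, 1, 1, 1, 0, -1, 0, 0, 0, 0, 0, 0, 0],
  [1, -1, 0, 1, 0, 1, 0, -1, 0, 0, 0, 0, 0, 0],
  [0, -1, -1, 0, 1, 1, 0, 0, 0, 0, 0, 0, 0, 0],
  [0, -1, 0, -1, 0, 0, 0, 0, 0, 0, 0, 0, 0, 0],
  [0, 0, -1, -1, 0, 0, 0, 0, 0, 0, 0, 0, 0, 0],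
  [0, 1, 0, 0, 0, 0, 0, 1, -1, 0, 0, 0, 0, 0],
  [0, 0, 1, 0, 0, 0, -1, 0, 1, -1, 2, -4, -4, -1],
  [1, 0, 0, 0, 0, 0, 1, -1, 0, 1, 1, 4, 0, 0],
  [0, 0, 0, 0, 0, 0, 0, 1, -1, 0, 3, 3, 0, 0],
  [0, 0, 0, 0, 0, 0, 0, -2, -1, -3, 0, 0, -3, 0],
  [0, 0, 0, 0, 0, 0, 0, 4, -4, -3, 0, 0, 0, 0],
  [0, 0, 0, 0, 0, 0, 0, 4, 0, 0, 3, 0, 0, 3],
  [0, 0, 0, 0, 0, 0, 0, 1, 0, 0, 0, 0, -3, 0]] : List (List ℤ)).getD a []).getD b 0

def ix (v : V) : ℤ := ([0, 1, 2, 0, 0, 0, 0, 1, 2] : List ℤ).getD v 0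

def pl (v : V) : Prop := 6 ≤ v.val

instance : DecidablePred pl := fun v => inferInstanceAs (Decidable (6 ≤ v.val))

def mv : List (Bool × V × List V) :=
  [(false, 2, [5, 7]), (false, 2, [1, 5, 7]), (true, 7, [1, 2, 5]), (false, 2, [4, 7]), (false, 2,
    [1, 4, 7]), (true, 4, [1, 2, 7]), (true, 4, [1, 2]), (false, 3, [1, 2]), (false, 3, [0, 1,
    2]), (true, 2, [0, 1, 3]), (true, 2, [0, 3]), (false, 6, [0, 7]), (false, 6, [0, 1, 7]),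
    (true, 7, [0, 1, 6]), (true, 7, [1, 6]), (false, 8, [2, 6]), (false, 8, [0, 2, 6]), (true, 2,
    [0, 6, 8]), (true, 2, [0, 8]), (false, 1, [0, 4, 7]), (true, 7, [0, 1, 4]), (true, 7, [1, 4]),
    (false, 12, [11, 13]), (false, 12, [7, 11, 13]), (true, 13, [7, 11, 12]), (true, 13, [7, 12]),
    (false, 8, [2, 11]), (false, 8, [2, 7, 11]), (true, 11, [2, 7, 8]), (false, 9, [8, 12]),
    (false, 9, [6, 8, 12]), (true, 8, [6, 9, 12]), (false, 11, [2, 7, 8]), (true, 7, [2, 8, 11]),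
    (true, 7, [2, 11]), (false, 5, [3, 7]), (false, 5, [1, 3, 7]), (true, 3, [1, 5, 7]), (true, 3,
    [1, 5]), (false, 8, [6, 9, 12]), (true, 6, [8, 9, 12]), (true, 6, [8, 12]), (false, 7, [5,
    8]), (false, 7, [2, 5, 8]), (true, 8, [2, 5, 7]), (false, 7, [4, 8]), (false, 7, [2, 4, 8]),
    (true, 8, [2, 4, 7]), (true, 8, [2, 7]), (false, 3, [2, 7]), (false, 3, [1, 2, 7]), (true, 2,
    [1, 3, 7]), (true, 2, [1, 3]), (false, 1, [0, 2, 7]), (true, 2, [0, 1, 7]), (true, 2, [0, 1]),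
    (true, 2, [1, 7]), (true, 2, [1]), (false, 5, [0, 8]), (false, 5, [0, 2, 8]), (true, 8, [0, 2,
    5]), (true, 8, [2, 5]), (false, 0, [2, 6, 7]), (true, 6, [0, 2, 7]), (false, 2, [0, 6, 8]),
    (true, 8, [0, 2, 6]), (true, 8, [0, 2]), (false, 8, [4, 6]), (false, 8, [2, 4, 6]), (true, 4,
    [2, 6, 8]), (true, 4, [2, 8]), (false, 8, [5, 11]), (false, 8, [5, 7, 11]), (true, 11, [5, 7,
    8]), (false, 11, [5, 7, 8]), (true, 8, [5, 7, 11]), (true, 8, [5, 11]), (false, 6, [2, 8]),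
    (false, 6, [2, 4, 8]), (true, 8, [2, 4, 6]), (true, 8, [4, 6]), (false, 8, [5, 6]), (false, 8,
    [0, 5, 6]), (true, 5, [0, 6, 8]), (true, 5, [0, 8]), (false, 7, [3, 6]), (false, 7, [2, 3,
    6]), (true, 3, [2, 6, 7]), (true, 3, [2, 7]), (false, 7, [3, 9]), (false, 7, [3, 6, 9]),
    (true, 3, [6, 7, 9]), (false, 7, [3, 8]), (false, 7, [3, 5, 8]), (true, 8, [3, 5, 7]), (true,
    8, [5, 7]), (false, 13, [7, 12]), (false, 13, [7, 11, 12]), (true, 12, [7, 11, 13]), (true,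
    12, [11, 13]), (false, 8, [2, 10]), (false, 8, [2, 6, 10]), (true, 10, [2, 6, 8]), (false, 6,
    [2, 7]), (false, 6, [2, 3, 7]), (true, 7, [2, 3, 6]), (false, 3, [6, 7, 9]), (true, 9, [3, 6,
    7]), (true, 9, [3, 6]), (true, 7, [3, 9]), (false, 7, [2, 13]), (false, 7, [2, 6, 13]), (true,
    2, [6, 7, 13]), (false, 7, [0, 8]), (false, 7, [0, 4, 8]), (true, 0, [4, 7, 8]), (true, 0, [4,
    7]), (false, 8, [4, 10]), (false, 8, [2, 4, 10]), (true, 10, [2, 4, 8]), (true, 10, [2, 8]),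
    (false, 3, [4, 7]), (false, 3, [2, 4, 7]), (true, 4, [2, 3, 7]), (true, 4, [2, 3]), (false, 7,
    [2, 3]), (false, 7, [2, 3, 4]), (true, 2, [3, 4, 7]), (true, 2, [4, 7]), (false, 8, [3, 6]),
    (false, 8, [3, 5, 6]), (true, 3, [5, 6, 8]), (true, 3, [5, 8]), (false, 5, [0, 3]), (false, 5,
    [0, 3, 4]), (true, 3, [0, 4, 5]), (true, 3, [4, 5]), (false, 4, [0, 2]), (false, 4, [0, 2,
    3]), (true, 0, [2, 3, 4]), (true, 0, [3, 4]), (false, 5, [0, 3, 6]), (true, 3, [0, 5, 6]),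
    (true, 3, [5, 6]), (true, 3, [0, 5]), (true, 3, [5]), (false, 9, [8, 12]), (false, 9, [6, 8,
    12]), (true, 12, [6, 8, 9]), (false, 8, [0, 10]), (false, 8, [0, 4, 10]), (true, 0, [4, 8,
    10]), (true, 0, [4, 8]), (false, 4, [0, 2, 10]), (true, 10, [0, 2, 4]), (true, 10, [2, 4]),
    (true, 0, [4, 10]), (true, 0, [4]), (false, 13, [2, 12]), (false, 13, [2, 7, 12]), (true, 2,
    [7, 12, 13]), (true, 2, [7, 13]), (false, 12, [6, 8, 9]), (true, 6, [8, 9, 12]), (true, 6, [8,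
    12]), (false, 7, [2, 8]), (false, 7, [2, 3, 8]), (true, 8, [2, 3, 7]), (true, 8, [3, 7]),
    (false, 9, [8, 12]), (false, 9, [6, 8, 12]), (true, 8, [6, 9, 12]), (false, 6, [2, 10, 13]),
    (true, 10, [2, 6, 13]), (true, 10, [6, 13]), (false, 13, [2, 10, 12]), (true, 10, [2, 12,
    13]), (true, 10, [12, 13]), (true, 2, [10, 13]), (true, 2, [13]), (false, 8, [6, 9, 12]),
    (true, 9, [6, 8, 12]), (true, 9, [8, 12]), (false, 8, [0, 7, 10]), (true, 10, [0, 7, 8]),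
    (true, 10, [0, 8]), (false, 3, [0, 8]), (false, 3, [0, 2, 8]), (true, 0, [2, 3, 8]), (true, 0,
    [2, 3]), (false, 3, [0, 6, 8]), (true, 8, [0, 3, 6]), (true, 8, [0, 3]), (true, 6, [3, 8]),
    (true, 6, [3]), (false, 7, [0, 9]), (false, 7, [0, 6, 9]), (true, 9, [0, 6, 7]), (false, 9,
    [0, 6, 7]), (true, 6, [0, 7, 9]), (true, 6, [0, 9]), (false, 12, [2, 9]), (false, 12, [2, 9,
    10]), (true, 9, [2, 10, 12]), (true, 9, [10, 12]), (false, 10, [0, 9]), (false, 10, [0, 2,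
    9]), (true, 9, [0, 2, 10]), (false, 12, [2, 11]), (false, 12, [2, 7, 11]), (true, 11, [2, 7,
    12]), (true, 11, [7, 12]), (false, 9, [0, 2, 10]), (true, 2, [0, 9, 10]), (true, 2, [0, 9]),
    (false, 7, [2, 8, 11]), (true, 2, [7, 8, 11]), (true, 2, [7, 11]), (false, 8, [0, 9]), (false,
    8, [0, 6, 9]), (true, 9, [0, 6, 8]), (false, 9, [8, 12]), (false, 9, [6, 8, 12]), (true, 12,
    [6, 8, 9]), (false, 6, [0, 7, 9]), (true, 7, [0, 6, 9]), (true, 7, [0, 6]), (false, 7, [0, 9,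
    10]), (true, 9, [0, 7, 10]), (true, 9, [0, 7]), (false, 12, [6, 8, 9]), (true, 6, [8, 9, 12]),
    (true, 6, [8, 12]), (false, 10, [0, 2, 9]), (true, 9, [0, 2, 10]), (true, 9, [0, 10]), (false,
    0, [2, 8, 9]), (true, 8, [0, 2, 9]), (true, 8, [0, 9]), (true, 8, [0, 2]), (true, 8, [0]),
    (false, 8, [2, 9, 11]), (true, 9, [2, 8, 11]), (true, 9, [8, 11]), (false, 2, [9, 11, 12]),
    (true, 11, [2, 9, 12]), (true, 11, [2, 12]), (true, 9, [2, 11]), (false, 12, [6, 9, 11]),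
    (true, 11, [6, 9, 12]), (true, 11, [9, 12]), (true, 6, [11, 12]), (true, 6, [12]), (false, 11,
    [6, 9, 10]), (true, 6, [9, 10, 11]), (true, 6, [9, 11]), (true, 10, [6, 11]), (true, 10,
    [11]), (false, 9, [6, 7, 10]), (true, 6, [7, 9, 10]), (true, 6, [7, 9]), (false, 6, [8, 9,
    10]), (true, 10, [6, 8, 9]), (true, 10, [6, 9]), (true, 10, [6, 8]), (false, 6, [2, 7, 10]),
    (true, 10, [2, 6, 7]), (true, 10, [6, 7]), (true, 10, [2, 6]), (true, 10, [6]), (false, 7, [2,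
    8, 10]), (true, 2, [7, 8, 10]), (true, 2, [7, 10]), (true, 2, [7, 8]), (true, 2, [7])]

theorem kap_anti : ∀ a b, kap b a = -kap a b := by decide +kernel

theorem kap_neg : ∀ t ∈ LT, ∀ a ∈ tl t, ∀ b ∈ tl t, ∀ c ∈ tl t, ¬pl a → ¬pl b → ¬pl c →
    2 ∣ kap a b + kap b c + kap c a := by decide +kernel

theorem kap_pos : ∀ t ∈ LT, ∀ a ∈ tl t, ∀ b ∈ tl t, ∀ c ∈ tl t, pl a → pl b → pl c →
    9 ∣ kap a b + kap b c + kap c a := by decide +kernel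

theorem mixed : ∀ t ∈ LT, NT.contains t = true ∨ (∀ a ∈ tl t, pl a) ∨ ∀ a ∈ tl t, ¬pl a := by
  decide +kernel

theorem kap_N : ∀ t ∈ NT, ∀ a ∈ tl t, ∀ b ∈ tl t, 3 ∣ ix a + kap a b - ix b ∧
    ∀ c ∈ tl t, kap a c = kap a b + kap b c := by decide +kernel

end Pool.Agent.Lib.Z78
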