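import Pool.Agent.Lib.MP_e11f15_gt.Defs

open Set

namespace Pool.Agent.Lib.Z78

open Pool.Agent.Lib.MP_e11f15_gt

/-- Graphs (given by their sets of edges) that are subdivisions of a triangle, of the complete
graph on four vertices minus an edge (a theta curve), or of the complete graph on four vertices. -/
inductive FakeLink {V : Type} [DecidableEq V] : Finset (Finset V) → Prop
  | circle (a b c : V) : [a, b, c].Nodup → FakeLink {{a, b}, {a, c}, {b, c}}
  | theta (a b c d : V) : [a, b, c, d].Nodup → FakeLink {{a, b}, {a, c}, {a, d}, {b, c}, {b, d}}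
  | tetra (a b c d : V) : [a, b, c, d].Nodup →
      FakeLink {{a, b}, {a, c}, {a, d}, {b, c}, {b, d}, {c, d}}
  | subdiv (G : Finset (Finset V)) (a b c : V) : FakeLink G → {a, b} ∈ G → a ≠ b →
      (∀ e ∈ G, c ∉ e) → FakeLink (insert {a, c} (insert {c, b} (G.erase {a, b})))

/-- A closed fake surface: a union of triangles spanned by standard basis vectors in which the
link of each vertex is a circle, a theta curve or the 1-skeleton of a tetrahedron. -/
def IsFakeSurface {N : ℕ} (P : Set (Fin N → ℝ)) : Prop :=
  ∃ T : Finset (Finset (Fin N)), (∀ s ∈ T, s.card = 3) ∧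
    P = (⋃ s ∈ T, convexHull ℝ ((fun i => Pi.single i (1 : ℝ)) '' (s : Set (Fin N)))) ∧
    ∀ s ∈ T, ∀ v ∈ s, FakeLink ((T.filter fun t => v ∈ t).image fun t => t.erase v)

variable {E : Type} [AddCommGroup E] [Module ℝ E]

/-- A polyhedron of dimension at most three. -/
def DimLeThree (P : Set E) : Prop :=
  ∃ T : Finset (Finset E), (∀ s ∈ T, s.card ≤ 4) ∧ P = ⋃ s ∈ T, convexHull ℝ (s : Set E)

/-- A finite sequence of elementary expansions and collapses through polyhedra of dimension at
most three. -/
def ThreeDeforms (P Q : Set E) : Prop :=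
  Relation.ReflTransGen
    (fun A B => (ElemCollapse A B ∨ ElemCollapse B A) ∧ DimLeThree A ∧ DimLeThree B) P Q

end Pool.Agent.Lib.Z78
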