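import Pool.Agent.Lib.Z78.Data
import Pool.Agent.Lib.Z78.Defs

open Set

namespace Pool.Agent.Lib.Z78

open Pool.Agent.Lib.MP_e11f15_gt

def Gr (l : List (V × V)) : Finset (Finset V) := (l.map fun e => ({e.1, e.2} : Finset V)).toFinset

def hasE (l : List (V × V)) (a b : V) : Bool := l.contains (a, b) || l.contains (b, a)

theorem pair_eq {a b c d : V} : ({a, b} : Finset V) = {c, d} ↔ a = c ∧ b = d ∨ a = d ∧ b = c := by
  rw [← Finset.coe_inj, Finset.coe_pair, Finset.coe_pair, Set.pair_eq_pair_iff]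

theorem mem_Gr {l : List (V × V)} {s : Finset V} : s ∈ Gr l ↔ ∃ e ∈ l, {e.1, e.2} = s := by
  simp only [Gr, List.mem_toFinset, List.mem_map]

theorem hasE_spec {l : List (V × V)} {a b : V} (h : hasE l a b = true) : {a, b} ∈ Gr l := by
  simp only [hasE, Bool.or_eq_true, List.contains_iff_mem] at h
  exact mem_Gr.2 (h.elim (fun h => ⟨_, h, rfl⟩) fun h => ⟨_, h, Finset.pair_comm _ _⟩)

def bld (k : ℕ) (p : V × V × V × V) : List (V × V × V) → List (V × V)
  | [] => if k = 0 then [(p.1, p.2.1), (p.1, p.2.2.1), (p.2.1, p.2.2.1)] else if k = 1 then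
      [(p.1, p.2.1), (p.1, p.2.2.1), (p.1, p.2.2.2), (p.2.1, p.2.2.1), (p.2.1, p.2.2.2)] else
      [(p.1, p.2.1), (p.1, p.2.2.1), (p.1, p.2.2.2), (p.2.1, p.2.2.1), (p.2.1, p.2.2.2),
        (p.2.2.1, p.2.2.2)]
  | s :: l => (s.1, s.2.2) :: (s.2.2, s.2.1) ::
      (bld k p l).filter fun e => e != (s.1, s.2.1) && e != (s.2.1, s.1)

def okl (k : ℕ) (p : V × V × V × V) : List (V × V × V) → Bool
  | [] => if k = 0 then decide [p.1, p.2.1, p.2.2.1].Nodup else
      decide [p.1, p.2.1, p.2.2.1, p.2.2.2].Nodup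
  | s :: l => okl k p l && hasE (bld k p l) s.1 s.2.1 && s.1 != s.2.1 &&
      (bld k p l).all fun e => s.2.2 != e.1 && s.2.2 != e.2

theorem okl_spec (k : ℕ) (p : V × V × V × V) : ∀ l, okl k p l = true → FakeLink (Gr (bld k p l))
  | [], h => by
    simp only [okl, bld] at h ⊢
    split_ifs at h ⊢ <;> simp only [Gr, List.map_cons, List.map_nil, List.toFinset_cons,
      List.toFinset_nil, LawfulSingleton.insert_empty_eq]
    exacts [.circle _ _ _ (of_decide_eq_true h), .theta _ _ _ _ (of_decide_eq_true h),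
      .tetra _ _ _ _ (of_decide_eq_true h)]
  | s :: l, h => by
    simp only [okl, Bool.and_eq_true, bne_iff_ne, List.all_eq_true] at h
    convert FakeLink.subdiv _ _ _ s.2.2 (okl_spec k p l h.1.1.1) (hasE_spec h.1.1.2) h.1.2
      fun e he => by
        obtain ⟨e', he', rfl⟩ := mem_Gr.1 he
        simpa using h.2 e' he'
    ext e
    simp only [mem_Gr, bld, List.mem_cons, List.mem_filter, Finset.mem_insert, Finset.mem_erase,
      exists_eq_or_imp, eq_comm (a := e), Bool.and_eq_true, bne_iff_ne]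
    refine or_congr_right (or_congr_right ⟨?_, ?_⟩)
    · rintro ⟨e, he, rfl⟩
      exact ⟨fun h => by rw [pair_eq] at h; grind, e, he.1, rfl⟩
    · rintro ⟨h, e, he, rfl⟩
      exact ⟨e, ⟨he, fun h' => h (by rw [h']), fun h' => h (by rw [h', Finset.pair_comm])⟩, rfl⟩

def lk (v : V) : ℕ × (V × V × V × V) × List (V × V × V) :=
  ([(1, (1, 2, 8, 5), [(2, 1, 3), (1, 5, 4), (8, 1, 6)]),
    (1, (0, 2, 5, 7), [(0, 5, 3), (2, 0, 4), (0, 7, 6)]),
    (1, (1, 0, 8, 5), [(4, 0, 3), (1, 0, 4), (1, 8, 7)]),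
    (0, (2, 4, 5, 0), [(1, 2, 0), (5, 2, 1)]),
    (0, (2, 3, 5, 0), [(1, 5, 0), (5, 2, 1)]),
    (0, (2, 3, 4, 0), [(2, 4, 0), (3, 2, 1)]),
    (2, (7, 8, 9, 10), [(1, 8, 0), (7, 8, 1), (12, 10, 11), (10, 9, 12), (7, 10, 13)]),
    (1, (8, 6, 10, 13), [(2, 6, 1), (8, 6, 2), (6, 10, 9), (8, 12, 11), (13, 8, 12)]),
    (1, (6, 7, 10, 11), [(6, 2, 0), (6, 7, 2), (6, 11, 9)]),
    (1, (10, 6, 11, 12), [(10, 6, 7), (11, 6, 8)]),
    (1, (9, 6, 11, 13), [(9, 8, 7), (6, 9, 8), (13, 9, 12)]),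
    (0, (9, 10, 12, 0), [(10, 12, 6), (12, 8, 7), (9, 12, 8)]),
    (0, (10, 11, 13, 0), [(9, 11, 6), (13, 11, 7), (11, 10, 9)]),
    (0, (7, 10, 12, 0), [(7, 10, 6)])] : List (ℕ × (V × V × V × V) × List (V × V × V))).getD v (0, 0, [])

def TL : Finset (Finset V) := (LT.map fun t => (tl t).toFinset).toFinset

def lnk (v : V) : List (V × V) := LT.filterMap fun t =>
  if t.1 = v then some t.2 else if t.2.1 = v then some (t.1, t.2.2) else
    if t.2.2 = v then some (t.1, t.2.1) else none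

theorem lk_ok : ∀ v, okl (lk v).1 (lk v).2.1 (lk v).2.2 = true ∧
    ((lnk v).all fun e => hasE (bld (lk v).1 (lk v).2.1 (lk v).2.2) e.1 e.2) = true ∧
    ((bld (lk v).1 (lk v).2.1 (lk v).2.2).all fun e => hasE (lnk v) e.1 e.2) = true := by
  decide +kernel

theorem ndL : ∀ t ∈ LT, (tl t).Nodup := by decide +kernel

theorem fakeL : IsFakeSurface (real (LT.map tl)) := by
  have hT : ∀ s, s ∈ TL ↔ ∃ t ∈ LT, (tl t).toFinset = s := fun s => by
    simp only [TL, List.mem_toFinset, List.mem_map]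
  refine ⟨TL, fun s hs => ?_, ?_, fun _ _ v _ => ?_⟩
  · obtain ⟨t, ht, rfl⟩ := (hT s).1 hs
    exact List.toFinset_card_of_nodup (ndL t ht)
  · ext x
    simp only [real, spx_eq, hT, mem_ofPred_eq, List.mem_map, mem_iUnion,
      exists_prop, exists_exists_and_eq_and, List.coe_toFinset]
  obtain ⟨h1, h2, h3⟩ := lk_ok v
  have sub : ∀ {l l' : List (V × V)}, (l.all fun e => hasE l' e.1 e.2) = true → Gr l ⊆ Gr l' :=
    fun h s hs => by
      obtain ⟨e, he, rfl⟩ := mem_Gr.1 hs
      exact hasE_spec (List.all_eq_true.1 h e he)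
  convert okl_spec _ _ _ h1
  rw [← Finset.Subset.antisymm (sub h2) (sub h3)]
  have key : ∀ t ∈ LT, ∀ s, (v ∈ (tl t).toFinset ∧ (tl t).toFinset.erase v = s) ↔
      ∃ e : V × V, (if t.1 = v then some t.2 else if t.2.1 = v then some (t.1, t.2.2) else
        if t.2.2 = v then some (t.1, t.2.1) else none) = some e ∧ {e.1, e.2} = s := by
    rintro ⟨a, b, c⟩ ht s
    have := ndL _ ht
    simp only [tl, List.nodup_cons, List.mem_cons, List.not_mem_nil, or_false, not_or] at this
    simp only [tl, List.toFinset_cons, List.toFinset_nil, LawfulSingleton.insert_empty_eq,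
      Finset.ext_iff, Finset.mem_erase, Finset.mem_insert, Finset.mem_singleton]
    split_ifs <;> simp only [Option.some.injEq, exists_eq_left', reduceCtorEq, false_and,
      exists_false] <;> grind
  ext s
  simp only [Finset.mem_image, Finset.mem_filter, hT, mem_Gr, lnk, List.mem_filterMap]
  constructor
  · rintro ⟨_, ⟨⟨t, ht, rfl⟩, h⟩, h'⟩
    obtain ⟨e, he⟩ := (key t ht s).1 ⟨h, h'⟩
    exact ⟨e, ⟨t, ht, he.1⟩, he.2⟩
  · rintro ⟨e, ⟨t, ht, h⟩, h'⟩
    exact ⟨_, ⟨⟨t, ht, rfl⟩, ((key t ht s).2 ⟨e, h, h'⟩).1⟩, ((key t ht s).2 ⟨e, h, h'⟩).2⟩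

def small (T : List (List V)) : Bool := T.all fun s => decide (s.length ≤ 4)

theorem small_spec {T : List (List V)} (h : small T = true) : DimLeThree (real T) := by
  classical
  refine ⟨(T.map fun s => s.toFinset.image ev).toFinset, fun s hs => ?_, ?_⟩
  · obtain ⟨t, ht, rfl⟩ := List.mem_map.1 (List.mem_toFinset.1 hs)
    exact Finset.card_image_le.trans ((List.toFinset_card_le t).trans
      (of_decide_eq_true (List.all_eq_true.1 h t ht)))
  · ext x
    simp only [real, spx_eq, mem_ofPred_eq, List.mem_toFinset, List.mem_map, mem_iUnion,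
      exists_prop, exists_exists_and_eq_and, Finset.coe_image, List.coe_toFinset]

def chk3 : List (List V) → List (Bool × V × List V) → List (List V) → Bool
  | T, [], T1 => dom T T1 && dom T1 T
  | T, (true, v, us) :: ms, T1 => small T && small (col T v us) &&
    okp v us (col T v us) && dom T ((v :: us) :: col T v us) && dom ((v :: us) :: col T v us) T &&
      chk3 (col T v us) ms T1
  | T, (false, v, us) :: ms, T1 => small T && small ((v :: us) :: T) && okp v us T &&
      chk3 ((v :: us) :: T) ms T1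

theorem chk3_spec (ms : List (Bool × V × List V)) (T1 : List (List V)) :
    ∀ T, chk3 T ms T1 = true → ThreeDeforms (real T1) (real T) := by
  induction ms with
  | nil =>
    intro T h
    simp only [chk3, Bool.and_eq_true] at h
    rw [Subset.antisymm (dom_spec h.1) (dom_spec h.2)]
    exact Relation.ReflTransGen.refl
  | cons m ms ih =>
    intro T h
    obtain ⟨b, v, us⟩ := m
    cases b with
    | true =>
      simp only [chk3, Bool.and_eq_true] at h
      obtain ⟨⟨⟨⟨⟨s1, s2⟩, h1⟩, h2⟩, h3⟩, h4⟩ := h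
      refine Relation.ReflTransGen.tail (ih _ h4) ⟨Or.inr ?_, small_spec s2, small_spec s1⟩
      rw [Subset.antisymm (dom_spec h2) (dom_spec h3)]
      exact elem_of_okp h1
    | false =>
      simp only [chk3, Bool.and_eq_true] at h
      exact Relation.ReflTransGen.tail (ih _ h.2)
        ⟨Or.inl (elem_of_okp h.1.2), small_spec h.1.1.2, small_spec h.1.1.1⟩

theorem deform : ThreeDeforms (real (KT.map tl)) (real (LT.map tl)) :=
  chk3_spec mv _ _ (by decide +kernel)

end Pool.Agent.Lib.Z78
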