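import Pool.Agent.Lib.Z78.Level
import Pool.Agent.Lib.Z78.Comb
import Pool.Agent.Lib.Z78.Chord

open Set Real Function

namespace Pool.Agent.Lib.Z78

open Pool.Agent.Lib.MP_e11f15_gt

variable {E : Type} [NormedAddCommGroup E] [NormedSpace ℝ E] {K : Set E} {R : E → E → E → Prop}

def Tri (a b c : E) : Set E := {y | ∃ α β γ, Cv α β γ ∧ y = α • a + β • b + γ • c}

theorem tri_closed (a b c : E) : IsClosed (Tri a b c) := by
  have : IsCompact {p : ℝ × ℝ × ℝ | Cv p.1 p.2.1 p.2.2} :=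
    (isCompact_Icc (a := 0) (b := 1)).of_isClosed_subset
      ((isClosed_le (by fun_prop) (by fun_prop)).and ((isClosed_le (by fun_prop) (by fun_prop)).and
        ((isClosed_le (by fun_prop) (by fun_prop)).and (isClosed_eq (by fun_prop) (by fun_prop)))))
      fun p ⟨i, j, l, m⟩ => by
        simp only [mem_Icc, Prod.le_def, Prod.fst_one, Prod.snd_one, Prod.fst_zero, Prod.snd_zero]
        exact ⟨⟨i, j, l⟩, by linarith, by linarith, by linarith⟩
  convert (this.image (f := fun p => p.1 • a + p.2.1 • b + p.2.2 • c) (by fun_prop)).isClosed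
  ext y
  simp [Tri, eq_comm]

theorem tri_v (a b c : E) : a ∈ Tri a b c ∧ b ∈ Tri a b c ∧ c ∈ Tri a b c :=
  ⟨⟨1, 0, 0, by simp [Cv], by simp⟩, ⟨0, 1, 0, by simp [Cv], by simp⟩,
    0, 0, 1, by simp [Cv], by simp⟩

theorem Surf.mem3 (S : Surf K R) {a b c a' b' c' : E} (r : R a b c) (r' : R a' b' c')
    {α β γ α' β' γ' : ℝ} (h : Cv α β γ) (h' : Cv α' β' γ')
    (e : α • a + β • b + γ • c = α' • a' + β' • b' + γ' • c') :
    (0 < α' → a' = a ∨ a' = b ∨ a' = c) ∧ (0 < β' → b' = a ∨ b' = b ∨ b' = c) := by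
  classical
  obtain ⟨i, j, l, -⟩ := id h'
  constructor <;> intro h0 <;> by_contra hn <;> push Not at hn
  · obtain ⟨G, hG⟩ := S.itp fun x => if a' = x then 1 else 0
    have := (hG _ _ _ r _ _ _ h).symm.trans (e ▸ hG _ _ _ r' _ _ _ h')
    simp only [hn.1, hn.2.1, hn.2.2, if_false, if_true] at this
    split_ifs at this <;> linarith
  · obtain ⟨G, hG⟩ := S.itp fun x => if b' = x then 1 else 0
    have := (hG _ _ _ r _ _ _ h).symm.trans (e ▸ hG _ _ _ r' _ _ _ h')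
    simp only [hn.1, hn.2.1, hn.2.2, if_false, if_true] at this
    split_ifs at this <;> linarith

def Hf {n : E → Prop} (d : Dt R n) (y : E) : Prop :=
  ∃ α β γ, Cv α β γ ∧ 0 < α ∧ 0 < β ∧ y = α • d.1.1 + β • d.1.2.1 + γ • d.1.2.2

theorem Surf.huniq (S : Surf K R) {n : E → Prop} {d e : Dt R n} {y : E} (h : Hf d y)
    (h' : Hf e y) : d = e := by
  obtain ⟨α, β, γ, c, i, j, rfl⟩ := h
  obtain ⟨α', β', γ', c', i', j', e'⟩ := h'
  have h1 := S.mem3 d.2.1 e.2.1 c c' e'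
  have h2 := S.mem3 e.2.1 d.2.1 c' c e'.symm
  obtain ⟨⟨u, v, w⟩, r, a, b⟩ := d
  obtain ⟨⟨u', v', w'⟩, r', a', b'⟩ := e
  have := S.anti (S.rot r)
  have := S.anti (S.rot (S.rot r))
  have := S.rot (S.rot r')
  have := S.rot r'
  refine S.dext ?_ ?_ <;> grind

theorem Cv.pos {α β γ x y z : ℝ} (h : Cv α β γ) (p : 0 < x) (q : 0 < y) (r : 0 < z) :
    0 < α * x + β * y + γ * z := by
  obtain ⟨i, j, m, o⟩ := h
  have := lt_min p (lt_min q r)
  nlinarith [min_le_left x (min y z), (min_le_right x _).trans (min_le_left y z),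
    (min_le_right x _).trans (min_le_right y z)]

theorem Cv.two {α β γ x y z : ℝ} (h : Cv α β γ) (e : α * x + β * y + γ * z = 0) (p : 0 < x)
    (r : 0 < z) : 0 < β ∧ (α = 0 → y ≠ 0 → 0 < γ) ∧ (γ = 0 → y ≠ 0 → 0 < α) := by
  have b : 0 < β := lt_of_le_of_ne h.2.1 fun b => by
    have := h.pos p one_pos r
    subst b
    linarith
  refine ⟨b, fun a hy => lt_of_le_of_ne h.2.2.1 fun c => ?_, fun c hy => lt_of_le_of_ne h.1 fun a => ?_⟩
  · subst a c; simp [b.ne', hy] at e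
  · subst a c; simp [b.ne', hy] at e

theorem geo (S : Surf K R) {f : E → (V → ℝ) × ℝ} (hc : ContinuousOn f K) (hi : InjOn f K)
    (hm : ∀ y ∈ K, (f y).1 ∈ real (LT.map tl)) (ha : ∀ a b c, R a b c → ∀ α β γ, Cv α β γ →
      f (α • a + β • b + γ • c) = α • f a + β • f b + γ • f c) :
    ∃ τ ∈ Ioo (0 : ℝ) 1, ∃ G : E → ℝ, Continuous G ∧
      ∀ y ∈ K, tt (f y).1 = τ → (G y : Angle) = th (f y).1 := by
  classical
  obtain ⟨τ, hτ, hne⟩ := (Ioo_infinite (zero_lt_one' ℝ)).exists_notMem_finite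
    (S.fin.image fun t => tt (f t.1).1)
  replace hne : ∀ a b c, R a b c → tt (f a).1 ≠ τ := fun a b c r e => hne ⟨(a, b, c), r, e⟩
  refine ⟨τ, hτ, ?_⟩
  let n : E → Prop := fun y => tt (f y).1 < τ
  have hK : ∀ a b c, R a b c → Tri a b c ⊆ K := fun a b c r y hy => (S.cov y).2 ⟨a, b, c, r, hy⟩
  have hnn : ∀ y ∈ K, (f y).1 ∈ stdSimplex ℝ V := fun y hy => (hm y hy).choose_spec.2.1
  have supp : ∀ a b c, R a b c → ∃ t ∈ LT, ∀ y ∈ Tri a b c, (f y).1 ∈ spx (tl t) := by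
    intro a b c r
    have c3 : Cv (1 / 3) (1 / 3) (1 / 3) := by norm_num [Cv]
    obtain ⟨s, hs, h⟩ := hm _ (hK _ _ _ r ⟨_, _, _, c3, rfl⟩)
    obtain ⟨t, ht, rfl⟩ := List.mem_map.1 hs
    refine ⟨t, ht, fun y hy => ⟨hnn y (hK _ _ _ r hy), fun v hv => ?_⟩⟩
    obtain ⟨α, β, γ, hy, rfl⟩ := hy
    have h1 := h.2 v hv
    have a1 := (hnn _ (hK _ _ _ r (tri_v a b c).1)).1 v
    have a2 := (hnn _ (hK _ _ _ r (tri_v a b c).2.1)).1 v
    have a3 := (hnn _ (hK _ _ _ r (tri_v a b c).2.2)).1 v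
    rw [ha _ _ _ r _ _ _ c3] at h1
    rw [ha _ _ _ r _ _ _ hy]
    simp only [Prod.fst_add, Prod.smul_fst, Pi.add_apply, Pi.smul_apply, smul_eq_mul] at h1 ⊢
    rw [show (f a).1 v = 0 by linarith, show (f b).1 v = 0 by linarith,
      show (f c).1 v = 0 by linarith]
    simp
  have lab : ∀ y, y ∈ K → tt (f y).1 ≠ τ → ∃ v, 0 < (f y).1 v ∧ (pl v ↔ ¬n y) := by
    intro y hy h
    by_contra hn
    push Not at hn
    have h0 := hnn y hy
    rcases lt_or_gt_of_ne h with h | h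
    · have : tt (f y).1 = 1 := tt_pos (s := (Finset.univ.filter pl).toList) (by simp)
        ⟨h0, fun v hv => le_antisymm (not_lt.1 fun h1 => by have := hn v h1; simp_all [n]) (h0.1 v)⟩
      linarith [hτ.2]
    · have : tt (f y).1 = 0 := tt_neg (s := (Finset.univ.filter fun v => ¬pl v).toList) (by simp)
        ⟨h0, fun v hv => le_antisymm (not_lt.1 fun h1 => by
          have := hn v h1; simp_all [n]; linarith) (h0.1 v)⟩
      linarith [hτ.1]
  choose! l hl using lab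
  have hl' : ∀ a b c, R a b c → (pl (l a) ↔ ¬n a) ∧ ∀ s, (f a).1 ∈ spx s → l a ∈ s :=
    fun a b c r => by
      have := hl a (hK _ _ _ r (tri_v a b c).1) (hne _ _ _ r)
      exact ⟨this.2, fun s hs => by_contra fun h => this.1.ne' (hs.2 _ h)⟩
  have supp' : ∀ a b c, R a b c → ∃ t ∈ LT, (∀ y ∈ Tri a b c, (f y).1 ∈ spx (tl t)) ∧
      l a ∈ tl t ∧ l b ∈ tl t ∧ l c ∈ tl t := fun a b c r => by
    obtain ⟨t, ht, h⟩ := supp a b c r
    exact ⟨t, ht, h, (hl' _ _ _ r).2 _ (h _ (tri_v a b c).1),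
      (hl' _ _ _ (S.rot r)).2 _ (h _ (tri_v a b c).2.1),
      (hl' _ _ _ (S.rot (S.rot r))).2 _ (h _ (tri_v a b c).2.2)⟩
  have sN : ∀ a b c, R a b c → n a → ¬n b → ∃ t ∈ NT, (∀ y ∈ Tri a b c, (f y).1 ∈ spx (tl t)) ∧
      l a ∈ tl t ∧ l b ∈ tl t ∧ l c ∈ tl t := fun a b c r i j => by
    obtain ⟨t, ht, h⟩ := supp' a b c r
    refine ⟨t, ?_, h⟩
    rcases mixed t ht with e | e | e
    · simpa using e
    · exact absurd i ((hl' _ _ _ r).1.1 (e _ h.2.1))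
    · exact absurd ((hl' _ _ _ (S.rot r)).1.2 j) (e _ h.2.2.1)
  have : Finite (Dt R n) := (S.fin.subset fun t (h : _ ∧ n t.1 ∧ ¬n t.2.1) => h.1).to_subtype
  let _ := Fintype.ofFinite (Dt R n)
  obtain ⟨ψ, hψi, hψ⟩ := S.next n
  set k : Dt R n → ℤ := fun d => kap (l d.1.1) (l (ψ d).1.1) with hk
  choose T hT hT1 hT2 hT3 hT4 using fun d : Dt R n => sN _ _ _ d.2.1 d.2.2.1 d.2.2.2
  have hT5 : ∀ d, l (ψ d).1.1 ∈ tl (T d) := fun d => by
    rcases hψ d with ⟨-, e, -⟩ | ⟨-, e, -⟩ <;> rw [e]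
    exacts [hT4 d, hT2 d]
  have hI : ∀ d, 3 ∣ ix (l d.1.1) + k d - ix (l (ψ d).1.1) := fun d =>
    (kap_N _ (hT d) _ (hT2 d) _ (hT5 d)).1
  have htt : ∀ a b c, R a b c → ∀ α β γ, Cv α β γ → tt (f (α • a + β • b + γ • c)).1 =
      α * tt (f a).1 + β * tt (f b).1 + γ * tt (f c).1 := fun a b c r α β γ h => by
    rw [ha _ _ _ r _ _ _ h]; exact tt_lin _ _ _ _ _ _
  have hZ : ∀ d, Z ψ k d = 0 := by
    refine S.zero hψi hψ (κ := fun a b => kap (l a) (l b)) (fun a b => kap_anti _ _)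
      (fun a b c r i j m => ?_) (fun a b c r i j m => ?_) (fun a b c r i j => ?_) fun d hd => ?_
    · obtain ⟨t, ht, -, h1, h2, h3⟩ := supp' a b c r
      exact kap_neg t ht _ h1 _ h2 _ h3 (fun h => (hl' _ _ _ r).1.1 h i)
        (fun h => (hl' _ _ _ (S.rot r)).1.1 h j) fun h => (hl' _ _ _ (S.rot (S.rot r))).1.1 h m
    · obtain ⟨t, ht, -, h1, h2, h3⟩ := supp' a b c r
      exact kap_pos t ht _ h1 _ h2 _ h3 ((hl' _ _ _ r).1.2 i) ((hl' _ _ _ (S.rot r)).1.2 j)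
        ((hl' _ _ _ (S.rot (S.rot r))).1.2 m)
    · obtain ⟨t, ht, -, h1, h2, h3⟩ := sN a b c r i j
      have := (kap_N t ht _ h1 _ h2).2 _ h3
      have := kap_anti (l a) (l c)
      omega
    have hq : ∀ d : Dt R n, ∃ r : ℝ, 0 < r ∧ r < 1 ∧
        (1 - r) * tt (f d.1.1).1 + r * tt (f d.1.2.1).1 = τ := fun d => by
      have h1 : tt (f d.1.1).1 < τ := d.2.2.1
      have h2 : τ < tt (f d.1.2.1).1 :=
        lt_of_le_of_ne (not_lt.1 d.2.2.2) (hne _ _ _ (S.rot d.2.1)).symm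
      have h3 : 0 < tt (f d.1.2.1).1 - tt (f d.1.1).1 := by linarith
      exact ⟨(τ - tt (f d.1.1).1) / (tt (f d.1.2.1).1 - tt (f d.1.1).1), div_pos (by linarith) h3,
        (div_lt_one h3).2 (by linarith), by field_simp; ring⟩
    choose r r0 r1 hr using hq
    let q : Dt R n → (V → ℝ) × ℝ := fun d => (1 - r d) • f d.1.1 + r d • f d.1.2.1
    have seg : ∀ (e : Dt R n) (s : ℝ), 0 ≤ s → s ≤ 1 → ∃ y ∈ Tri e.1.1 e.1.2.1 e.1.2.2,
        (s < 1 → Hf e y) ∧ f y = (1 - s) • q e + s • q (ψ e) ∧ tt (f y).1 = τ := by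
      intro e s s0 s1
      have a0 := r0 e
      have a1 := sub_pos.2 (r1 e)
      have b0 := r0 (ψ e)
      have b1 := sub_pos.2 (r1 (ψ e))
      have s2 := sub_nonneg.2 s1
      have h1 := hr e
      have h2 := hr (ψ e)
      rcases hψ e with ⟨-, e1, e2⟩ | ⟨-, e1, e2⟩ <;> rw [e1, e2] at h2
      · have c : Cv ((1 - s) * (1 - r e)) ((1 - s) * r e + s * r (ψ e)) (s * (1 - r (ψ e))) :=
          ⟨by positivity, by positivity, by positivity, by ring⟩
        refine ⟨_, ⟨_, _, _, c, rfl⟩, fun h => ⟨_, _, _, c, ?_, ?_, rfl⟩, ?_, ?_⟩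
        · have := sub_pos.2 h; positivity
        · have := sub_pos.2 h; positivity
        · rw [ha _ _ _ e.2.1 _ _ _ c]; simp only [q, e1, e2]; module
        · rw [htt _ _ _ e.2.1 _ _ _ c]; linear_combination (1 - s) * h1 + s * h2
      · have c : Cv ((1 - s) * (1 - r e) + s * (1 - r (ψ e))) ((1 - s) * r e) (s * r (ψ e)) :=
          ⟨by positivity, by positivity, by positivity, by ring⟩
        refine ⟨_, ⟨_, _, _, c, rfl⟩, fun h => ⟨_, _, _, c, ?_, ?_, rfl⟩, ?_, ?_⟩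
        · have := sub_pos.2 h; positivity
        · have := sub_pos.2 h; positivity
        · rw [ha _ _ _ e.2.1 _ _ _ c]; simp only [q, e1, e2]; module
        · rw [htt _ _ _ e.2.1 _ _ _ c]; linear_combination (1 - s) * h1 + s * h2
    let P : ℕ → ℂ := fun j => ⟨walk ψ k d j + lam (l (ψ^[j] d).1.1) (q (ψ^[j] d)).1, (q (ψ^[j] d)).2⟩
    have hP : ∀ (j : ℕ) (s : ℝ) (y : E), f y = (1 - s) • q (ψ^[j] d) + s • q (ψ (ψ^[j] d)) →
        ((1 - s : ℝ) : ℂ) * P j + s * P (j + 1) =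
          ⟨walk ψ k d j + lam (l (ψ^[j] d).1.1) (f y).1, (f y).2⟩ := by
      intro j s y hy
      obtain ⟨z, hz, -, hz', -⟩ := seg (ψ^[j] d) 1 zero_le_one le_rfl
      have h1 := lam_chg (hT _) (hT2 _) (hT5 _) (hT1 _ z hz)
      have h2 := lam_lin (l (ψ^[j] d).1.1) (1 - s) s 0 (q (ψ^[j] d)).1 (q (ψ (ψ^[j] d))).1 0
      simp only [sub_self, zero_smul, one_smul, zero_add, add_zero, zero_mul] at hz' h2
      rw [hz'] at h1
      apply Complex.ext <;>
        simp only [P, hy, Complex.add_re, Complex.add_im, Complex.re_ofReal_mul,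
          Complex.im_ofReal_mul, iterate_succ_apply', Prod.fst_add, Prod.smul_fst, Prod.snd_add,
          Prod.smul_snd, smul_eq_mul, h2, h1, walk, Finset.sum_range_succ, hk]
      push_cast
      ring
    obtain ⟨j, j', s, hs, s', hs', e⟩ := chord P
      (minimalPeriod_pos_of_mem_periodicPts (hψi.mem_periodicPts d)) (W := Z ψ k d)
      (by exact_mod_cast hd) (fun j => by
        have h1 : ψ^[j + minimalPeriod ψ d] d = ψ^[j] d := by
          rw [iterate_add_apply, (isPeriodicPt_minimalPeriod ψ d).eq]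
        have h2 : walk ψ k d (j + minimalPeriod ψ d) = walk ψ k d j + Z ψ k d := by
          rw [add_comm j, walk_add, walk_period hψi, (isPeriodicPt_minimalPeriod ψ d).eq, add_comm]
        apply Complex.ext <;> simp [P, h1, h2, add_right_comm]) 3
    obtain ⟨y, y1, y2, y3, y4⟩ := seg (ψ^[j] d) s hs.1 hs.2.le
    obtain ⟨y', z1, z2, z3, z4⟩ := seg (ψ^[j'] d) s' hs'.1 hs'.2.le
    rw [hP j s y y3, hP j' s' y' z3, Complex.ext_iff] at e
    simp only [Complex.add_re, Complex.add_im, Complex.ofReal_re, Complex.ofReal_im, add_zero] at e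
    have w3 : ∀ m, 3 ∣ ix (l d.1.1) + walk ψ k d m - ix (l (ψ^[m] d).1.1) := fun m => by
      induction m with
      | zero => simp [walk]
      | succ m ih =>
        have := hI (ψ^[m] d)
        simp only [walk, Finset.sum_range_succ, iterate_succ_apply'] at ih ⊢
        omega
    have e1 : (f y).1 = (f y').1 := level_inj (hT _) (hT _) (hT1 _ y y1) (hT1 _ y' z1) (hT2 _)
      (hT2 _) (y4 ▸ hτ.1.le) (y4 ▸ hτ.2.le) (z4.trans y4.symm) (k := ix (l (ψ^[j] d).1.1) -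
        ix (l (ψ^[j'] d).1.1) + walk ψ k d j' - walk ψ k d j - 3)
      (by have := w3 j; have := w3 j'; omega) (by push_cast; linarith [e.1])
    obtain rfl := hi (hK _ _ _ (ψ^[j] d).2.1 y1) (hK _ _ _ (ψ^[j'] d).2.1 z1) (Prod.ext e1 e.2.symm)
    have e2 := S.huniq (y2 hs.2) (z2 hs'.2)
    have e3 := Z_dvd' hψi k e2
    rw [e2] at e
    rwa [show walk ψ k d j' - walk ψ k d j = 3 by
      exact_mod_cast (by linarith [e.1] : (walk ψ k d j' - walk ψ k d j : ℝ) = 3)] at e3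
  obtain ⟨σ, hσ, hσ3⟩ := exists_pot hψi hZ hI
  let G : E → ℝ := fun y =>
    if h : ∃ d : Dt R n, Hf d y then 2 * π / 3 * (σ h.choose + lam (l h.choose.1.1) (f y).1) else 0
  have hG : ∀ d y, Hf d y → G y = 2 * π / 3 * (σ d + lam (l d.1.1) (f y).1) := fun d y h => by
    have h' : ∃ d : Dt R n, Hf d y := ⟨d, h⟩
    simp only [G, dif_pos h', S.huniq h'.choose_spec h]
  let C : Dt R n → Set E := fun d => Tri d.1.1 d.1.2.1 d.1.2.2 ∩ (fun y => tt (f y).1) ⁻¹' {τ}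
  have hG' : ∀ d, ∀ y ∈ C d, G y = 2 * π / 3 * (σ d + lam (l d.1.1) (f y).1) := by
    rintro d y ⟨hy, ht⟩
    obtain ⟨α, β, γ, c, e⟩ := id hy
    by_cases h : 0 < α ∧ 0 < β
    · exact hG d y ⟨α, β, γ, c, h.1, h.2, e⟩
    rw [hG (ψ d) y, hσ, lam_chg (hT d) (hT2 d) (hT5 d) (hT1 d y hy)]
    · push_cast; ring
    have h1 : tt (f d.1.1).1 < τ := d.2.2.1
    have h2 : τ < tt (f d.1.2.1).1 :=
      lt_of_le_of_ne (not_lt.1 d.2.2.2) (hne _ _ _ (S.rot d.2.1)).symm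
    have h3 := (htt _ _ _ d.2.1 _ _ _ c).symm.trans (e ▸ ht)
    have h4 := hne _ _ _ (S.rot (S.rot d.2.1))
    obtain ⟨i, j, m, o⟩ := id c
    rcases hψ d with ⟨p, e1, e2⟩ | ⟨p, e1, e2⟩
    · obtain ⟨b, b', -⟩ := c.two (y := τ - tt (f d.1.2.1).1) (by linear_combination τ * o - h3)
        (sub_pos.2 h1) (sub_pos.2 p)
      obtain rfl : α = 0 := le_antisymm (not_lt.1 fun a => h ⟨a, b⟩) i
      exact ⟨γ, β, 0, ⟨m, j, le_rfl, by linarith⟩, b' rfl (sub_neg.2 h2).ne, b,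
        by rw [e, e1, e2]; module⟩
    · obtain ⟨a, -, a'⟩ := c.rot.rot.two (y := tt (f d.1.1).1 - τ) (by linear_combination h3 - τ * o)
        (sub_pos.2 (lt_of_le_of_ne (not_lt.1 p) h4.symm)) (sub_pos.2 h2)
      obtain rfl : β = 0 := le_antisymm (not_lt.1 fun b => h ⟨a, b⟩) j
      exact ⟨α, γ, 0, ⟨i, m, le_rfl, by linarith⟩, a, a' rfl (sub_neg.2 h1).ne,
        by rw [e, e1, e2]; module⟩
  obtain ⟨h1, h2⟩ := contOn_list Finset.univ.toList C (fun d =>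
    (tt_cont.comp_continuousOn (hc.mono (hK _ _ _ d.2.1)).fst).preimage_isClosed_of_isClosed
      (tri_closed _ _ _) isClosed_singleton) (f := G) fun d _ =>
    (continuousOn_const.mul (continuousOn_const.add ((lam_cont _).comp_continuousOn
      ((hc.mono (hK _ _ _ d.2.1)).mono inter_subset_left).fst))).congr (hG' d)
  obtain ⟨G', g1, g2⟩ := tietze h1 h2
  refine ⟨G', g1, fun y hy ht => ?_⟩
  obtain ⟨d, hd⟩ : ∃ d, y ∈ C d := by
    obtain ⟨a, b, c, r, α, β, γ, h, e⟩ := (S.cov y).1 hy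
    have h3 := (htt _ _ _ r _ _ _ h).symm.trans (e ▸ ht)
    have n1 := hne _ _ _ r
    have n2 := hne _ _ _ (S.rot r)
    have n3 := hne _ _ _ (S.rot (S.rot r))
    by_cases p1 : n a ∧ ¬n b
    · exact ⟨⟨(a, b, c), r, p1⟩, ⟨α, β, γ, h, e⟩, ht⟩
    by_cases p2 : n b ∧ ¬n c
    · exact ⟨⟨(b, c, a), S.rot r, p2⟩, ⟨β, γ, α, h.rot, by rw [e]; abel⟩, ht⟩
    by_cases p3 : n c ∧ ¬n a
    · exact ⟨⟨(c, a, b), S.rot (S.rot r), p3⟩, ⟨γ, α, β, h.rot.rot, by rw [e]; abel⟩, ht⟩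
    exfalso
    by_cases p : n a
    · exact (h.pos (sub_pos.2 p) (sub_pos.2 (show n b by tauto))
        (sub_pos.2 (show n c by tauto))).ne' (by linear_combination τ * h.2.2.2 - h3)
    · exact (h.pos (sub_pos.2 (lt_of_le_of_ne (not_lt.1 p) n1.symm))
        (sub_pos.2 (lt_of_le_of_ne (not_lt.1 (show ¬n b by tauto)) n2.symm))
        (sub_pos.2 (lt_of_le_of_ne (not_lt.1 (show ¬n c by tauto)) n3.symm))).ne'
        (by linear_combination h3 - τ * h.2.2.2)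
  rw [g2 ⟨d, by simp, hd⟩, hG' d y hd, ← (th_lift (hT d) (hT2 d)).2 _ (hT1 d y hd.1)]
  exact ang3 (hσ3 d) (by push_cast; ring)

end Pool.Agent.Lib.Z78
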