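import Pool.Agent.Lib.MP_e11f15_gt.Cx

open Set

namespace Pool.Agent.Lib.Z78

open Pool.Agent.Lib.MP_e11f15_gt

def Cv (α β γ : ℝ) : Prop := 0 ≤ α ∧ 0 ≤ β ∧ 0 ≤ γ ∧ α + β + γ = 1

theorem Cv.rot {α β γ : ℝ} (h : Cv α β γ) : Cv β γ α := ⟨h.2.1, h.2.2.1, h.1, by linarith [h.2.2.2]⟩

variable {E : Type} [NormedAddCommGroup E] [NormedSpace ℝ E]

/-- An oriented triangulated closed surface without first cohomology. -/
structure Surf (K : Set E) (R : E → E → E → Prop) : Prop where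
  fin : {t : E × E × E | R t.1 t.2.1 t.2.2}.Finite
  rot : ∀ {a b c}, R a b c → R b c a
  nd : ∀ {a b c}, R a b c → a ≠ b
  uniq : ∀ {a b c d}, R a b c → R a b d → c = d
  opp : ∀ {a b c}, R a b c → ∃ d, R b a d
  anti : ∀ {a b c}, R a b c → ¬R b a c
  h0 : ∀ g : E → ℤ, (∀ a b c, R a b c → g a = g b) → ∃ m, ∀ a b c, R a b c → g a = m
  h1 : ∀ k : E → E → ℤ, (∀ a b, k b a = -k a b) → (∀ a b c, R a b c → k a b + k b c + k c a = 0) →
    ∃ g : E → ℤ, ∀ a b c, R a b c → k a b = g b - g a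
  cov : ∀ x, x ∈ K ↔ ∃ a b c, R a b c ∧ ∃ α β γ, Cv α β γ ∧ x = α • a + β • b + γ • c
  itp : ∀ g : E → ℝ, ∃ G : E → ℝ, ∀ a b c, R a b c → ∀ α β γ, Cv α β γ →
    G (α • a + β • b + γ • c) = α * g a + β * g b + γ * g c

def Nw (u v w z p a b c : E) : Prop :=
  a = p ∧ ((b = v ∧ c = w) ∨ (b = w ∧ c = u) ∨ (b = u ∧ c = z) ∨ (b = z ∧ c = v))

def Old (R : E → E → E → Prop) (u v a b c : E) : Prop :=
  R a b c ∧ ¬((a = u ∨ b = u ∨ c = u) ∧ (a = v ∨ b = v ∨ c = v))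

def Sub (R : E → E → E → Prop) (u v w z p a b c : E) : Prop :=
  Old R u v a b c ∨ Nw u v w z p a b c ∨ Nw u v w z p b c a ∨ Nw u v w z p c a b

variable {K : Set E} {R : E → E → E → Prop} {u v w z p : E} {s : ℝ}

theorem Sub.ind {Q : E → E → E → Prop} (hQ : ∀ a b c, Q a b c → Q b c a)
    (h0 : ∀ a b c, Old R u v a b c → Q a b c) (h1 : Q p v w) (h2 : Q p w u) (h3 : Q p u z)
    (h4 : Q p z v) : ∀ a b c, Sub R u v w z p a b c → Q a b c := by
  have : ∀ a b c, Nw u v w z p a b c → Q a b c := by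
    rintro a b c ⟨rfl, ⟨rfl, rfl⟩ | ⟨rfl, rfl⟩ | ⟨rfl, rfl⟩ | ⟨rfl, rfl⟩⟩ <;> assumption
  rintro a b c (h | h | h | h)
  exacts [h0 _ _ _ h, this _ _ _ h, hQ _ _ _ (hQ _ _ _ (this _ _ _ h)), hQ _ _ _ (this _ _ _ h)]

theorem Surf.ind (S : Surf K R) (h : R u v w) (h' : R v u z) {Q : E → E → E → Prop}
    (hQ : ∀ a b c, Q a b c → Q b c a) (h0 : ∀ a b c, Old R u v a b c → Q a b c) (h1 : Q u v w)
    (h2 : Q v u z) : ∀ a b c, R a b c → Q a b c := by
  intro a b c r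
  by_cases hb : (a = u ∨ b = u ∨ c = u) ∧ (a = v ∨ b = v ∨ c = v)
  swap
  · exact h0 _ _ _ ⟨r, hb⟩
  have n := S.nd h
  obtain ⟨rfl | rfl | rfl, rfl | rfl | rfl⟩ := hb
  · exact absurd rfl n
  · rwa [S.uniq r h]
  · rw [S.uniq (S.rot (S.rot r)) h']; exact hQ _ _ _ h2
  · rwa [S.uniq r h']
  · exact absurd rfl n
  · rw [S.uniq (S.rot r) h]; exact hQ _ _ _ (hQ _ _ _ h1)
  · rw [S.uniq (S.rot (S.rot r)) h]; exact hQ _ _ _ h1
  · rw [S.uniq (S.rot r) h']; exact hQ _ _ _ (hQ _ _ _ h2)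
  · exact absurd rfl n

theorem split_pt (h0 : 0 < s) (h1 : s < 1) (hp : p = (1 - s) • u + s • v) (y : E) {α β γ : ℝ}
    (h : Cv α β γ) : ∃ α' β', Cv α' β' γ ∧ (α • u + β • v + γ • y = α' • p + β' • v + γ • y ∨
      α • u + β • v + γ • y = α' • p + β' • u + γ • y) := by
  obtain ⟨a, b, c, d⟩ := h
  have h2 : 0 < 1 - s := by linarith
  rcases le_total (α * s) (β * (1 - s)) with e | e
  · obtain ⟨m, rfl⟩ : ∃ m, α = m * (1 - s) := ⟨α / (1 - s), by field_simp⟩
    refine ⟨m, β - m * s, ⟨by nlinarith, by nlinarith, c, by linarith⟩, Or.inl ?_⟩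
    rw [hp]; module
  · obtain ⟨m, rfl⟩ : ∃ m, β = m * s := ⟨β / s, by field_simp⟩
    refine ⟨m, α - m * (1 - s), ⟨by nlinarith, by nlinarith, c, by linarith⟩, Or.inr ?_⟩
    rw [hp]; module

theorem Surf.fresh (S : Surf K R) (h : R u v w) (h0 : 0 < s) (h1 : s < 1)
    (hp : p = (1 - s) • u + s • v) : ∀ a b c, R a b c → a ≠ p := by
  classical
  rintro a b c r rfl
  obtain ⟨G, hG⟩ := S.itp fun x => if x = a then 1 else 0
  have e1 := hG a b c r 1 0 0 (by simp [Cv])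
  have e2 := hG u v w h (1 - s) s 0 ⟨by linarith, h0.le, le_rfl, by ring⟩
  simp only [one_smul, zero_smul, add_zero, if_true, mul_one, zero_mul, ← hp] at e1 e2
  have := S.nd h
  rw [e1] at e2
  split_ifs at e2 with i j j
  · exact this (i.trans j.symm)
  all_goals linarith

theorem Surf.sub (S : Surf K R) (h : R u v w) (h' : R v u z) (h0 : 0 < s) (h1 : s < 1)
    (hp : p = (1 - s) • u + s • v) : Surf K (Sub R u v w z p) := by
  classical
  have hf := S.fresh h h0 h1 hp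
  have r1 := S.rot h
  have r2 := S.rot r1
  have r3 := S.rot h'
  have r4 := S.rot r3
  have n1 := S.nd h
  have n2 := S.nd r1
  have n3 := S.nd r2
  have n4 := S.nd r3
  have n5 := S.nd r4
  have n6 : w ≠ z := fun e => S.anti h (e ▸ h')
  have p1 := hf _ _ _ h
  have p2 := hf _ _ _ r1
  have p3 := hf _ _ _ r2
  have p4 := hf _ _ _ r4
  have t1 : Sub R u v w z p p v w := Or.inr (Or.inl (by simp [Nw]))
  have t2 : Sub R u v w z p p w u := Or.inr (Or.inl (by simp [Nw]))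
  have t3 : Sub R u v w z p p u z := Or.inr (Or.inl (by simp [Nw]))
  have t4 : Sub R u v w z p p z v := Or.inr (Or.inl (by simp [Nw]))
  have hf3 : ∀ a b c, R a b c → a ≠ p ∧ b ≠ p ∧ c ≠ p := fun a b c r =>
    ⟨hf _ _ _ r, hf _ _ _ (S.rot r), hf _ _ _ (S.rot (S.rot r))⟩
  have rot : ∀ {a b c}, Sub R u v w z p a b c → Sub R u v w z p b c a := by
    rintro a b c (⟨r, e⟩ | e | e | e)
    · exact Or.inl ⟨S.rot r, by tauto⟩
    · exact Or.inr (Or.inr (Or.inr e))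
    · exact Or.inr (Or.inl e)
    · exact Or.inr (Or.inr (Or.inl e))
  have cs : ∀ {α β : ℝ}, 0 ≤ α → 0 ≤ β → 0 ≤ α * (1 - s) + β ∧ 0 ≤ α * s + β := fun a b =>
    ⟨by nlinarith, by nlinarith⟩
  refine ⟨?_, rot, ?_, ?_, ?_, ?_, fun g hg => ?_, fun k hk hc => ?_, fun x => ?_, fun g => ?_⟩
  · refine (S.fin.union (Set.toFinite (({u, v, w, z, p} : Set E) ×ˢ ({u, v, w, z, p} : Set E) ×ˢ
      ({u, v, w, z, p} : Set E)))).subset ?_
    rintro ⟨a, b, c⟩ (e | e | e | e)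
    · exact Or.inl e.1
    all_goals
      right
      rcases e with ⟨rfl, ⟨rfl, rfl⟩ | ⟨rfl, rfl⟩ | ⟨rfl, rfl⟩ | ⟨rfl, rfl⟩⟩ <;> simp
  · intro a b c e
    refine (Sub.ind (Q := fun a b c => a ≠ b ∧ b ≠ c ∧ c ≠ a) (fun a b c e => ⟨e.2.1, e.2.2, e.1⟩)
      (fun a b c e => ⟨S.nd e.1, S.nd (S.rot e.1), S.nd (S.rot (S.rot e.1))⟩) ?_ ?_ ?_ ?_
      a b c e).1 <;> grind
  · rintro a b c d (⟨r, e⟩ | e) (⟨r', e'⟩ | e')
    · exact S.uniq r r'
    · have := hf3 _ _ _ r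
      have := @S.uniq a b c
      grind [Nw]
    · have := hf3 _ _ _ r'
      have := @S.uniq a b d
      grind [Nw]
    · grind [Nw]
  · rintro a b c e
    have key : ∀ a b c, R a b c → ¬((a = u ∧ b = v) ∨ (a = v ∧ b = u)) →
        ∃ d, Sub R u v w z p a b d := fun a b c r =>
      (S.ind h h' (Q := fun a b c => (¬((a = u ∧ b = v) ∨ (a = v ∧ b = u)) →
        ∃ d, Sub R u v w z p a b d) ∧ (¬((b = u ∧ c = v) ∨ (b = v ∧ c = u)) →
        ∃ d, Sub R u v w z p b c d) ∧ (¬((c = u ∧ a = v) ∨ (c = v ∧ a = u)) →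
        ∃ d, Sub R u v w z p c a d)) (fun a b c e => ⟨e.2.1, e.2.2, e.1⟩)
        (fun a b c e => ⟨fun _ => ⟨_, Or.inl e⟩, fun _ => ⟨_, rot (Or.inl e)⟩,
          fun _ => ⟨_, rot (rot (Or.inl e))⟩⟩)
        ⟨by simp, fun _ => ⟨_, rot t1⟩, fun _ => ⟨_, rot t2⟩⟩
        ⟨by simp, fun _ => ⟨_, rot t3⟩, fun _ => ⟨_, rot t4⟩⟩ a b c r).1
    have key' : ∀ a b c, R a b c → ¬((a = u ∧ b = v) ∨ (a = v ∧ b = u)) →
        ∃ d, Sub R u v w z p b a d := fun a b c r e => by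
      obtain ⟨d, hd⟩ := S.opp r
      exact key _ _ _ hd (by tauto)
    refine (Sub.ind (Q := fun a b c => (∃ d, Sub R u v w z p b a d) ∧ (∃ d, Sub R u v w z p c b d) ∧
      ∃ d, Sub R u v w z p a c d) (fun a b c e => ⟨e.2.1, e.2.2, e.1⟩)
      (fun a b c e => ⟨key' _ _ _ e.1 ?_, key' _ _ _ (S.rot e.1) ?_,
        key' _ _ _ (S.rot (S.rot e.1)) ?_⟩)
      ⟨⟨_, rot (rot t4)⟩, key' _ _ _ r1 (by grind), _, t2⟩
      ⟨⟨_, rot (rot t1)⟩, key' _ _ _ r2 (by grind), _, t3⟩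
      ⟨⟨_, rot (rot t2)⟩, key' _ _ _ r3 (by grind), _, t4⟩
      ⟨⟨_, rot (rot t3)⟩, key' _ _ _ r4 (by grind), _, t1⟩ a b c e).1 <;>
    · have := e.2; tauto
  · rintro a b c (⟨r, e⟩ | e) (⟨r', e'⟩ | e')
    · exact S.anti r r'
    · have := hf3 _ _ _ r
      grind [Nw]
    · have := hf3 _ _ _ r'
      grind [Nw]
    · grind [Nw]
  · have a1 := hg _ _ _ t1
    have a2 := hg _ _ _ t2
    have a3 := hg _ _ _ t3
    have a4 := hg _ _ _ t4
    obtain ⟨m, hm⟩ := S.h0 g fun a b c r => (S.ind h h' (Q := fun a b c => g a = g b ∧ g b = g c)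
      (fun a b c e => ⟨e.2, (e.1.trans e.2).symm⟩)
      (fun a b c e => ⟨hg _ _ _ (Or.inl e), hg _ _ _ (rot (Or.inl e))⟩) (by omega) (by omega)
      a b c r).1
    have := hm _ _ _ h
    refine ⟨m, fun a b c e => (Sub.ind (Q := fun a b c => g a = m ∧ g b = m ∧ g c = m)
      (fun a b c e => ⟨e.2.1, e.2.2, e.1⟩) (fun a b c e => ⟨hm _ _ _ e.1, hm _ _ _ (S.rot e.1),
        hm _ _ _ (S.rot (S.rot e.1))⟩) ?_ ?_ ?_ ?_ a b c e).1⟩ <;> omega
  · have a1 := hc _ _ _ t1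
    have a2 := hc _ _ _ t2
    have a3 := hc _ _ _ t3
    have a4 := hc _ _ _ t4
    have b1 := hk p u
    have b2 := hk p v
    have b3 := hk p w
    have b4 := hk p z
    have b5 := hk u v
    let k0 : E → E → ℤ := fun a b => k a b + (k u p + k p v - k u v) *
      ((if a = u ∧ b = v then 1 else 0) - if b = u ∧ a = v then 1 else 0)
    have e0 : ∀ a b, ¬((a = u ∧ b = v) ∨ (b = u ∧ a = v)) → k0 a b = k a b := fun a b e => by
      simp [k0, (not_or.1 e).1, (not_or.1 e).2]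
    obtain ⟨g, hg⟩ := S.h1 k0 (fun a b => by simp only [k0, hk a b]; ring)
      (S.ind h h' (fun a b c e => by omega) (fun a b c e => by
        have := e.2
        rw [e0 a b (by tauto), e0 b c (by tauto), e0 c a (by tauto), hc _ _ _ (Or.inl e)])
        (by rw [e0 v w (by grind), e0 w u (by grind)]; simp [k0, n1]; omega)
        (by rw [e0 u z (by grind), e0 z v (by grind)]; simp [k0, n1.symm]; omega))
    have c0 := hg _ _ _ h
    have c1 := hg _ _ _ r1
    have c2 := hg _ _ _ r2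
    have c3 := hg _ _ _ r3
    have c4 := hg _ _ _ r4
    rw [e0 _ _ (by grind)] at c1 c2 c3 c4
    simp [k0, n1] at c0
    refine ⟨Function.update g p (g u + k u p), fun a b c e => (Sub.ind (Q := fun a b c =>
      let G := Function.update g p (g u + k u p)
      k a b = G b - G a ∧ k b c = G c - G b ∧ k c a = G a - G c)
      (fun a b c e => ⟨e.2.1, e.2.2, e.1⟩) (fun a b c e => ?_) ?_ ?_ ?_ ?_ a b c e).1⟩
    · obtain ⟨i, j, l⟩ := hf3 _ _ _ e.1
      have := e.2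
      simp only [Function.update_of_ne, i, j, l, ne_eq, not_false_eq_true]
      rw [← e0 a b (by tauto), ← e0 b c (by tauto), ← e0 c a (by tauto)]
      exact ⟨hg _ _ _ e.1, hg _ _ _ (S.rot e.1), hg _ _ _ (S.rot (S.rot e.1))⟩
    all_goals
      simp only [Function.update_of_ne, Function.update_self, p1, p2, p3, p4, ne_eq,
        not_false_eq_true]
      omega
  · have hQ : ∀ (T : E → E → E → Prop), (∀ {a b c}, T a b c → T b c a) → ∀ a b c,
        (∀ α β γ, Cv α β γ → x = α • a + β • b + γ • c →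
          ∃ a b c, T a b c ∧ ∃ α β γ, Cv α β γ ∧ x = α • a + β • b + γ • c) →
        ∀ α β γ, Cv α β γ → x = α • b + β • c + γ • a →
          ∃ a b c, T a b c ∧ ∃ α β γ, Cv α β γ ∧ x = α • a + β • b + γ • c :=
      fun T _ a b c e α β γ hc hx => e γ α β hc.rot.rot (by rw [hx]; abel)
    rw [S.cov]
    constructor
    · rintro ⟨a, b, c, r, α, β, γ, hc, hx⟩
      refine S.ind h h' (hQ _ rot) (fun a b c e α β γ hc hx => ⟨a, b, c, Or.inl e, α, β, γ, hc, hx⟩)
        (fun α β γ hc hx => ?_) (fun α β γ hc hx => ?_) a b c r α β γ hc hx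
      · obtain ⟨α', β', hc', e | e⟩ := split_pt h0 h1 hp w hc
        · exact ⟨_, _, _, t1, _, _, _, hc', hx.trans e⟩
        · exact ⟨_, _, _, t2, α', γ, β', ⟨hc'.1, hc.2.2.1, hc'.2.1, by linarith [hc'.2.2.2]⟩,
            by rw [hx, e]; abel⟩
      · obtain ⟨α', β', hc', e | e⟩ := split_pt h0 h1 hp z (α := β) (β := α) (γ := γ)
          ⟨hc.2.1, hc.1, hc.2.2.1, by linarith [hc.2.2.2]⟩
        · exact ⟨_, _, _, t4, α', γ, β', ⟨hc'.1, hc.2.2.1, hc'.2.1, by linarith [hc'.2.2.2]⟩,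
            by rw [hx, add_comm (α • v), e]; abel⟩
        · exact ⟨_, _, _, t3, _, _, _, hc', by rw [hx, add_comm (α • v), e]⟩
    · rintro ⟨a, b, c, r, α, β, γ, hc, hx⟩
      refine Sub.ind (hQ _ S.rot) (fun a b c e α β γ hc hx => ⟨a, b, c, e.1, α, β, γ, hc, hx⟩)
        ?_ ?_ ?_ ?_ a b c r α β γ hc hx <;> rintro α β γ ⟨i, j, l, m⟩ hx
      · exact ⟨_, _, _, h, α * (1 - s), α * s + β, γ, ⟨by nlinarith, (cs i j).2, l, by linarith⟩,
          by rw [hx, hp]; module⟩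
      · exact ⟨_, _, _, h, α * (1 - s) + γ, α * s, β, ⟨(cs i l).1, by nlinarith, j, by linarith⟩,
          by rw [hx, hp]; module⟩
      · exact ⟨_, _, _, h', α * s, α * (1 - s) + β, γ, ⟨by nlinarith, (cs i j).1, l, by linarith⟩,
          by rw [hx, hp]; module⟩
      · exact ⟨_, _, _, h', α * s + γ, α * (1 - s), β, ⟨(cs i l).2, by nlinarith, j, by linarith⟩,
          by rw [hx, hp]; module⟩
  · obtain ⟨G, hG⟩ := S.itp g
    obtain ⟨U, hU⟩ := S.itp fun x => if x = u then s else 0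
    obtain ⟨W, hW⟩ := S.itp fun x => if x = v then 1 - s else 0
    have h2 : 0 < 1 - s := by linarith
    let D := (g p - (1 - s) * g u - s * g v) / (s * (1 - s))
    have hD : g p = (1 - s) * g u + s * g v + D * (s * (1 - s)) := by
      simp only [D]; field_simp; ring
    have key : ∀ y α β γ, (R u v y ∨ R v u y) → Cv α β γ → G (α • u + β • v + γ • y) + D *
        min (U (α • u + β • v + γ • y)) (W (α • u + β • v + γ • y)) =
        α * g u + β * g v + γ * g y + D * min (α * s) (β * (1 - s)) := by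
      rintro y α β γ (r | r) hc
      · rw [hG _ _ _ r _ _ _ hc, hU _ _ _ r _ _ _ hc, hW _ _ _ r _ _ _ hc]
        simp [n1, n1.symm, (S.nd (S.rot r)).symm, S.nd (S.rot (S.rot r))]
      · have hc' : Cv β α γ := ⟨hc.2.1, hc.1, hc.2.2.1, by linarith [hc.2.2.2]⟩
        rw [add_comm (α • u), hG _ _ _ r _ _ _ hc', hU _ _ _ r _ _ _ hc', hW _ _ _ r _ _ _ hc']
        simp [n1, n1.symm, (S.nd (S.rot r)).symm, S.nd (S.rot (S.rot r)), add_comm]
    refine ⟨fun x => G x + D * min (U x) (W x), Sub.ind (fun a b c e α β γ hc => ?_)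
      (fun a b c e α β γ hc => ?_) ?_ ?_ ?_ ?_⟩
    · have := e γ α β hc.rot.rot
      rw [show α • b + β • c + γ • a = γ • a + α • b + β • c by abel, this]; ring
    · obtain ⟨i, j, l, -⟩ := id hc
      have hm : min (U (α • a + β • b + γ • c)) (W (α • a + β • b + γ • c)) = 0 := by
        rw [hU _ _ _ e.1 _ _ _ hc, hW _ _ _ e.1 _ _ _ hc]
        rcases not_and_or.1 e.2 with n | n <;> simp only [not_or] at n <;>
          simp only [n.1, n.2.1, n.2.2, if_false, mul_zero, add_zero]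
        · refine min_eq_left ?_
          split_ifs <;> positivity
        · refine min_eq_right ?_
          split_ifs <;> positivity
      simp only [hm, hG _ _ _ e.1 _ _ _ hc, mul_zero, add_zero]
    all_goals
      rintro α β γ ⟨i, j, l, m⟩
      beta_reduce
    · rw [show α • p + β • v + γ • w = (α * (1 - s)) • u + (α * s + β) • v + γ • w by
        rw [hp]; module, key _ _ _ _ (Or.inl h) ⟨by nlinarith, (cs i j).2, l, by linarith⟩,
        min_eq_left (by nlinarith), hD]; ring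
    · rw [show α • p + β • w + γ • u = (α * (1 - s) + γ) • u + (α * s) • v + β • w by
        rw [hp]; module, key _ _ _ _ (Or.inl h) ⟨(cs i l).1, by nlinarith, j, by linarith⟩,
        min_eq_right (by nlinarith), hD]; ring
    · rw [show α • p + β • u + γ • z = (α * (1 - s) + β) • u + (α * s) • v + γ • z by
        rw [hp]; module, key _ _ _ _ (Or.inr h') ⟨(cs i j).1, by nlinarith, l, by linarith⟩,
        min_eq_right (by nlinarith), hD]; ring
    · rw [show α • p + β • z + γ • v = (α * (1 - s)) • u + (α * s + γ) • v + β • z by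
        rw [hp]; module, key _ _ _ _ (Or.inr h') ⟨by nlinarith, (cs i l).2, j, by linarith⟩,
        min_eq_left (by nlinarith), hD]; ring

end Pool.Agent.Lib.Z78
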