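import Pool.Agent.Lib.Z78.Line
import Pool.Agent.Lib.Z78.Surf

open Set Real

namespace Pool.Agent.Lib.Z78

open Pool.Agent.Lib.MP_e11f15_gt

def AA : Fin 3 → V := ![0, 1, 2]
def BB : Fin 3 → V := ![6, 7, 8]

theorem spx3 {p q r : V} (h : [p, q, r].Nodup) {x : V → ℝ} :
    x ∈ spx [p, q, r] ↔ ∃ α β γ, Cv α β γ ∧ x = α • ev p + β • ev q + γ • ev r := by
  have h' := h
  simp only [List.nodup_cons, List.mem_cons, List.not_mem_nil, or_false, not_or] at h'
  obtain ⟨⟨a, b⟩, c, -⟩ := h'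
  constructor
  · intro hx
    refine ⟨x p, x q, x r, ⟨hx.1.1 p, hx.1.1 q, hx.1.1 r, by simpa [add_assoc] using sum_spx h hx⟩,
      funext fun v => ?_⟩
    have := hx.2 v
    simp only [Pi.add_apply, Pi.smul_apply, Pi.single_apply, smul_eq_mul]
    grind
  · rintro ⟨α, β, γ, ⟨i, j, l, m⟩, rfl⟩
    refine ⟨⟨fun v => ?_, ?_⟩, fun v hv => ?_⟩
    · simp only [Pi.add_apply, Pi.smul_apply, Pi.single_apply, smul_eq_mul]
      split_ifs <;> positivity
    · simp [Finset.sum_add_distrib, Pi.single_apply, m]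
    · simp only [List.mem_cons, List.not_mem_nil, or_false, not_or] at hv
      simp [hv.1, hv.2.1, hv.2.2]

theorem tt_lin (α β γ : ℝ) (x y z : V → ℝ) :
    tt (α • x + β • y + γ • z) = α * tt x + β * tt y + γ * tt z := by
  simp only [tt, Finset.mul_sum, ← Finset.sum_add_distrib]
  refine Finset.sum_congr rfl fun v _ => ?_
  split_ifs <;> simp

theorem lam_lin (a : V) (α β γ : ℝ) (x y z : V → ℝ) :
    lam a (α • x + β • y + γ • z) = α * lam a x + β * lam a y + γ * lam a z := by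
  simp only [lam, Finset.mul_sum, ← Finset.sum_add_distrib]
  refine Finset.sum_congr rfl fun v _ => ?_
  simp only [Pi.add_apply, Pi.smul_apply, smul_eq_mul]
  ring

theorem tt_ev (v : V) : tt (ev v) = if pl v then 1 else 0 := by
  simp only [tt, Pi.single_apply]
  rw [Finset.sum_eq_single v (fun b _ h => by simp [h]) (by simp)]
  simp

theorem lam_ev (a v : V) : lam a (ev v) = kap a v := by simp [lam, Pi.single_apply]

noncomputable def gam (τ : ℝ) (i : Fin 3) (σ : ℝ) : V → ℝ :=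
  (1 - τ - min σ (1 - τ)) • ev (AA i) + min σ (1 - τ) • ev (AA (i + 1)) +
    (τ - (σ - min σ (1 - τ))) • ev (BB i) + (σ - min σ (1 - τ)) • ev (BB (i + 1))

theorem nt_type : ∀ t ∈ NT, ∃ i, BB i ∈ tl t ∧ ((∀ v ∈ tl t, v ∈ [AA i, AA (i + 1), BB i]) ∨
    ∀ v ∈ tl t, v ∈ [BB i, AA (i + 1), BB (i + 1)]) := by decide +kernel

theorem ab : ∀ i, kap (BB i) (AA i) = 0 ∧ kap (BB i) (AA (i + 1)) = 1 ∧ kap (BB i) (BB i) = 0 ∧
    kap (BB i) (BB (i + 1)) = 1 ∧ ix (BB i) = i.val ∧ ¬pl (AA i) ∧ pl (BB i) ∧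
    [AA i, AA (i + 1), BB i].Nodup ∧ [BB i, AA (i + 1), BB (i + 1)].Nodup := by decide +kernel

theorem level_par {t : V × V × V} (ht : t ∈ NT) {x : V → ℝ} (hx : x ∈ spx (tl t)) {a : V}
    (ha : a ∈ tl t) : ∃ (i : Fin 3) (σ : ℝ) (k : ℤ), 0 ≤ σ ∧ σ ≤ 1 ∧ x = gam (tt x) i σ ∧
      ix a + lam a x = i.val + σ + 3 * k := by
  obtain ⟨i, hb, h⟩ := nt_type t ht
  obtain ⟨k, hk⟩ := (kap_N t ht a ha _ hb).1
  obtain ⟨k1, k2, k3, k4, k5, k6, k7, k8, k9⟩ := ab i
  have k6' := (ab (i + 1)).2.2.2.2.2.1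
  have k7' := (ab (i + 1)).2.2.2.2.2.2.1
  refine ⟨i, lam (BB i) x, k, ?_⟩
  rw [← and_assoc, ← and_assoc]
  refine ⟨?_, ?_⟩
  · rcases h with h | h
    · obtain ⟨α, β, γ, ⟨c1, c2, c3, c4⟩, rfl⟩ := (spx3 k8).1 (spx_mono h hx)
      simp only [lam_lin, tt_lin, lam_ev, tt_ev, k1, k2, k3, k6, k6', k7, gam, if_true, if_false,
        Int.cast_zero, Int.cast_one, mul_zero, mul_one, zero_add, add_zero]
      rw [min_eq_left (by linarith), show 1 - γ - β = α by linarith]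
      exact ⟨⟨c2, by linarith⟩, by simp⟩
    · obtain ⟨α, β, γ, ⟨c1, c2, c3, c4⟩, rfl⟩ := (spx3 k9).1 (spx_mono h hx)
      simp only [lam_lin, tt_lin, lam_ev, tt_ev, k2, k3, k4, k6', k7, k7', gam, if_true, if_false,
        Int.cast_zero, Int.cast_one, mul_zero, mul_one, zero_add, add_zero]
      rw [min_eq_right (by linarith), show 1 - (α + γ) = β by linarith]
      exact ⟨⟨by linarith, by linarith⟩, by module⟩
  · rw [lam_chg ht ha hb hx]
    rw [k5] at hk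
    have : ((ix a + kap a (BB i) - i.val : ℤ) : ℝ) = (3 * k : ℤ) := by rw [hk]
    push_cast at this
    linarith

theorem level_inj {t t' : V × V × V} (ht : t ∈ NT) (ht' : t' ∈ NT) {x x' : V → ℝ}
    (hx : x ∈ spx (tl t)) (hx' : x' ∈ spx (tl t')) {a a' : V} (ha : a ∈ tl t) (ha' : a' ∈ tl t')
    (h0 : 0 ≤ tt x) (h1 : tt x ≤ 1) (e : tt x' = tt x) {k : ℤ} (hk : 3 ∣ k)
    (h : ix a + lam a x = ix a' + lam a' x' + k) : x = x' := by
  obtain ⟨i, σ, m, a1, a2, a3, a4⟩ := level_par ht hx ha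
  obtain ⟨i', σ', m', b1, b2, b3, b4⟩ := level_par ht' hx' ha'
  obtain ⟨k, rfl⟩ := hk
  rw [a3, b3, e]
  have hg : ∀ j, gam (tt x) j 1 = gam (tt x) (j + 1) 0 := fun j => by
    simp only [gam, min_eq_right (show 1 - tt x ≤ 1 by linarith),
      min_eq_left (show 0 ≤ 1 - tt x by linarith)]
    module
  obtain ⟨z, hz, hz'⟩ : ∃ z : ℤ, σ - σ' = z ∧ z = i'.val - i.val + 3 * (m' + k - m) :=
    ⟨_, by push_cast at h ⊢; linarith, rfl⟩
  have z1 : z ≤ 1 := by exact_mod_cast (by linarith : (z : ℝ) ≤ 1)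
  have z2 : -1 ≤ z := by exact_mod_cast (by linarith : (-1 : ℝ) ≤ z)
  obtain rfl | rfl | rfl : z = -1 ∨ z = 0 ∨ z = 1 := by omega
  · push_cast at hz
    rw [show σ = 0 by linarith, show σ' = 1 by linarith, hg, show i' + 1 = i by omega]
  · rw [show σ = σ' by simpa [sub_eq_zero] using hz, show i = i' by omega]
  · push_cast at hz
    rw [show σ' = 0 by linarith, show σ = 1 by linarith, hg, show i + 1 = i' by omega]

end Pool.Agent.Lib.Z78
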