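import Pool.Agent.Lib.MP_e11f15_gt.Cx

open Set

namespace Pool.Agent.Lib.Z78

open Pool.Agent.Lib.MP_e11f15_gt

variable {E W : Type} [NormedAddCommGroup E] [NormedSpace ℝ E] [NormedAddCommGroup W]
  [NormedSpace ℝ W]

/-- A nowhere vanishing section of the bundle given by the field of projections `M`. -/
def Sec {X : Type} [TopologicalSpace X] (M : X → W →L[ℝ] W) (σ : X → W) (P : Set X) : Prop :=
  ContinuousOn σ P ∧ ∀ x ∈ P, M x (σ x) = σ x ∧ σ x ≠ 0

theorem simplex_sec {n : ℕ} {M : (Fin (n + 2) → ℝ) → W →L[ℝ] W}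
    (hM : ContinuousOn M (stdSimplex ℝ _)) (hi : ∀ x ∈ stdSimplex ℝ _, ∀ z, M x (M x z) = M x z)
    {σ : (Fin (n + 2) → ℝ) → W} (hσ : Sec M σ (horn n)) :
    ∃ σ', Sec M σ' (stdSimplex ℝ _) ∧ EqOn σ' σ (horn n) := by
  obtain ⟨η, hη, hu⟩ := Metric.uniformContinuousOn_iff.1
    ((isCompact_stdSimplex ℝ _).uniformContinuousOn_of_continuous hM) 1 one_pos
  obtain ⟨m, hm⟩ := exists_nat_one_div_lt hη
  have hm0 : (0 : ℝ) < m + 1 := by positivity
  let p : ℕ → (Fin (n + 2) → ℝ) → Fin (n + 2) → ℝ := fun k y =>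
    retr y + ((k : ℝ) / (m + 1)) • (y - retr y)
  have hpc : ∀ k, Continuous (p k) := fun k => by
    have := retr_cont (n := n)
    fun_prop
  have hpm : ∀ k ≤ m + 1, ∀ y ∈ stdSimplex ℝ _, p k y ∈ stdSimplex ℝ _ := fun k hk y hy =>
    (convex_stdSimplex ℝ _).add_smul_sub_mem (retr_mem hy).1 hy
      ⟨by positivity, (div_le_one hm0).2 (by exact_mod_cast hk)⟩
  have hph : ∀ k, ∀ y ∈ horn n, p k y = y := fun k y hy => by simp [p, retr_eq hy]
  have key : ∀ k ≤ m + 1, ∃ σ', Sec (fun y => M (p k y)) σ' (stdSimplex ℝ _) ∧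
      EqOn σ' σ (horn n) := by
    intro k hk
    induction k with
    | zero =>
      refine ⟨fun y => σ (retr y), ⟨hσ.1.comp retr_cont.continuousOn fun y hy => retr_mem hy,
        fun y hy => ?_⟩, fun y hy => by simp [retr_eq hy]⟩
      simpa [p] using hσ.2 _ (retr_mem hy)
    | succ k ih =>
      obtain ⟨s, hs, hs'⟩ := ih (by omega)
      refine ⟨fun y => M (p (k + 1) y) (s y), ⟨(hM.comp (hpc _).continuousOn (hpm _ hk)).clm_apply
        hs.1, fun y hy => ⟨hi _ (hpm _ hk y hy) _, fun h0 => ?_⟩⟩, fun y hy => ?_⟩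
      · have h1 : dist (p (k + 1) y) (p k y) < η := by
          have : p (k + 1) y - p k y = (1 / (m + 1) : ℝ) • (y - retr y) := by
            simp only [p]; push_cast; rw [add_div]; module
          rw [dist_eq_norm, this, norm_smul, Real.norm_of_nonneg (by positivity), ← dist_eq_norm]
          have := (Metric.dist_le_diam_of_mem (bounded_stdSimplex _) hy (retr_mem hy).1).trans
            diam_stdSimplex_le
          exact lt_of_le_of_lt (mul_le_of_le_one_right (by positivity) this) hm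
        have h2 := hu _ (hpm _ hk y hy) _ (hpm k (by omega) y hy) h1
        have h3 := (M (p (k + 1) y) - M (p k y)).le_opNorm (s y)
        rw [dist_eq_norm] at h2
        rw [sub_apply, show M _ (s y) = 0 from h0, (hs.2 y hy).1, zero_sub, norm_neg] at h3
        nlinarith [norm_pos_iff.2 (hs.2 y hy).2]
      · simp only [hph _ y hy, hs' hy, (hσ.2 y hy).1]
  obtain ⟨s, hs, hs'⟩ := key _ le_rfl
  refine ⟨s, ⟨hs.1, fun y hy => ?_⟩, hs'⟩
  have := hs.2 y hy
  simpa [p, hm0.ne'] using this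

theorem elem_sec {P Q : Set E} (h : ElemCollapse P Q) {M : E → W →L[ℝ] W} (hM : ContinuousOn M P)
    (hi : ∀ x ∈ P, ∀ z, M x (M x z) = M x z) {σ : E → W} (hσ : Sec M σ Q) : ∃ σ', Sec M σ' P := by
  classical
  obtain ⟨hQ, n, h, hpl, hinj, rfl, hint⟩ := h
  have hc := hpl.continuousOn
  have hΔ := isCompact_stdSimplex ℝ (Fin (n + 2))
  have hinv := contOn_invFunOn hΔ hc hinj
  set k := Function.invFunOn h (stdSimplex ℝ (Fin (n + 2))) with hk
  have hkm : MapsTo k (h '' stdSimplex ℝ (Fin (n + 2))) (stdSimplex ℝ (Fin (n + 2))) :=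
    fun x hx => Function.invFunOn_mem hx
  have hhorn : ∀ y ∈ horn n, h y ∈ Q := fun y hy =>
    (hint.symm.subset (mem_image_of_mem h hy)).1
  obtain ⟨s, hs, hs'⟩ := simplex_sec (M := fun y => M (h y)) (σ := fun y => σ (h y))
    (hM.comp hc fun y hy => Or.inr (mem_image_of_mem h hy))
    (fun y hy => hi _ (Or.inr (mem_image_of_mem h hy)))
    ⟨hσ.1.comp (hc.mono fun y hy => hy.1) hhorn, fun y hy => hσ.2 _ (hhorn y hy)⟩
  refine ⟨fun x => if x ∈ Q then σ x else s (k x), ContinuousOn.union_of_isClosed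
    (hσ.1.congr fun x hx => by simp [hx]) ((hs.1.comp hinv hkm).congr fun x hx => ?_)
    hQ.isCompact.isClosed (hΔ.image_of_continuousOn hc).isClosed, fun x hx => ?_⟩
  · by_cases hxQ : x ∈ Q
    · obtain ⟨y, hy, rfl⟩ := hint.subset ⟨hxQ, hx⟩
      simp only [hxQ, if_true, Function.comp_apply]
      rw [hk, hinj.leftInvOn_invFunOn hy.1, hs' hy]
    · simp [hxQ]
  · by_cases hxQ : x ∈ Q
    · simpa [hxQ] using hσ.2 x hxQ
    · obtain ⟨y, hy, rfl⟩ := hx.resolve_left hxQ
      simp only [hxQ, if_false]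
      rw [hk, hinj.leftInvOn_invFunOn hy]
      exact hs.2 y hy

theorem collapses_sec {P Q : Set E} (h : Collapses P Q) {M : E → W →L[ℝ] W}
    (hM : ContinuousOn M P) (hi : ∀ x ∈ P, ∀ z, M x (M x z) = M x z) {σ : E → W}
    (hσ : Sec M σ Q) : ∃ σ', Sec M σ' P := by
  induction h generalizing σ with
  | refl => exact ⟨σ, hσ⟩
  | @tail A B h1 h2 ih =>
    have hA := (Collapses.extend (Z := ℝ) h1).1
    obtain ⟨s, hs⟩ := elem_sec h2 (hM.mono hA) (fun x hx => hi x (hA hx)) hσ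
    exact ih hs

end Pool.Agent.Lib.Z78
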