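import Pool.Agent.Lib.Z78.Data
import Pool.Agent.Lib.Z78.Sec

open Set Real ComplexConjugate

namespace Pool.Agent.Lib.Z78

open Pool.Agent.Lib.MP_e11f15_gt

noncomputable def tt (x : V → ℝ) : ℝ := ∑ v, if pl v then x v else 0

noncomputable def lam (a : V) (x : V → ℝ) : ℝ := ∑ v, x v * kap a v

noncomputable def th (x : V → ℝ) : Angle :=
  ((2 * π / 3 * (ix (Classical.epsilon fun v => 0 < x v) +
    lam (Classical.epsilon fun v => 0 < x v) x) : ℝ) : Angle)

noncomputable def uu (x : V → ℝ) : ℂ := (th x).toCircle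

noncomputable def ww (x : V → ℝ) : ℂ := tt x * (1 - tt x) * uu x

noncomputable def MM (x : V → ℝ) : ℂ × ℂ →L[ℝ] ℂ × ℂ :=
  let m := fun c : ℂ => ContinuousLinearMap.mul ℝ ℂ (c / ((1 - tt x) ^ 2 + tt x ^ 2))
  ((m ((1 - tt x) ^ 2)).coprod (m (conj (ww x)))).prod ((m (ww x)).coprod (m (tt x ^ 2)))

theorem tt_cont : Continuous tt :=
  continuous_finsetSum _ fun v _ => by split_ifs <;> fun_prop

theorem lam_cont (a : V) : Continuous (lam a) := by unfold lam; fun_prop

theorem tt_pos {s : List V} (h : ∀ a ∈ s, pl a) {x : V → ℝ} (hx : x ∈ spx s) : tt x = 1 := by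
  rw [← hx.1.2]
  refine Finset.sum_congr rfl fun v _ => ?_
  split_ifs with e
  · rfl
  · exact (hx.2 v fun h' => e (h v h')).symm

theorem tt_neg {s : List V} (h : ∀ a ∈ s, ¬pl a) {x : V → ℝ} (hx : x ∈ spx s) : tt x = 0 :=
  Finset.sum_eq_zero fun v _ => by
    split_ifs with e
    · exact hx.2 v fun h' => h v h' e
    · rfl

theorem lam_chg {t : V × V × V} (ht : t ∈ NT) {a b : V} (ha : a ∈ tl t) (hb : b ∈ tl t)
    {x : V → ℝ} (hx : x ∈ spx (tl t)) : lam a x = kap a b + lam b x := by
  rw [← one_mul (kap a b : ℝ), ← hx.1.2, Finset.sum_mul, lam, lam, ← Finset.sum_add_distrib]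
  refine Finset.sum_congr rfl fun v _ => ?_
  by_cases hv : v ∈ tl t
  · rw [(kap_N t ht a ha b hb).2 v hv]; push_cast; ring
  · simp [hx.2 v hv]

theorem ang3 {r s : ℝ} {k : ℤ} (hk : 3 ∣ k) (h : r - s = k) :
    ((2 * π / 3 * r : ℝ) : Angle) = ((2 * π / 3 * s : ℝ) : Angle) := by
  obtain ⟨m, rfl⟩ := hk
  refine Angle.angle_eq_iff_two_pi_dvd_sub.2 ⟨m, ?_⟩
  push_cast at h
  linear_combination 2 * π / 3 * h

theorem th_lift {t : V × V × V} (ht : t ∈ NT) {a : V} (ha : a ∈ tl t) :
    Lifts (fun x => 2 * π / 3 * (ix a + lam a x)) th (spx (tl t)) := by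
  refine ⟨(continuous_const.mul (continuous_const.add (lam_cont a))).continuousOn, fun x hx => ?_⟩
  have h1 : ∃ v, 0 < x v := by
    by_contra h
    push Not at h
    linarith [hx.1.2, Finset.sum_nonpos fun v (_ : v ∈ Finset.univ) => h v]
  have h2 := Classical.epsilon_spec h1
  have h3 : (Classical.epsilon fun v => 0 < x v) ∈ tl t := by_contra fun h => h2.ne' (hx.2 _ h)
  refine ang3 (kap_N t ht a ha _ h3).1 ?_
  rw [lam_chg ht ha h3 hx]
  push_cast; ring

theorem toC_cont : Continuous fun θ : Angle => (θ.toCircle : ℂ) := by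
  simp only [Angle.coe_toCircle]
  have := Angle.continuous_cos
  have := Angle.continuous_sin
  fun_prop

theorem uu_conj (x : V → ℝ) : uu x * conj (uu x) = 1 := by
  rw [Complex.mul_conj, uu, Circle.normSq_coe]; simp

theorem uu_cont {t : V × V × V} (ht : t ∈ NT) : ContinuousOn uu (spx (tl t)) :=
  toC_cont.comp_continuousOn (th_lift ht (a := t.1) (by simp [tl])).continuousOn

theorem ww_cont : ContinuousOn ww (real (LT.map tl)) := by
  refine (contOn_list _ spx spx_closed fun s hs => ?_).2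
  obtain ⟨t, ht, rfl⟩ := List.mem_map.1 hs
  have := tt_cont
  rcases mixed t ht with h | h | h
  · exact ContinuousOn.mul (by fun_prop) (uu_cont (by simpa using h))
  · exact (continuousOn_const (c := 0)).congr fun x hx => by simp [ww, tt_pos h hx]
  · exact (continuousOn_const (c := 0)).congr fun x hx => by simp [ww, tt_neg h hx]

theorem den_ne (r : ℝ) : (1 - r : ℂ) ^ 2 + r ^ 2 ≠ 0 := by
  have : 0 < (1 - r) ^ 2 + r ^ 2 := by nlinarith [sq_nonneg (r - 1 / 2)]
  exact_mod_cast this.ne'

theorem MM_cont : ContinuousOn MM (real (LT.map tl)) := by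
  refine continuousOn_clm_apply.2 fun z => ?_
  have := tt_cont
  have := ww_cont
  simp only [MM, ContinuousLinearMap.prod_apply, ContinuousLinearMap.coprod_apply,
    ContinuousLinearMap.mul_apply']
  have := fun x => den_ne (tt x)
  fun_prop (disch := intros; apply den_ne)

theorem MM_line (x : V → ℝ) (z : ℂ × ℂ) : ∃ μ : ℂ, MM x z = (μ * (1 - tt x), μ * tt x * uu x) := by
  refine ⟨((1 - tt x) * z.1 + tt x * conj (uu x) * z.2) / ((1 - tt x) ^ 2 + tt x ^ 2), ?_⟩
  have := den_ne (tt x)
  have h := uu_conj x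
  simp only [MM, ContinuousLinearMap.prod_apply, ContinuousLinearMap.coprod_apply,
    ContinuousLinearMap.mul_apply', ww, map_mul, map_sub, map_one, Complex.conj_ofReal,
    Prod.mk.injEq]
  constructor
  · field_simp
  · field_simp
    linear_combination (-(tt x : ℂ)) ^ 2 * z.2 * (-1) * h

theorem MM_fix (x : V → ℝ) (μ : ℂ) :
    MM x (μ * (1 - tt x), μ * tt x * uu x) = (μ * (1 - tt x), μ * tt x * uu x) := by
  have := den_ne (tt x)
  have h := uu_conj x
  simp only [MM, ContinuousLinearMap.prod_apply, ContinuousLinearMap.coprod_apply,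
    ContinuousLinearMap.mul_apply', ww, map_mul, map_sub, map_one, Complex.conj_ofReal,
    Prod.mk.injEq]
  constructor
  · field_simp
    linear_combination (1 - tt x) * μ * (tt x : ℂ) ^ 2 * h
  · field_simp

theorem loops {T : List (V × V × V)} {l l' : List (V × V)} {F : (V → ℝ) → Angle}
    (hF : ∀ t ∈ T, ContinuousOn F (spx (tl t)))
    (hb : (T.flatMap ted ++ l ++ l'.map Prod.swap).Perm
      ((T.flatMap ted ++ l ++ l'.map Prod.swap).map Prod.swap))
    (he : ∀ e ∈ T.flatMap ted ++ l ++ l'.map Prod.swap, ∃ t ∈ T, e.1 ∈ tl t ∧ e.2 ∈ tl t) :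
    (l.map (dl F)).sum = (l'.map (dl F)).sum := by
  have ha : ∀ e ∈ T.flatMap ted ++ l ++ l'.map Prod.swap, dl F e.swap = -dl F e := fun e h => by
    obtain ⟨t, ht, h1, h2⟩ := he e h
    exact inc_swap ((hF t ht).mono (seg_sub h1 h2))
  have h := sum_balanced hb ha
  have h2 : ∀ m : List (V × V), (∀ e ∈ m, dl F e = -dl F e.swap) →
      ((m.map Prod.swap).map (dl F)).sum = -(m.map (dl F)).sum := fun m hm => by
    induction m with
    | nil => simp
    | cons e m ih =>
      simp only [List.map_cons, List.sum_cons]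
      rw [ih fun e he => hm e (List.mem_cons_of_mem _ he), hm e List.mem_cons_self]
      ring
  rw [List.map_append, List.map_append, List.sum_append, List.sum_append, dl_tris hF,
    h2 l' fun e h => ha e.swap (List.mem_append_right _ (List.mem_map_of_mem h))] at h
  linarith

theorem rp_neg : ∀ t ∈ RP, ∀ a ∈ tl t, ¬pl a := by decide +kernel

theorem m_pos : ∀ t ∈ M2 ++ M1 ++ M1, t ∈ LT ∧ ∀ a ∈ tl t, pl a := by decide +kernel

theorem nosec {σ : (V → ℝ) → ℂ × ℂ} (hσ : Sec MM σ (real (LT.map tl))) : False := by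
  let μ : (V → ℝ) → ℂ := fun x => (σ x).1 + conj (uu x) * (σ x).2
  have hs : ∀ t ∈ LT, spx (tl t) ⊆ real (LT.map tl) := fun t ht =>
    spx_subset_real (List.mem_map_of_mem ht)
  have h1 : ∀ x ∈ real (LT.map tl), μ x ≠ 0 ∧ σ x = (μ x * (1 - tt x), μ x * tt x * uu x) := by
    intro x hx
    obtain ⟨m, hm⟩ := MM_line x (σ x)
    rw [(hσ.2 x hx).1] at hm
    have : μ x = m := by
      simp only [μ, hm]
      linear_combination m * tt x * uu_conj x
    rw [this]
    exact ⟨fun h => (hσ.2 x hx).2 (by simp [hm, h]), hm⟩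
  have ca : ∀ {g : (V → ℝ) → ℂ} {S}, ContinuousOn g S → (∀ x ∈ S, g x ≠ 0) →
      ContinuousOn (fun x => (Complex.arg (g x) : Angle)) S := fun hg h x hx =>
    (Complex.continuousAt_arg_coe_angle (h x hx)).comp_continuousWithinAt (hg x hx)
  have cN : ∀ t ∈ NT, ContinuousOn (fun x => (Complex.arg (μ x) : Angle)) (spx (tl t)) :=
    fun t ht => by
      have h := hs t (by simp [LT, ht])
      exact ca ((hσ.1.mono h).fst.add ((Complex.continuous_conj.comp_continuousOn (uu_cont ht)).mul
        (hσ.1.mono h).snd)) fun x hx => (h1 x (h hx)).1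
  have e1 := loops (T := RP) (l := []) (l' := [(0, 1), (1, 2), (2, 0), (0, 1), (1, 2), (2, 0)])
    (F := fun x => (Complex.arg (μ x) : Angle)) (fun t ht => by
      have h := hs t (by simp [LT, ht])
      refine ca ((hσ.1.mono h).fst.congr fun x hx => ?_) fun x hx => (h1 x (h hx)).1
      beta_reduce
      rw [(h1 x (h hx)).2, tt_neg (rp_neg t ht) hx]
      simp) (by decide +kernel) (by decide +kernel)
  have e2 := loops (l := [(6, 7), (7, 8), (8, 6)]) (l' := [(0, 1), (1, 2), (2, 0)]) cN
    (by decide +kernel) (by decide +kernel)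
  have e3 := loops (T := M2 ++ M1 ++ M1) (l := [])
    (l' := [(6, 7), (7, 8), (8, 6), (6, 7), (7, 8), (8, 6), (6, 7), (7, 8), (8, 6)])
    (F := fun x => (Complex.arg (σ x).2 : Angle)) (fun t ht => by
      have h := hs t (m_pos t ht).1
      refine ca (hσ.1.mono h).snd fun x hx => ?_
      rw [(h1 x (h hx)).2, tt_pos (m_pos t ht).2 hx]
      simpa using ⟨(h1 x (h hx)).1, Circle.coe_ne_zero _⟩) (by decide +kernel) (by decide +kernel)
  have e4 : ∀ a b : V, ∀ t ∈ NT, a ∈ tl t → b ∈ tl t → pl a → pl b →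
      dl (fun x => (Complex.arg (σ x).2 : Angle)) (a, b) =
        dl (fun x => (Complex.arg (μ x) : Angle)) (a, b) + 2 * π / 3 * kap a b := by
    intro a b t ht ha hb pa pb
    have s1 := seg_sub ha hb
    have hl := (th_lift ht ha).mono s1
    have c1 := (cN t ht).mono s1
    have : inc th (ev a) (ev b) = 2 * π / 3 * kap a b := by
      have := kap_anti a a
      have : kap a a = 0 := by omega
      rw [inc_eq hl]
      simp [lam, Pi.single_apply, this, mul_add]
    rw [dl, dl, ← this, ← inc_add c1 hl.continuousOn]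
    refine (inc_congr (c1.add hl.continuousOn) fun x hx => ?_).symm
    have h2 := h1 x (hs t (by simp [LT, ht]) (s1 hx))
    show _ + th x = (Complex.arg (σ x).2 : Angle)
    rw [h2.2, tt_pos (s := [a, b]) (by simp [pa, pb]) (seg_sub (by simp) (by simp) hx)]
    simp only [Complex.ofReal_one, mul_one]
    rw [uu, Complex.arg_mul_coe_angle h2.1 (Circle.coe_ne_zero _), Angle.arg_toCircle]
  have f1 := e4 6 7 (6, 1, 7) (by decide) (by decide) (by decide) (by decide) (by decide)
  have f2 := e4 7 8 (7, 2, 8) (by decide) (by decide) (by decide) (by decide) (by decide)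
  have f3 := e4 8 6 (0, 6, 8) (by decide) (by decide) (by decide) (by decide) (by decide)
  rw [show kap 6 7 = 1 by decide] at f1
  rw [show kap 7 8 = 1 by decide] at f2
  rw [show kap 8 6 = 1 by decide] at f3
  simp only [List.map_cons, List.map_nil, List.sum_cons, List.sum_nil, Int.cast_one] at *
  linarith [pi_pos]

end Pool.Agent.Lib.Z78
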