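import Pool.Agent.Lib.Z78.Geo
import Pool.Agent.Lib.Z78.Cut
import Pool.Agent.Lib.Z78.Fake

open Set Real Function ComplexConjugate

namespace Pool.Agent.Lib.Z78

open Pool.Agent.Lib.MP_e11f15_gt

def K12 : List (V × V × V) := KT.flatMap fun t => [t, (t.2.1, t.2.2, t.1), (t.2.2, t.1, t.2.1)]

theorem ev_inj : Injective (ev : V → V → ℝ) := fun a b h => by
  by_contra n
  simpa [Pi.single_apply, n] using congr_fun h a

theorem k12 : ∀ t ∈ K12, (t.2.1, t.2.2, t.1) ∈ K12 ∧ (tl t).Nodup ∧ cov1 (tl t) (KT.map tl) = true ∧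
    (∃ s ∈ K12, s.1 = t.2.1 ∧ s.2.1 = t.1) := by decide +kernel

theorem k12' : ∀ t ∈ K12, ∀ s ∈ K12, (s.1 = t.1 → s.2.1 = t.2.1 → t.2.2 = s.2.2) ∧
    (s.1 = t.2.1 → s.2.1 = t.1 → t.2.2 ≠ s.2.2) := by decide +kernel

theorem surf0 : Surf (real (KT.map tl))
    fun a b c => ∃ t ∈ K12, a = ev t.1 ∧ b = ev t.2.1 ∧ c = ev t.2.2 := by
  refine ⟨?_, ?_, ?_, ?_, ?_, ?_, fun g hg => ?_, fun k hk hc => ?_, fun x => ?_, fun g => ?_⟩
  · refine ((List.finite_toSet K12).image fun t => (ev t.1, ev t.2.1, ev t.2.2)).subset ?_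
    rintro ⟨a, b, c⟩ ⟨t, ht, rfl, rfl, rfl⟩
    exact ⟨t, ht, rfl⟩
  · rintro _ _ _ ⟨t, ht, rfl, rfl, rfl⟩
    exact ⟨_, (k12 t ht).1, rfl, rfl, rfl⟩
  · rintro _ _ _ ⟨t, ht, rfl, rfl, rfl⟩ h
    have := (k12 t ht).2.1
    simp [tl, ev_inj h] at this
  · rintro _ _ _ _ ⟨t, ht, rfl, rfl, rfl⟩ ⟨s, hs, h1, h2, rfl⟩
    rw [(k12' t ht s hs).1 (ev_inj h1).symm (ev_inj h2).symm]
  · rintro _ _ _ ⟨t, ht, rfl, rfl, rfl⟩
    obtain ⟨s, hs, h1, h2⟩ := (k12 t ht).2.2.2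
    exact ⟨_, s, hs, by rw [h1], by rw [h2], rfl⟩
  · rintro _ _ _ ⟨t, ht, rfl, rfl, rfl⟩ ⟨s, hs, h1, h2, h3⟩
    exact (k12' t ht s hs).2 (ev_inj h1).symm (ev_inj h2).symm (ev_inj h3)
  · have h1 := hg _ _ _ ⟨(2, 8, 9), by decide, rfl, rfl, rfl⟩
    have h2 := hg _ _ _ ⟨(2, 9, 10), by decide, rfl, rfl, rfl⟩
    have h3 := hg _ _ _ ⟨(2, 10, 8), by decide, rfl, rfl, rfl⟩
    refine ⟨g (ev 2), ?_⟩
    rintro _ _ _ ⟨t, ht, rfl, rfl, rfl⟩
    have : ∀ t ∈ K12, t.1 = 2 ∨ t.1 = 8 ∨ t.1 = 9 ∨ t.1 = 10 := by decide +kernel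
    rcases this t ht with h | h | h | h <;> rw [h]
    exacts [h1.symm, h2.symm, h3.symm]
  · refine ⟨k (ev 2), ?_⟩
    rintro _ _ _ ⟨t, ht, rfl, rfl, rfl⟩
    have H : ∀ t ∈ K12, t.1 = 2 ∨ t.2.1 = 2 ∨ (2, t.1, t.2.1) ∈ K12 ∨ (2, t.2.1, t.1) ∈ K12 := by
      decide +kernel
    have := hk (ev 2) (ev 2)
    have := hk (ev 2) (ev t.1)
    have := hk (ev 2) (ev t.2.1)
    have := hk (ev t.1) (ev t.2.1)
    rcases H t ht with h | h | h | h
    · rw [h] at *; omega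
    · rw [h] at *; omega
    · have := hc _ _ _ ⟨_, h, rfl, rfl, rfl⟩
      simp only at this
      omega
    · have := hc _ _ _ ⟨_, h, rfl, rfl, rfl⟩
      simp only at this
      omega
  · constructor
    · rintro ⟨s, hs, hx⟩
      obtain ⟨t, ht, rfl⟩ := List.mem_map.1 hs
      have h : t ∈ K12 := List.mem_flatMap.2 ⟨t, ht, by simp⟩
      exact ⟨_, _, _, ⟨t, h, rfl, rfl, rfl⟩, (spx3 (k12 t h).2.1).1 hx⟩
    · rintro ⟨_, _, _, ⟨t, ht, rfl, rfl, rfl⟩, h⟩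
      exact cov1_spec (k12 t ht).2.2.1 ((spx3 (k12 t ht).2.1).2 h)
  · refine ⟨fun x => ∑ v, x v * g (ev v), ?_⟩
    rintro _ _ _ ⟨t, ht, rfl, rfl, rfl⟩ α β γ -
    simp [add_mul, Finset.sum_add_distrib, Pi.single_apply]

theorem noK : ¬∃ K' : Set ((V → ℝ) × ℝ), PLHomeomorphic (real (KT.map tl)) K' ∧
    Collapses (real (LT.map tl) ×ˢ Icc 0 1) K' := by
  classical
  rintro ⟨K', ⟨f, hf, hb⟩, h2⟩
  set K := real (KT.map tl) with hK
  have hc := hf.continuousOn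
  have hm : ∀ y ∈ K, (f y).1 ∈ real (LT.map tl) := fun y hy =>
    ((Collapses.extend (Z := ℝ) h2).1 (hb.mapsTo hy)).1
  obtain ⟨R, S, ha⟩ := surf0.affine hf
  obtain ⟨τ, hτ, G, hG, hGt⟩ := geo S hc hb.injOn hm ha
  have ht : ContinuousOn (fun y => tt (f y).1) K := tt_cont.comp_continuousOn hc.fst
  have ht' : ContinuousOn (fun y => (tt (f y).1 : ℂ)) K :=
    Complex.continuous_ofReal.comp_continuousOn ht
  have hw : ContinuousOn (fun y => ww (f y).1) K := ww_cont.comp hc.fst hm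
  let e : (V → ℝ) → ℂ := fun y => (G y : Angle).toCircle
  have he : Continuous e := toC_cont.comp (Angle.continuous_coe.comp hG)
  let μ : (V → ℝ) → ℂ := fun y => if tt (f y).1 ≤ τ then 1 else e y * conj (uu (f y).1)
  let σ : (V → ℝ) → ℂ × ℂ := fun y => (μ y * (1 - tt (f y).1), μ y * tt (f y).1 * uu (f y).1)
  have hσ : ContinuousOn σ K := by
    have h0 : K = K ∩ (fun y => tt (f y).1) ⁻¹' Iic τ ∪ K ∩ (fun y => tt (f y).1) ⁻¹' Ici τ := by
      rw [← inter_union_distrib_left, ← preimage_union, Iic_union_Ici]; simp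
    have hcl := (real_compact (KT.map tl)).isClosed
    rw [h0]
    refine ContinuousOn.union_of_isClosed ?_ ?_ (ht.preimage_isClosed_of_isClosed hcl isClosed_Iic)
      (ht.preimage_isClosed_of_isClosed hcl isClosed_Ici)
    · have n : ∀ y ∈ K ∩ (fun y => tt (f y).1) ⁻¹' Iic τ, (1 - tt (f y).1 : ℂ) ≠ 0 := fun y hy => by
        exact_mod_cast (sub_pos.2 (lt_of_le_of_lt hy.2 hτ.2)).ne'
      refine (((continuousOn_const (c := 1)).sub (ht'.mono inter_subset_left)).prodMk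
        ((hw.mono inter_subset_left).div (continuousOn_const.sub (ht'.mono inter_subset_left))
          n)).congr fun y hy => ?_
      have := n y hy
      simp only [σ, μ, if_pos (show tt (f y).1 ≤ τ from hy.2), ww, one_mul, Pi.sub_apply,
        Pi.div_apply, Prod.mk.injEq, true_and]
      field_simp
    · have n : ∀ y ∈ K ∩ (fun y => tt (f y).1) ⁻¹' Ici τ, (tt (f y).1 : ℂ) ≠ 0 := fun y hy => by
        exact_mod_cast (lt_of_lt_of_le hτ.1 hy.2).ne'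
      refine ((he.continuousOn.mul ((Complex.continuous_conj.comp_continuousOn
        (hw.mono inter_subset_left)).div (ht'.mono inter_subset_left) n)).prodMk
        (he.continuousOn.mul (ht'.mono inter_subset_left))).congr fun y hy => ?_
      have := n y hy
      have h3 : μ y = e y * conj (uu (f y).1) := by
        simp only [μ]
        split_ifs with h
        · simp only [e, hGt y hy.1 (le_antisymm h hy.2)]
          exact (uu_conj _).symm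
        · rfl
      simp only [σ, h3, ww, Pi.mul_apply, Pi.div_apply, comp_apply, map_mul, map_sub, map_one,
        Complex.conj_ofReal, Prod.mk.injEq]
      constructor
      · field_simp
      · linear_combination e y * tt (f y).1 * uu_conj (f y).1
  have h5 := contOn_invFunOn (real_compact _) hc hb.injOn
  rw [hb.image_eq] at h5
  obtain ⟨s, hs⟩ := collapses_sec h2 (M := fun p => MM p.1)
    (MM_cont.comp continuousOn_fst fun p hp => hp.1) (fun p _ z => by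
      obtain ⟨m, hm⟩ := MM_line p.1 z
      rw [hm, MM_fix]) (σ := σ ∘ invFunOn f K)
    ⟨hσ.comp h5 fun y hy => invFunOn_mem (hb.surjOn hy), fun x hx => by
      obtain ⟨y, hy, rfl⟩ := hb.surjOn hx
      simp only [comp_apply, hb.injOn.leftInvOn_invFunOn hy]
      refine ⟨MM_fix _ _, fun h => ?_⟩
      have u0 : uu (f y).1 ≠ 0 := Circle.coe_ne_zero _
      have m0 : μ y ≠ 0 := by
        simp only [μ]
        split_ifs
        · exact one_ne_zero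
        · exact mul_ne_zero (Circle.coe_ne_zero _) (by simpa using u0)
      simp only [σ, Prod.mk_eq_zero, mul_eq_zero, m0, u0, false_or, or_false] at h
      simp [h.2] at h⟩
  exact nosec (σ := fun x => s (x, 0)) ⟨hs.1.comp (by fun_prop) fun x hx => ⟨hx, by simp⟩,
    fun x hx => hs.2 (x, 0) ⟨hx, by simp⟩⟩

theorem K_iff {x : V → ℝ} : x ∈ real (KT.map tl) ↔
    x ∈ spx [2, 8, 9, 10] ∧ ∃ v ∈ [2, 8, 9, 10], x v = 0 := by
  constructor
  · rintro ⟨s, hs, hx⟩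
    have : ∀ s ∈ KT.map tl, (∀ v ∈ s, v ∈ ([2, 8, 9, 10] : List V)) ∧
        ∃ v ∈ ([2, 8, 9, 10] : List V), v ∉ s := by decide +kernel
    obtain ⟨h1, v, hv, h2⟩ := this s hs
    exact ⟨spx_mono h1 hx, v, hv, hx.2 v h2⟩
  · rintro ⟨hx, v, hv, h⟩
    have : ∀ v ∈ ([2, 8, 9, 10] : List V), ∃ s ∈ KT.map tl, ∀ u, u ∉ s →
        u = v ∨ u ∉ ([2, 8, 9, 10] : List V) := by decide +kernel
    obtain ⟨s, hs, h1⟩ := this v hv
    exact ⟨s, hs, hx.1, fun u hu => (h1 u hu).elim (fun e => e ▸ h) (hx.2 u)⟩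

theorem noL : ¬∃ L' : Set ((V → ℝ) × ℝ), PLHomeomorphic (real (LT.map tl)) L' ∧
    Collapses (real (KT.map tl) ×ˢ Icc 0 1) L' := by
  rintro ⟨L', h1, h2⟩
  obtain ⟨f, hf, hi, hm, -⟩ := setup h1 h2
  have hs : real (RP.map tl) ⊆ real (LT.map tl) := dom_spec (by decide +kernel)
  refine noRP (g := (fun p : (V → ℝ) × ℝ => fun i : Fin 3 =>
    (1 + p.2) * (p.1 (![8, 9, 10] i) - 1 / 4)) ∘ f)
    (Continuous.comp_continuousOn (by fun_prop) (hf.mono hs))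
    ((thick (a := 2) (by decide)).comp (hi.mono hs) fun x hx => ?_)
  exact ⟨K_iff.1 (hm (hs hx)).1, (hm (hs hx)).2⟩

theorem K_sphere : PLHomeomorphic (real (KT.map tl))
    {x ∈ stdSimplex ℝ (Fin 4) | ∃ i, x i = 0} := by
  let ι : Fin 4 → V := ![2, 8, 9, 10]
  have hι : ∀ v : V, v ∈ [2, 8, 9, 10] ↔ ∃ i, ι i = v := by decide +kernel
  refine ⟨fun x i => x (ι i), ?_, fun x hx => ?_, fun x hx y hy h => ?_, fun y hy => ?_⟩
  · obtain ⟨T, hT⟩ := real_polyhedron (KT.map tl)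
    exact ⟨T, hT, fun _ _ => ⟨(LinearMap.funLeft ℝ ℝ ι).toAffineMap, fun _ _ => rfl⟩⟩
  · obtain ⟨h, v, hv, h0⟩ := K_iff.1 hx
    obtain ⟨i, rfl⟩ := (hι v).1 hv
    refine ⟨⟨fun i => h.1.1 _, ?_⟩, i, h0⟩
    simpa [ι, Fin.sum_univ_four, add_assoc] using sum_spx (by decide) h
  · funext v
    by_cases hv : v ∈ [2, 8, 9, 10]
    · obtain ⟨i, rfl⟩ := (hι v).1 hv
      exact congr_fun h i
    · rw [(K_iff.1 hx).1.2 v hv, (K_iff.1 hy).1.2 v hv]
  · obtain ⟨⟨h0, h1⟩, i, hi⟩ := hy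
    have e : ∀ j, (![0, 0, y 0, 0, 0, 0, 0, 0, y 1, y 2, y 3, 0, 0, 0] : V → ℝ) (ι j) = y j :=
      fun j => by fin_cases j <;> rfl
    refine ⟨![0, 0, y 0, 0, 0, 0, 0, 0, y 1, y 2, y 3, 0, 0, 0], K_iff.2 ⟨⟨⟨fun v => ?_, ?_⟩,
      fun v hv => ?_⟩, ι i, (hι _).2 ⟨i, rfl⟩, (e i).trans hi⟩, funext e⟩
    · fin_cases v <;> simp [h0]
    · simpa [Fin.sum_univ_succ] using h1
    · fin_cases v <;> simp at hv ⊢

theorem main : ∃ (N : ℕ) (K L : Set (Fin N → ℝ)),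
    IsTwoPolyhedron K ∧ IsTwoPolyhedron L ∧ IsConnected K ∧ IsConnected L ∧
    PLHomeomorphic K {x ∈ stdSimplex ℝ (Fin 4) | ∃ i, x i = 0} ∧ IsFakeSurface L ∧
    ThreeDeforms K L ∧
    (¬ ∃ L' : Set ((Fin N → ℝ) × ℝ), PLHomeomorphic L L' ∧ Collapses (K ×ˢ Icc 0 1) L') ∧
    (¬ ∃ K' : Set ((Fin N → ℝ) × ℝ), PLHomeomorphic K K' ∧ Collapses (L ×ˢ Icc 0 1) K') :=
  ⟨14, _, _, twoPoly (by decide) (by decide +kernel), twoPoly (by decide) ndL,
    conn_spec _ (by decide +kernel), conn_spec _ (by decide +kernel), K_sphere, fakeL, deform,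
    noL, noK⟩

end Pool.Agent.Lib.Z78
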