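import Pool.Agent.Lib.Z78.BU

open Set

namespace Pool.Agent.Lib.Z78

open Pool.Agent.Lib.MP_e11f15_gt

abbrev V := Fin 14

def RP : List (V × V × V) :=
  [(0, 1, 3), (0, 3, 2), (3, 1, 5), (2, 3, 4), (3, 5, 4), (4, 5, 0), (2, 4, 1), (5, 1, 2),
    (4, 0, 1), (0, 5, 2)]

def pick (e : Fin 6 → Bool) : List V := ((List.finRange 6).filter e).map (Fin.castLE (by decide))

theorem pick_cov : ∀ e : Fin 6 → Bool,
    cov1 (pick e) (RP.map tl) = true ∨ cov1 (pick fun i => !e i) (RP.map tl) = true := by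
  decide +kernel

def ex (z : Fin 5 → ℝ) : V → ℝ :=
  ![-(z 0 + z 1 + z 2 + z 3 + z 4), z 0, z 1, z 2, z 3, z 4, 0, 0, 0, 0, 0, 0, 0, 0]

noncomputable def pp (z : Fin 5 → ℝ) : V → ℝ := fun j => max (ex z j) 0 / ∑ k, max (ex z k) 0

theorem ex_neg (z : Fin 5 → ℝ) (j : V) : ex (-z) j = -ex z j := by
  fin_cases j <;> simp [ex]
  ring

theorem ex_cont (j : V) : Continuous fun z => ex z j := by
  fin_cases j <;> simp [ex] <;> fun_prop

theorem den_pos {z : Fin 5 → ℝ} (hz : ∑ i, |z i| = 1) : 0 < ∑ k, max (ex z k) 0 := by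
  by_contra h
  have h0 : ∀ k, ex z k ≤ 0 := fun k => (le_max_left _ _).trans ((Finset.single_le_sum
    (f := fun k => max (ex z k) 0) (fun _ _ => le_max_right _ _) (Finset.mem_univ k)).trans
      (not_lt.1 h))
  have a0 := h0 0
  have a1 : z 0 ≤ 0 := h0 1
  have a2 : z 1 ≤ 0 := h0 2
  have a3 : z 2 ≤ 0 := h0 3
  have a4 : z 3 ≤ 0 := h0 4
  have a5 : z 4 ≤ 0 := h0 5
  simp only [Fin.sum_univ_five, abs_of_nonpos, a1, a2, a3, a4, a5] at hz
  simp only [ex, Matrix.cons_val_zero] at a0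
  linarith

theorem pp_mem {z : Fin 5 → ℝ} (hz : ∑ i, |z i| = 1) {e : Fin 6 → Bool}
    (he : ∀ i, 0 < ex z (i.castLE (by decide)) → e i = true) : pp z ∈ spx (pick e) := by
  have h := den_pos hz
  refine ⟨⟨fun j => div_nonneg (le_max_right _ _) h.le, ?_⟩, fun v hv => ?_⟩
  · simp only [pp, ← Finset.sum_div]
    exact div_self h.ne'
  · have : ex z v ≤ 0 := by
      by_contra h1
      by_cases h2 : v.val < 6
      · exact hv (List.mem_map.2 ⟨⟨v, h2⟩, List.mem_filter.2 ⟨List.mem_finRange _,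
          he _ (not_le.1 h1)⟩, rfl⟩)
      · fin_cases v <;> simp [ex] at h1 h2
    simp [pp, this]

theorem noRP {g : (V → ℝ) → Fin 3 → ℝ} (hg : ContinuousOn g (real (RP.map tl)))
    (hi : InjOn g (real (RP.map tl))) : False := by
  set R := real (RP.map tl) with hR
  have hc : IsClosed R := (real_compact _).isClosed
  obtain ⟨G, hG, hGg⟩ := tietze hc hg
  let F : (V → ℝ) → Fin 4 → ℝ := fun x => Fin.cons (Metric.infDist x R) (G x)
  have hF : Continuous F := continuous_pi fun j => by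
    refine Fin.cases ?_ (fun i => ?_) j
    · exact Metric.continuous_infDist_pt R
    · exact (continuous_apply i).comp hG
  have hneg : ∀ z : Fin 5 → ℝ, ∑ i, |z i| = 1 → ∑ i, |(-z) i| = 1 := fun z hz => by simpa using hz
  have hp : ContinuousOn pp {z | ∑ i, |z i| = 1} := continuousOn_pi.2 fun j =>
    ((ex_cont j).max continuous_const).continuousOn.div
      (continuous_finsetSum _ fun k _ => (ex_cont k).max continuous_const).continuousOn
      fun z hz => (den_pos hz).ne'
  obtain ⟨z, hz, h⟩ := bu (n := 3) (fun z => F (pp z) - F (pp (-z)))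
    ((hF.comp_continuousOn hp).sub (hF.comp_continuousOn
      (hp.comp continuous_neg.continuousOn hneg))) (fun z => by simp)
  rw [sub_eq_zero] at h
  have h0 : Metric.infDist (pp z) R = Metric.infDist (pp (-z)) R := congr_fun h 0
  have h1 : G (pp z) = G (pp (-z)) := funext fun i => congr_fun h i.succ
  have hne : R.Nonempty := ⟨ev 0, cov1_spec (s := [0]) (by decide) (ev_mem (by simp))⟩
  have m1 := pp_mem hz (e := fun i => decide (0 < ex z (i.castLE (by decide))))
    fun i hi => decide_eq_true hi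
  have m2 := pp_mem (hneg z hz) (e := fun i => !decide (0 < ex z (i.castLE (by decide))))
    fun i hi => by rw [ex_neg] at hi; simpa using by linarith
  have h2 : pp z ∈ R ∧ pp (-z) ∈ R := by
    rw [hc.mem_iff_infDist_zero hne, hc.mem_iff_infDist_zero hne, ← h0, and_self]
    rcases pick_cov fun i => decide (0 < ex z (i.castLE (by decide))) with h3 | h3
    · exact Metric.infDist_zero_of_mem (cov1_spec h3 m1)
    · rw [h0]; exact Metric.infDist_zero_of_mem (cov1_spec h3 m2)
  rw [hGg h2.1, hGg h2.2] at h1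
  have h3 := hi h2.1 h2.2 h1
  have h4 : ∀ j, pp z j = 0 := fun j => by
    rcases le_total (ex z j) 0 with h | h
    · simp [pp, h]
    · rw [h3]; simp [pp, ex_neg, h]
  have := m1.1.2
  simp [h4] at this

/-- The boundary of a tetrahedron, thickened, lies in three-space. -/
theorem thick {a b c d : V} (hn : [a, b, c, d].Nodup) :
    InjOn (fun p : (V → ℝ) × ℝ => fun i : Fin 3 => (1 + p.2) * (p.1 (![b, c, d] i) - 1 / 4))
      ({x | x ∈ spx [a, b, c, d] ∧ ∃ v ∈ [a, b, c, d], x v = 0} ×ˢ Icc 0 1) := by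
  have hs : ∀ x ∈ spx [a, b, c, d], x a + x b + x c + x d = 1 := fun x hx => by
    have : ∑ v ∈ [a, b, c, d].toFinset, x v = 1 := by
      rw [← hx.1.2]
      exact Finset.sum_subset (Finset.subset_univ _) fun v _ hv => hx.2 v (by simpa using hv)
    rw [List.sum_toFinset _ hn] at this
    simpa [add_assoc] using this
  rintro ⟨x, s⟩ ⟨⟨hx, u, hu, hu0⟩, hs0, -⟩ ⟨y, t⟩ ⟨⟨hy, w, hw, hw0⟩, ht0, -⟩ h
  have key : ∀ v ∈ [a, b, c, d], (1 + s) * (x v - 1 / 4) = (1 + t) * (y v - 1 / 4) := by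
    have h0 : (1 + s) * (x b - 1 / 4) = (1 + t) * (y b - 1 / 4) := congr_fun h 0
    have h1 : (1 + s) * (x c - 1 / 4) = (1 + t) * (y c - 1 / 4) := congr_fun h 1
    have h2 : (1 + s) * (x d - 1 / 4) = (1 + t) * (y d - 1 / 4) := congr_fun h 2
    simp only [List.mem_cons, List.not_mem_nil, or_false, forall_eq_or_imp, forall_eq]
    refine ⟨?_, h0, h1, h2⟩
    linear_combination (1 + s) * hs x hx - (1 + t) * hs y hy - h0 - h1 - h2
  have h1 := key u hu
  have h2 := key w hw
  simp only at hs0 ht0 hu0 hw0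
  rw [hu0] at h1
  rw [hw0] at h2
  have h3 := mul_nonneg (by linarith : 0 ≤ 1 + t) (hy.1.1 u)
  have h4 := mul_nonneg (by linarith : 0 ≤ 1 + s) (hx.1.1 w)
  obtain rfl : s = t := by linarith
  refine Prod.ext (funext fun v => ?_) rfl
  by_cases hv : v ∈ [a, b, c, d]
  · have := mul_left_cancel₀ (by linarith) (key v hv)
    simp only
    linarith
  · exact (hx.2 v hv).trans (hy.2 v hv).symm

end Pool.Agent.Lib.Z78
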