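import Pool.Agent.Lib.Z78.Defs

open Set

namespace Pool.Agent.Lib.Z78

open Pool.Agent.Lib.MP_e11f15_gt

variable {E : Type} [AddCommGroup E] [Module ℝ E]

/-- Elementary p.l. collapse across a ball from any face: `P = Q ∪ B`, where `B = h '' Δ` is a
p.l. `(n+1)`-ball and `B ∩ Q = h '' D` is a p.l. `n`-ball in the boundary of `B`. -/
def Elem (P Q : Set E) : Prop :=
  IsPolyhedron Q ∧ ∃ (n : ℕ) (h : (Fin (n + 2) → ℝ) → E) (D : Set (Fin (n + 2) → ℝ)),
    IsPLOn h (stdSimplex ℝ (Fin (n + 2))) ∧ InjOn h (stdSimplex ℝ (Fin (n + 2))) ∧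
    D ⊆ {x ∈ stdSimplex ℝ (Fin (n + 2)) | ∃ i, x i = 0} ∧
    PLHomeomorphic D (stdSimplex ℝ (Fin (n + 1))) ∧
    P = Q ∪ h '' stdSimplex ℝ (Fin (n + 2)) ∧ Q ∩ h '' stdSimplex ℝ (Fin (n + 2)) = h '' D

/-- `P` collapses to `Q`: a finite sequence of elementary collapses. -/
def Coll (P Q : Set E) : Prop := Relation.ReflTransGen Elem P Q

/-- A finite sequence of elementary expansions and collapses through polyhedra of dimension at
most three. -/
def Deform3 (P Q : Set E) : Prop :=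
  Relation.ReflTransGen (fun A B => (Elem A B ∨ Elem B A) ∧ DimLeThree A ∧ DimLeThree B) P Q

end Pool.Agent.Lib.Z78
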