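import Pool.Agent.Lib.Z78.Main
import Pool.Agent.Lib.Z78.ZDefs99

/-! The counterexample for collapses across a ball from an arbitrary face. -/

set_option linter.unusedSectionVars false

open Set Real Function ComplexConjugate

namespace Pool.Agent.Lib.Z78

open Pool.Agent.Lib.MP_e11f15_gt

namespace T99

section general

variable {E F W : Type} [NormedAddCommGroup E] [NormedSpace ℝ E] [NormedAddCommGroup F]
  [NormedSpace ℝ F] [NormedAddCommGroup W] [NormedSpace ℝ W]

theorem ball_sec {C D : Set F} (hC : IsCompact C) (hv : Convex ℝ C) (hD : D ⊆ C) {r : F → F}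
    (hr : Continuous r) (rm : ∀ y ∈ C, r y ∈ D) (re : ∀ y ∈ D, r y = y) {M : F → W →L[ℝ] W}
    (hM : ContinuousOn M C) (hi : ∀ x ∈ C, ∀ z, M x (M x z) = M x z)
    {σ : F → W} (hσ : Sec M σ D) : ∃ σ', Sec M σ' C ∧ EqOn σ' σ D := by
  obtain ⟨η, hη, hu⟩ := Metric.uniformContinuousOn_iff.1
    (hC.uniformContinuousOn_of_continuous hM) 1 one_pos
  have hd : 0 < Metric.diam C + 1 := by linarith [Metric.diam_nonneg (s := C)]
  obtain ⟨m, hm⟩ := exists_nat_one_div_lt (div_pos hη hd)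
  have hm0 : (0 : ℝ) < m + 1 := by positivity
  let p : ℕ → F → F := fun k y => r y + ((k : ℝ) / (m + 1)) • (y - r y)
  have hpc : ∀ k, Continuous (p k) := fun k => by fun_prop
  have hpm : ∀ k ≤ m + 1, ∀ y ∈ C, p k y ∈ C := fun k hk y hy =>
    hv.add_smul_sub_mem (hD (rm y hy)) hy
      ⟨by positivity, (div_le_one hm0).2 (by exact_mod_cast hk)⟩
  have hph : ∀ k, ∀ y ∈ D, p k y = y := fun k y hy => by simp [p, re y hy]
  have key : ∀ k ≤ m + 1, ∃ σ', Sec (fun y => M (p k y)) σ' C ∧ EqOn σ' σ D := by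
    intro k hk
    induction k with
    | zero =>
      refine ⟨fun y => σ (r y), ⟨hσ.1.comp hr.continuousOn rm, fun y hy => ?_⟩,
        fun y hy => by simp [re y hy]⟩
      simpa [p] using hσ.2 _ (rm y hy)
    | succ k ih =>
      obtain ⟨s, hs, hs'⟩ := ih (by omega)
      refine ⟨fun y => M (p (k + 1) y) (s y), ⟨(hM.comp (hpc _).continuousOn (hpm _ hk)).clm_apply
        hs.1, fun y hy => ⟨hi _ (hpm _ hk y hy) _, fun h0 => ?_⟩⟩, fun y hy => ?_⟩
      · have h1 : dist (p (k + 1) y) (p k y) < η := by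
          have : p (k + 1) y - p k y = (1 / (m + 1) : ℝ) • (y - r y) := by
            simp only [p]; push_cast; rw [add_div]; module
          rw [dist_eq_norm, this, norm_smul, Real.norm_of_nonneg (by positivity), ← dist_eq_norm]
          have h4 := Metric.dist_le_diam_of_mem hC.isBounded hy (hD (rm y hy))
          rw [lt_div_iff₀ hd] at hm
          refine lt_of_le_of_lt (mul_le_mul_of_nonneg_left (by linarith) (by positivity)) hm
        have h2 := hu _ (hpm _ hk y hy) _ (hpm k (by omega) y hy) h1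
        have h3 := (M (p (k + 1) y) - M (p k y)).le_opNorm (s y)
        rw [dist_eq_norm] at h2
        rw [sub_apply, show M _ (s y) = 0 from h0, (hs.2 y hy).1, zero_sub, norm_neg] at h3
        nlinarith [norm_pos_iff.2 (hs.2 y hy).2]
      · simp only [hph _ y hy, hs' hy, (hσ.2 y hy).1]
  obtain ⟨s, hs, hs'⟩ := key _ le_rfl
  refine ⟨s, ⟨hs.1, fun y hy => ?_⟩, hs'⟩
  have := hs.2 y hy
  simpa [p, hm0.ne'] using this

/-- nowhere vanishing sections on `Q` give sections on `P` -/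
def SecExt (P Q : Set E) : Prop :=
  Q ⊆ P ∧ ∀ M : E → (ℂ × ℂ) →L[ℝ] ℂ × ℂ, ContinuousOn M P → (∀ x ∈ P, ∀ z, M x (M x z) = M x z) →
    ∀ σ : E → ℂ × ℂ, Sec M σ Q → ∃ σ', Sec M σ' P

theorem SecExt.chain {R : Set E → Set E → Prop} (hR : ∀ P Q, R P Q → SecExt P Q) {P Q : Set E}
    (h : Relation.ReflTransGen R P Q) : SecExt P Q := by
  induction h with
  | refl => exact ⟨Subset.rfl, fun M _ _ σ hσ => ⟨σ, hσ⟩⟩
  | @tail A B _ h2 ih =>
    have h3 := hR _ _ h2
    refine ⟨h3.1.trans ih.1, fun M hM hi σ hσ => ?_⟩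
    obtain ⟨s, hs⟩ := h3.2 M (hM.mono ih.1) (fun x hx => hi x (ih.1 hx)) σ hσ
    exact ih.2 M hM hi s hs

theorem secExt_ball {Q : Set E} (hQ : IsClosed Q) {C D : Set F} (hC : IsCompact C)
    (hv : Convex ℝ C) (hD : D ⊆ C) {r : F → F} (hr : Continuous r) (rm : ∀ y ∈ C, r y ∈ D)
    (re : ∀ y ∈ D, r y = y) {h : F → E} (hc : ContinuousOn h C) (hinj : InjOn h C)
    (hint : Q ∩ h '' C = h '' D) : SecExt (Q ∪ h '' C) Q := by
  classical
  refine ⟨subset_union_left, fun M hM hi σ hσ => ?_⟩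
  have hinv := contOn_invFunOn hC hc hinj
  set k := Function.invFunOn h C with hk
  have hkm : MapsTo k (h '' C) C := fun x hx => Function.invFunOn_mem hx
  have hh : ∀ y ∈ D, h y ∈ Q := fun y hy => (hint.symm.subset (mem_image_of_mem h hy)).1
  obtain ⟨s, hs, hs'⟩ := ball_sec hC hv hD hr rm re (M := fun y => M (h y)) (σ := fun y => σ (h y))
    (hM.comp hc fun y hy => Or.inr (mem_image_of_mem h hy))
    (fun y hy => hi _ (Or.inr (mem_image_of_mem h hy)))
    ⟨hσ.1.comp (hc.mono hD) hh, fun y hy => hσ.2 _ (hh y hy)⟩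
  refine ⟨fun x => if x ∈ Q then σ x else s (k x), ContinuousOn.union_of_isClosed
    (hσ.1.congr fun x hx => by simp [hx]) ((hs.1.comp hinv hkm).congr fun x hx => ?_)
    hQ (hC.image_of_continuousOn hc).isClosed, fun x hx => ?_⟩
  · by_cases hxQ : x ∈ Q
    · obtain ⟨y, hy, rfl⟩ := hint.subset ⟨hxQ, hx⟩
      simp only [hxQ, if_true, Function.comp_apply]
      rw [hk, hinj.leftInvOn_invFunOn (hD hy), hs' hy]
    · simp [hxQ]
  · by_cases hxQ : x ∈ Q
    · simpa [hxQ] using hσ.2 x hxQ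
    · obtain ⟨y, hy, rfl⟩ := hx.resolve_left hxQ
      simp only [hxQ, if_false]
      rw [hk, hinj.leftInvOn_invFunOn hy]
      exact hs.2 y hy

/-- a retraction of space onto the simplex -/
theorem simplex_retract (n : ℕ) : ∃ ρ : (Fin (n + 1) → ℝ) → Fin (n + 1) → ℝ, Continuous ρ ∧
    (∀ w, ρ w ∈ stdSimplex ℝ (Fin (n + 1))) ∧ ∀ w ∈ stdSimplex ℝ (Fin (n + 1)), ρ w = w := by
  let a : (Fin (n + 1) → ℝ) → Fin (n + 1) → ℝ := fun w i => |w i| + abs (1 - ∑ j, |w j|)
  have a0 : ∀ w i, 0 ≤ a w i := fun w i => by positivity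
  have ac : Continuous a := by fun_prop
  have ap : ∀ w, 0 < ∑ i, a w i := fun w => by
    refine (Finset.sum_nonneg fun i _ => a0 w i).lt_of_ne fun h => ?_
    have h1 := (Finset.sum_eq_zero_iff_of_nonneg fun i _ => a0 w i).1 h.symm
    have h2 : ∀ i, |w i| = 0 := fun i => by
      have := h1 i (Finset.mem_univ i)
      simp only [a] at this
      linarith [abs_nonneg (w i), abs_nonneg (1 - ∑ j, |w j|)]
    have := h1 0 (Finset.mem_univ _)
    simp [a, h2] at this
  refine ⟨fun w i => a w i / ∑ j, a w j, continuous_pi fun i =>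
    Continuous.div (by fun_prop) (by fun_prop) fun w => (ap w).ne', fun w =>
    ⟨fun i => div_nonneg (a0 w i) (ap w).le, ?_⟩, fun w hw => ?_⟩
  · rw [← Finset.sum_div, div_self (ap w).ne']
  · have h1 : ∀ i, a w i = w i := fun i => by
      simp only [a, abs_of_nonneg (hw.1 _), hw.2]; simp
    funext i
    simp only [h1, hw.2, div_one]

theorem elem_secExt {P Q : Set E} (h : Elem P Q) : SecExt P Q := by
  obtain ⟨hQ, n, h, D, hpl, hinj, hD, ⟨f, hf, hb⟩, rfl, hint⟩ := h
  have hDc : IsCompact D := by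
    obtain ⟨T, hT, -⟩ := hf
    exact IsPolyhedron.isCompact ⟨T, hT⟩
  have hfc := hf.continuousOn
  obtain ⟨G, hG, hG'⟩ := tietze hDc.isClosed hfc
  obtain ⟨ρ, hρ, ρm, ρe⟩ := simplex_retract n
  have h5 := contOn_invFunOn hDc hfc hb.injOn
  rw [hb.image_eq] at h5
  exact secExt_ball hQ.isCompact.isClosed (isCompact_stdSimplex ℝ _) (convex_stdSimplex ℝ _)
    (fun y hy => (hD hy).1) (r := fun y => invFunOn f D (ρ (G y)))
    (h5.comp_continuous (hρ.comp hG) fun y => ρm _)
    (fun y _ => invFunOn_mem (hb.surjOn (ρm _)))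
    (fun y hy => by rw [hG' hy, ρe _ (hb.mapsTo hy), hb.injOn.leftInvOn_invFunOn hy])
    hpl.continuousOn hinj hint

theorem horn_ball (n : ℕ) : PLHomeomorphic (horn n) (stdSimplex ℝ (Fin (n + 1))) := by
  have hn : (0 : ℝ) < n + 1 := by positivity
  refine ⟨fun y i => y i.succ + y 0 / (n + 1), ?_, fun y hy => ⟨fun i => ?_, ?_⟩,
    fun y hy y' hy' h => ?_, fun w hw => ?_⟩
  · obtain ⟨T, hT⟩ := real_polyhedron ((List.finRange (n + 1)).map fun i =>
      (List.finRange (n + 2)).filter fun v => v ≠ i.succ)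
    refine ⟨T, hT ▸ ?_, fun _ _ => ⟨(LinearMap.pi fun i => LinearMap.proj (R := ℝ) i.succ +
      (1 / (n + 1) : ℝ) • LinearMap.proj (R := ℝ) (φ := fun _ => ℝ) 0).toAffineMap,
      fun y _ => funext fun i => by simp [div_eq_inv_mul]⟩⟩
    ext x
    simp [horn, real, spx]
  · exact add_nonneg (hy.1.1 _) (div_nonneg (hy.1.1 _) hn.le)
  · have := hy.1.2
    rw [Fin.sum_univ_succ] at this
    simp only [Finset.sum_add_distrib, Finset.sum_const, Finset.card_univ, Fintype.card_fin,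
      nsmul_eq_mul]
    push_cast
    rw [mul_div_cancel₀ _ hn.ne']
    linarith
  · obtain ⟨i, hi⟩ := hy.2
    obtain ⟨j, hj⟩ := hy'.2
    have h1 := congr_fun h i
    have h2 := congr_fun h j
    simp only [hi, hj] at h1 h2
    have h3 : y 0 / (n + 1) = y' 0 / (n + 1) := by
      linarith [hy.1.1 j.succ, hy'.1.1 i.succ]
    funext v
    refine Fin.cases ((div_left_inj' hn.ne').1 h3) (fun k => ?_) v
    have := congr_fun h k
    simp only at this
    linarith
  · refine ⟨retr (Fin.cons 0 w), retr_mem ⟨fun v => Fin.cases le_rfl (fun k => hw.1 k) v, ?_⟩, ?_⟩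
    · simpa [Fin.sum_univ_succ] using hw.2
    · funext i
      simp only [retr, Fin.cons_zero, Fin.cons_succ, zero_add]
      field_simp
      ring

theorem elem_of {P Q : Set E} (h : ElemCollapse P Q) : Elem P Q := by
  obtain ⟨hQ, n, h, hpl, hinj, h1, h2⟩ := h
  exact ⟨hQ, n, h, horn n, hpl, hinj, fun y ⟨hy, i, hi⟩ => ⟨hy, _, hi⟩, horn_ball n, h1, h2⟩

end general

theorem noK' : ¬∃ K' : Set ((V → ℝ) × ℝ), PLHomeomorphic (real (KT.map tl)) K' ∧
    SecExt (real (LT.map tl) ×ˢ Icc 0 1) K' := by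
  classical
  rintro ⟨K', ⟨f, hf, hb⟩, h2⟩
  set K := real (KT.map tl) with hK
  have hc := hf.continuousOn
  have hm : ∀ y ∈ K, (f y).1 ∈ real (LT.map tl) := fun y hy =>
    (h2.1 (hb.mapsTo hy)).1
  obtain ⟨R, S, ha⟩ := surf0.affine hf
  obtain ⟨τ, hτ, G, hG, hGt⟩ := geo S hc hb.injOn hm ha
  have ht : ContinuousOn (fun y => tt (f y).1) K := tt_cont.comp_continuousOn hc.fst
  have ht' : ContinuousOn (fun y => (tt (f y).1 : ℂ)) K :=
    Complex.continuous_ofReal.comp_continuousOn ht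
  have hw : ContinuousOn (fun y => ww (f y).1) K := ww_cont.comp hc.fst hm
  let e : (V → ℝ) → ℂ := fun y => (G y : Angle).toCircle
  have he : Continuous e := toC_cont.comp (Angle.continuous_coe.comp hG)
  let μ : (V → ℝ) → ℂ := fun y => if tt (f y).1 ≤ τ then 1 else e y * conj (uu (f y).1)
  let σ : (V → ℝ) → ℂ × ℂ := fun y => (μ y * (1 - tt (f y).1), μ y * tt (f y).1 * uu (f y).1)
  have hσ : ContinuousOn σ K := by
    have h0 : K = K ∩ (fun y => tt (f y).1) ⁻¹' Iic τ ∪ K ∩ (fun y => tt (f y).1) ⁻¹' Ici τ := by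
      rw [← inter_union_distrib_left, ← preimage_union, Iic_union_Ici]; simp
    have hcl := (real_compact (KT.map tl)).isClosed
    rw [h0]
    refine ContinuousOn.union_of_isClosed ?_ ?_ (ht.preimage_isClosed_of_isClosed hcl isClosed_Iic)
      (ht.preimage_isClosed_of_isClosed hcl isClosed_Ici)
    · have n : ∀ y ∈ K ∩ (fun y => tt (f y).1) ⁻¹' Iic τ, (1 - tt (f y).1 : ℂ) ≠ 0 := fun y hy => by
        exact_mod_cast (sub_pos.2 (lt_of_le_of_lt hy.2 hτ.2)).ne'
      refine (((continuousOn_const (c := 1)).sub (ht'.mono inter_subset_left)).prodMk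
        ((hw.mono inter_subset_left).div (continuousOn_const.sub (ht'.mono inter_subset_left))
          n)).congr fun y hy => ?_
      have := n y hy
      simp only [σ, μ, if_pos (show tt (f y).1 ≤ τ from hy.2), ww, one_mul, Pi.sub_apply,
        Pi.div_apply, Prod.mk.injEq, true_and]
      field_simp
    · have n : ∀ y ∈ K ∩ (fun y => tt (f y).1) ⁻¹' Ici τ, (tt (f y).1 : ℂ) ≠ 0 := fun y hy => by
        exact_mod_cast (lt_of_lt_of_le hτ.1 hy.2).ne'
      refine ((he.continuousOn.mul ((Complex.continuous_conj.comp_continuousOn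
        (hw.mono inter_subset_left)).div (ht'.mono inter_subset_left) n)).prodMk
        (he.continuousOn.mul (ht'.mono inter_subset_left))).congr fun y hy => ?_
      have := n y hy
      have h3 : μ y = e y * conj (uu (f y).1) := by
        simp only [μ]
        split_ifs with h
        · simp only [e, hGt y hy.1 (le_antisymm h hy.2)]
          exact (uu_conj _).symm
        · rfl
      simp only [σ, h3, ww, Pi.mul_apply, Pi.div_apply, comp_apply, map_mul, map_sub, map_one,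
        Complex.conj_ofReal, Prod.mk.injEq]
      constructor
      · field_simp
      · linear_combination e y * tt (f y).1 * uu_conj (f y).1
  have h5 := contOn_invFunOn (real_compact _) hc hb.injOn
  rw [hb.image_eq] at h5
  obtain ⟨s, hs⟩ := h2.2 (fun p => MM p.1)
    (MM_cont.comp continuousOn_fst fun p hp => hp.1) (fun p _ z => by
      obtain ⟨m, hm⟩ := MM_line p.1 z
      rw [hm, MM_fix]) (σ ∘ invFunOn f K)
    ⟨hσ.comp h5 fun y hy => invFunOn_mem (hb.surjOn hy), fun x hx => by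
      obtain ⟨y, hy, rfl⟩ := hb.surjOn hx
      simp only [comp_apply, hb.injOn.leftInvOn_invFunOn hy]
      refine ⟨MM_fix _ _, fun h => ?_⟩
      have u0 : uu (f y).1 ≠ 0 := Circle.coe_ne_zero _
      have m0 : μ y ≠ 0 := by
        simp only [μ]
        split_ifs
        · exact one_ne_zero
        · exact mul_ne_zero (Circle.coe_ne_zero _) (by simpa using u0)
      simp only [σ, Prod.mk_eq_zero, mul_eq_zero, m0, u0, false_or, or_false] at h
      simp [h.2] at h⟩
  exact nosec (σ := fun x => s (x, 0)) ⟨hs.1.comp (by fun_prop) fun x hx => ⟨hx, by simp⟩,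
    fun x hx => hs.2 (x, 0) ⟨hx, by simp⟩⟩

theorem noL' : ¬∃ L' : Set ((V → ℝ) × ℝ), PLHomeomorphic (real (LT.map tl)) L' ∧
    L' ⊆ real (KT.map tl) ×ˢ Icc 0 1 := by
  rintro ⟨L', ⟨f, hf, hb⟩, h2⟩
  have hm := hb.mapsTo.mono_right h2
  have hs : real (RP.map tl) ⊆ real (LT.map tl) := dom_spec (by decide +kernel)
  refine noRP (g := (fun p : (V → ℝ) × ℝ => fun i : Fin 3 =>
    (1 + p.2) * (p.1 (![8, 9, 10] i) - 1 / 4)) ∘ f)
    (Continuous.comp_continuousOn (by fun_prop) (hf.continuousOn.mono hs))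
    ((thick (a := 2) (by decide)).comp (hb.injOn.mono hs) fun x hx => ?_)
  exact ⟨K_iff.1 (hm (hs hx)).1, (hm (hs hx)).2⟩

theorem main : ∃ (N : ℕ) (K L : Set (Fin N → ℝ)),
    IsTwoPolyhedron K ∧ IsTwoPolyhedron L ∧ IsConnected K ∧ IsConnected L ∧
    PLHomeomorphic K {x ∈ stdSimplex ℝ (Fin 4) | ∃ i, x i = 0} ∧ IsFakeSurface L ∧
    Deform3 K L ∧
    (¬ ∃ L' : Set ((Fin N → ℝ) × ℝ), PLHomeomorphic L L' ∧ Coll (K ×ˢ Icc 0 1) L') ∧
    (¬ ∃ K' : Set ((Fin N → ℝ) × ℝ), PLHomeomorphic K K' ∧ Coll (L ×ˢ Icc 0 1) K') :=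
  ⟨14, _, _, twoPoly (by decide) (by decide +kernel), twoPoly (by decide) ndL,
    conn_spec _ (by decide +kernel), conn_spec _ (by decide +kernel), K_sphere, fakeL,
    Relation.ReflTransGen.mono (fun _ _ h => ⟨h.1.imp elem_of elem_of, h.2⟩) _ _ deform,
    fun ⟨L', h1, h2⟩ => noL' ⟨L', h1, (SecExt.chain (fun _ _ => elem_secExt) h2).1⟩,
    fun ⟨K', h1, h2⟩ => noK' ⟨K', h1, SecExt.chain (fun _ _ => elem_secExt) h2⟩⟩

end T99

end Pool.Agent.Lib.Z78
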